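import Pool.Agent.Lib.MP_47914d_nt.BD.Spec2
import Pool.Agent.Lib.TranscendentalPi

/-!
# HOM2: from relations between the `3 n + 1` numbers to relations between period matrices
-/

set_option autoImplicit false

namespace Pool.Agent.Lib.MP_47914d_nt.BD

open Polynomial Matrix Filter Topology

namespace HOM2M

/-- the number `2 π i` -/
noncomputable def tau : ℂ := 2 * Real.pi * Complex.I

theorem tau_ne : tau ≠ 0 := by
  unfold tau
  simp [Real.pi_ne_zero, Complex.I_ne_zero]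

theorem trans_tau (K : IntermediateField ℚ ℂ) (hK : FiniteDimensional ℚ K) :
    Transcendental K tau := by
  intro h
  have hA : Algebra.IsAlgebraic ℚ K := Algebra.IsAlgebraic.of_finite ℚ K
  have h1 : IsAlgebraic ℚ tau := h.restrictScalars ℚ
  have hI : IsAlgebraic ℚ Complex.I := by
    refine ⟨X ^ 2 + 1, ?_, by simp⟩
    intro h0
    have := congrArg (fun p : ℚ[X] => p.coeff 0) h0
    simp at this
  have h2 : IsAlgebraic ℚ ((2 : ℂ)) := by
    have := isAlgebraic_algebraMap (R := ℚ) (A := ℂ) (2 : ℚ)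
    simpa using this
  have h3 : (Real.pi : ℂ) = tau * (2 * Complex.I)⁻¹ := by
    unfold tau
    field_simp
  refine TranscendentalPi.transcendental_pi ?_
  rw [h3]
  exact h1.mul (h2.mul hI).inv

section

variable {R S : Type} [CommRing R] [CommRing S]

theorem map_lc (f : R →+* S) (A : Matrix (Fin 2) (Fin 2) ℤ) (X : Matrix (Fin 2) (Fin 2) R)
    (j : Fin 4) : f (lc A X j) = lc A (X.map f) j := by
  fin_cases j <;> simp [lc]

end

variable {n : ℕ} {K : IntermediateField ℚ ℂ}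

/-- block of variables -/
noncomputable def xb (K : IntermediateField ℚ ℂ) (i : Fin n) :
    Matrix (Fin 2) (Fin 2) (MvPolynomial ((Fin 2 × Fin n) × (Fin 2 × Fin n)) K) :=
  fun a b => MvPolynomial.X ((a, i), (b, i))

theorem int_C (z : ℤ) : ((z : ℤ) : MvPolynomial ((Fin 2 × Fin n) × (Fin 2 × Fin n)) K) =
    MvPolynomial.C (z : K) := by
  rw [map_intCast]

theorem deg_lin (a b : ℤ) (u v : (Fin 2 × Fin n) × (Fin 2 × Fin n)) :
    ((a : MvPolynomial ((Fin 2 × Fin n) × (Fin 2 × Fin n)) K) * MvPolynomial.X u +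
      (b : MvPolynomial ((Fin 2 × Fin n) × (Fin 2 × Fin n)) K) * MvPolynomial.X v).totalDegree
      ≤ 1 := by
  rw [int_C, int_C]
  refine (MvPolynomial.totalDegree_add _ _).trans (max_le ?_ ?_) <;>
  · refine (MvPolynomial.totalDegree_mul _ _).trans ?_
    rw [MvPolynomial.totalDegree_C, MvPolynomial.totalDegree_X]

theorem deg_lc (A : Matrix (Fin 2) (Fin 2) ℤ) (i : Fin n) (j : Fin 4) :
    (lc A (xb K i) j).totalDegree ≤ 1 := by
  fin_cases j
  · exact deg_lin _ _ _ _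
  · exact deg_lin _ _ _ _
  · exact deg_lin _ _ _ _
  · exact deg_lin _ _ _ _

/-- determinant of the block -/
noncomputable def dt (K : IntermediateField ℚ ℂ) (i : Fin n) :
    MvPolynomial ((Fin 2 × Fin n) × (Fin 2 × Fin n)) K := (xb K i).det

theorem deg_dt (i : Fin n) : (dt K i).totalDegree ≤ 2 := by
  unfold dt
  rw [Matrix.det_fin_two]
  refine (MvPolynomial.totalDegree_sub _ _).trans (max_le ?_ ?_) <;>
  · refine (MvPolynomial.totalDegree_mul _ _).trans ?_
    simp [xb]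

theorem deg_pow_mul {σ : Type} {a b : MvPolynomial σ K} {k D p : ℕ} (ha : a.totalDegree ≤ k)
    (hb : b.totalDegree ≤ k) (hp : p ≤ D) : (a ^ p * b ^ (D - p)).totalDegree ≤ k * D := by
  refine (MvPolynomial.totalDegree_mul _ _).trans ?_
  have h1 := (MvPolynomial.totalDegree_pow a p).trans (Nat.mul_le_mul_left _ ha)
  have h2 := (MvPolynomial.totalDegree_pow b (D - p)).trans (Nat.mul_le_mul_left _ hb)
  have h3 : p * k + (D - p) * k = k * D := by
    rw [← add_mul, Nat.add_sub_cancel' hp, mul_comm]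
  omega

/-- `- t V²` -/
noncomputable def p1 (A : Matrix (Fin 2) (Fin 2) ℤ) (t : ℚ) (i : Fin n) :
    MvPolynomial ((Fin 2 × Fin n) × (Fin 2 × Fin n)) K :=
  -(MvPolynomial.C (t : K) * lc A (xb K i) 0 ^ 2)

/-- `t (l V⁴ - 2 V³ V')` -/
noncomputable def p2 (A : Matrix (Fin 2) (Fin 2) ℤ) (t l : ℚ) (i : Fin n) :
    MvPolynomial ((Fin 2 × Fin n) × (Fin 2 × Fin n)) K :=
  MvPolynomial.C (t : K) * (MvPolynomial.C (l : K) * lc A (xb K i) 0 ^ 4 -
    MvPolynomial.C (2 : K) * (lc A (xb K i) 0 ^ 3 * lc A (xb K i) 1))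

theorem deg_p1 (A : Matrix (Fin 2) (Fin 2) ℤ) (t : ℚ) (i : Fin n) :
    (p1 (K := K) A t i).totalDegree ≤ 2 := by
  unfold p1
  rw [MvPolynomial.totalDegree_neg]
  refine (MvPolynomial.totalDegree_mul _ _).trans ?_
  rw [MvPolynomial.totalDegree_C, zero_add]
  refine (MvPolynomial.totalDegree_pow _ _).trans ?_
  have := deg_lc (K := K) A i 0
  omega

theorem deg_p2 (A : Matrix (Fin 2) (Fin 2) ℤ) (t l : ℚ) (i : Fin n) :
    (p2 (K := K) A t l i).totalDegree ≤ 4 := by
  unfold p2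
  refine (MvPolynomial.totalDegree_mul _ _).trans ?_
  rw [MvPolynomial.totalDegree_C, zero_add]
  refine (MvPolynomial.totalDegree_sub _ _).trans (max_le ?_ ?_)
  · refine (MvPolynomial.totalDegree_mul _ _).trans ?_
    rw [MvPolynomial.totalDegree_C, zero_add]
    refine (MvPolynomial.totalDegree_pow _ _).trans ?_
    have := deg_lc (K := K) A i 0
    omega
  · refine (MvPolynomial.totalDegree_mul _ _).trans ?_
    rw [MvPolynomial.totalDegree_C, zero_add]
    refine (MvPolynomial.totalDegree_mul _ _).trans ?_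
    have h1 := MvPolynomial.totalDegree_pow (lc A (xb K i) 0) 3
    have h2 := deg_lc (K := K) A i 0
    have h3 := deg_lc (K := K) A i 1
    omega

/-- the factor of block `i` -/
noncomputable def tm (A : Matrix (Fin 2) (Fin 2) ℤ) (t l : ℚ) (D : ℕ) (e : Fin 3 → ℕ)
    (i : Fin n) : MvPolynomial ((Fin 2 × Fin n) × (Fin 2 × Fin n)) K :=
  lc A (xb K i) 2 ^ e 0 * lc A (xb K i) 0 ^ (D - e 0) *
    (p1 A t i ^ e 1 * dt K i ^ (D - e 1)) * (p2 A t l i ^ e 2 * (dt K i ^ 2) ^ (D - e 2))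

theorem deg_tm (A : Matrix (Fin 2) (Fin 2) ℤ) (t l : ℚ) (D : ℕ) (e : Fin 3 → ℕ) (i : Fin n)
    (he : ∀ j, e j ≤ D) : (tm (K := K) A t l D e i).totalDegree ≤ 7 * D := by
  unfold tm
  refine (MvPolynomial.totalDegree_mul _ _).trans ?_
  have h1 := MvPolynomial.totalDegree_mul (lc A (xb K i) 2 ^ e 0 * lc A (xb K i) 0 ^ (D - e 0))
    (p1 A t i ^ e 1 * dt K i ^ (D - e 1))
  have h2 := deg_pow_mul (deg_lc (K := K) A i 2) (deg_lc (K := K) A i 0) (he 0)
  have h3 := deg_pow_mul (deg_p1 (K := K) A t i) (deg_dt (K := K) i) (he 1)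
  have h4 : (dt K i ^ 2).totalDegree ≤ 4 := by
    refine (MvPolynomial.totalDegree_pow _ _).trans ?_
    have := deg_dt (K := K) i
    omega
  have h5 := deg_pow_mul (deg_p2 (K := K) A t l i) h4 (he 2)
  omega

/-- evaluation at block diagonal matrices -/
noncomputable def ev (K : IntermediateField ℚ ℂ) (N : Fin n → Matrix (Fin 2) (Fin 2) ℂ) :
    MvPolynomial ((Fin 2 × Fin n) × (Fin 2 × Fin n)) K →ₐ[K] ℂ :=
  MvPolynomial.aeval (fun v : (Fin 2 × Fin n) × (Fin 2 × Fin n) => blockDiagonal N v.1 v.2)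

theorem ev_xb (N : Fin n → Matrix (Fin 2) (Fin 2) ℂ) (i : Fin n) :
    (xb K i).map (ev K N).toRingHom = N i := by
  ext a b
  simp [xb, ev, Matrix.blockDiagonal_apply]

theorem ev_lc (A : Matrix (Fin 2) (Fin 2) ℤ) (N : Fin n → Matrix (Fin 2) (Fin 2) ℂ) (i : Fin n)
    (j : Fin 4) : ev K N (lc A (xb K i) j) = lc A (N i) j := by
  have h := map_lc (ev K N).toRingHom A (xb K i) j
  rw [ev_xb] at h
  exact h

theorem ev_dt (N : Fin n → Matrix (Fin 2) (Fin 2) ℂ) (i : Fin n) :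
    ev K N (dt K i) = (N i).det := by
  have h := RingHom.map_det (ev K N).toRingHom (xb K i)
  have h2 : (ev K N).toRingHom.mapMatrix (xb K i) = N i := ev_xb N i
  rw [h2] at h
  exact h

theorem coe_rat (t : ℚ) : (((t : ℚ) : K) : ℂ) = (t : ℂ) := by
  have := map_ratCast (algebraMap K ℂ) t
  exact this

theorem coe_two : ((2 : K) : ℂ) = 2 := by
  have := map_ofNat (algebraMap K ℂ) 2
  exact this

theorem ev_C (N : Fin n → Matrix (Fin 2) (Fin 2) ℂ) (c : K) :
    ev K N (MvPolynomial.C c) = (c : ℂ) := by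
  unfold ev
  rw [MvPolynomial.aeval_C]
  rfl

theorem ev_p1 (A : Matrix (Fin 2) (Fin 2) ℤ) (t : ℚ) (N : Fin n → Matrix (Fin 2) (Fin 2) ℂ)
    (i : Fin n) : ev K N (p1 A t i) = -(t * lc A (N i) 0 ^ 2) := by
  unfold p1
  rw [map_neg, map_mul, map_pow, ev_lc, ev_C, coe_rat]

theorem ev_p2 (A : Matrix (Fin 2) (Fin 2) ℤ) (t l : ℚ) (N : Fin n → Matrix (Fin 2) (Fin 2) ℂ)
    (i : Fin n) : ev K N (p2 A t l i) = t * (l * lc A (N i) 0 ^ 4 -
      2 * lc A (N i) 0 ^ 3 * lc A (N i) 1) := by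
  unfold p2
  rw [map_mul, map_sub, map_mul, map_mul, map_mul, map_pow, map_pow, ev_lc, ev_lc, ev_C, ev_C,
    ev_C, coe_rat, coe_rat, coe_two]
  ring

/-- the polynomial `Q` -/
noncomputable def QQ (P : MvPolynomial (Option (Fin n × Fin 3)) K)
    (A : Fin n → Matrix (Fin 2) (Fin 2) ℤ) (t l : Fin n → ℚ) (D : ℕ) (i0 : Fin n) :
    MvPolynomial ((Fin 2 × Fin n) × (Fin 2 × Fin n)) K :=
  ∑ e ∈ P.support, MvPolynomial.C (P.coeff e) * dt K i0 ^ (e none) *
    ∏ i, tm (A i) (t i) (l i) D (fun j => e (some (i, j))) i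

theorem e_le {P : MvPolynomial (Option (Fin n × Fin 3)) K} {D : ℕ} (hP : P.totalDegree ≤ D)
    {e : Option (Fin n × Fin 3) →₀ ℕ} (he : e ∈ P.support) (o : Option (Fin n × Fin 3)) :
    e o ≤ D := by
  refine le_trans ?_ ((MvPolynomial.le_totalDegree he).trans hP)
  rw [Finsupp.sum_fintype _ _ (by simp)]
  exact Finset.single_le_sum (f := fun i => e i) (fun _ _ => Nat.zero_le _) (Finset.mem_univ o)

theorem deg_QQ {P : MvPolynomial (Option (Fin n × Fin 3)) K} {D : ℕ} (hP : P.totalDegree ≤ D)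
    (A : Fin n → Matrix (Fin 2) (Fin 2) ℤ) (t l : Fin n → ℚ) (i0 : Fin n) :
    (QQ P A t l D i0).totalDegree ≤ 9 * n * D := by
  have hn : 0 < n := lt_of_le_of_lt (Nat.zero_le _) i0.isLt
  refine MvPolynomial.totalDegree_finsetSum_le ?_
  intro e hes
  refine (MvPolynomial.totalDegree_mul _ _).trans ?_
  have h1 : (MvPolynomial.C (P.coeff e) * dt K i0 ^ (e none)).totalDegree ≤ 2 * D := by
    refine (MvPolynomial.totalDegree_mul _ _).trans ?_
    rw [MvPolynomial.totalDegree_C, zero_add]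
    refine (MvPolynomial.totalDegree_pow _ _).trans ?_
    calc e none * (dt K i0).totalDegree ≤ D * 2 :=
          Nat.mul_le_mul (e_le hP hes none) (deg_dt (K := K) i0)
      _ = 2 * D := mul_comm _ _
  have h2 : (∏ i, tm (K := K) (A i) (t i) (l i) D (fun j => e (some (i, j))) i).totalDegree ≤
      n * (7 * D) := by
    refine (MvPolynomial.totalDegree_finsetProd _ _).trans ?_
    calc ∑ i, (tm (K := K) (A i) (t i) (l i) D (fun j => e (some (i, j))) i).totalDegree ≤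
          ∑ _i : Fin n, 7 * D :=
          Finset.sum_le_sum fun i _ => deg_tm _ _ _ _ _ _ fun j => e_le hP hes _
      _ = n * (7 * D) := by simp
  have h3 : 2 * D ≤ n * (2 * D) := Nat.le_mul_of_pos_left _ hn
  calc _ ≤ n * (2 * D) + n * (7 * D) := by omega
    _ = 9 * n * D := by ring

theorem pw {τ x y : ℂ} {D p : ℕ} (hp : p ≤ D) (h : x = y * τ) :
    x ^ p * τ ^ (D - p) = y ^ p * τ ^ D := by
  rw [h, mul_pow, mul_assoc, ← pow_add, Nat.add_sub_cancel' hp]

theorem ev_QQ {P : MvPolynomial (Option (Fin n × Fin 3)) K} {D : ℕ} (hP : P.totalDegree ≤ D)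
    (A : Fin n → Matrix (Fin 2) (Fin 2) ℤ) (t l : Fin n → ℚ) (i0 : Fin n)
    (N : Fin n → Matrix (Fin 2) (Fin 2) ℂ) (w : Fin n → Fin 3 → ℂ)
    (hN : ∀ i, (N i).det = tau)
    (h0 : ∀ i, w i 0 * lc (A i) (N i) 0 = lc (A i) (N i) 2)
    (h1 : ∀ i, w i 1 * tau = -(t i * lc (A i) (N i) 0 ^ 2))
    (h2 : ∀ i, w i 2 * tau ^ 2 = t i * (l i * lc (A i) (N i) 0 ^ 4 -
      2 * lc (A i) (N i) 0 ^ 3 * lc (A i) (N i) 1)) :
    ev K N (QQ P A t l D i0) = (∏ i, (lc (A i) (N i) 0 ^ D * tau ^ D * (tau ^ 2) ^ D)) *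
      MvPolynomial.aeval (fun o : Option (Fin n × Fin 3) => o.elim tau fun v => w v.1 v.2) P := by
  have hPe : MvPolynomial.aeval (fun o : Option (Fin n × Fin 3) =>
      o.elim tau fun v => w v.1 v.2) P = ∑ e ∈ P.support, ((P.coeff e : K) : ℂ) *
        (tau ^ e none * ∏ i, ∏ j, w i j ^ e (some (i, j))) := by
    rw [MvPolynomial.aeval_def, MvPolynomial.eval₂_eq']
    refine Finset.sum_congr rfl fun e _ => ?_
    rw [Fintype.prod_option, Fintype.prod_prod_type]
    rfl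
  rw [hPe]
  unfold QQ
  rw [map_sum, Finset.mul_sum]
  refine Finset.sum_congr rfl fun e hes => ?_
  rw [map_mul, map_mul, map_pow, map_prod, ev_C, ev_dt, hN]
  have h3 : ∀ i, ev K N (tm (A i) (t i) (l i) D (fun j => e (some (i, j))) i) =
      (lc (A i) (N i) 0 ^ D * tau ^ D * (tau ^ 2) ^ D) * ∏ j, w i j ^ e (some (i, j)) := by
    intro i
    unfold tm
    simp only [map_mul, map_pow, ev_lc, ev_dt, ev_p1, ev_p2, hN]
    rw [pw (e_le hP hes (some (i, 0))) (h0 i).symm,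
      pw (e_le hP hes (some (i, 1))) (h1 i).symm,
      pw (e_le hP hes (some (i, 2))) (h2 i).symm, Fin.prod_univ_three]
    ring
  rw [Finset.prod_congr rfl fun i _ => h3 i, Finset.prod_mul_distrib]
  ring

/-- the two columns: every prescribed `(V, V', U, U')` is attained -/
theorem exists_X (A : Matrix (Fin 2) (Fin 2) ℤ) (hA : A.det = 1) (V V' U U' : ℂ)
    (h : V * U' - V' * U = tau) : ∃ B : GL (Fin 2) ℂ, B.1.det = tau ∧ lc A B.1 0 = V ∧
      lc A B.1 1 = V' ∧ lc A B.1 2 = U ∧ lc A B.1 3 = U' := by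
  have hd : (A 0 0 : ℂ) * A 1 1 - A 0 1 * A 1 0 = 1 := by
    rw [Matrix.det_fin_two] at hA
    exact_mod_cast hA
  have hdet : (!![(A 0 0 : ℂ) * V - A 1 0 * U, A 0 0 * V' - A 1 0 * U';
      -(A 0 1 : ℂ) * V + A 1 1 * U, -(A 0 1 : ℂ) * V' + A 1 1 * U'] :
        Matrix (Fin 2) (Fin 2) ℂ).det = tau := by
    rw [Matrix.det_fin_two_of]
    linear_combination (V * U' - V' * U) * hd + h
  refine ⟨Matrix.GeneralLinearGroup.mkOfDetNeZero _ (by rw [hdet]; exact tau_ne), hdet,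
    ?_, ?_, ?_, ?_⟩
  · simp [lc, Matrix.GeneralLinearGroup.mkOfDetNeZero]
    linear_combination V * hd
  · simp [lc, Matrix.GeneralLinearGroup.mkOfDetNeZero]
    linear_combination V' * hd
  · simp [lc, Matrix.GeneralLinearGroup.mkOfDetNeZero]
    linear_combination U * hd
  · simp [lc, Matrix.GeneralLinearGroup.mkOfDetNeZero]
    linear_combination U' * hd

/-- a polynomial vanishing when the variables `(i, 1)` are nonzero is zero -/
theorem eq_zero_of_eval (F : MvPolynomial (Fin n × Fin 3) ℂ)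
    (h : ∀ w : Fin n × Fin 3 → ℂ, (∀ i, w (i, 1) ≠ 0) → MvPolynomial.eval w F = 0) : F = 0 := by
  have h1 : F * ∏ i : Fin n, MvPolynomial.X (i, (1 : Fin 3)) = 0 := by
    refine MvPolynomial.funext fun w => ?_
    rw [map_mul, map_prod, map_zero]
    by_cases hw : ∀ i, w (i, 1) ≠ 0
    · rw [h w hw, zero_mul]
    · push Not at hw
      obtain ⟨i, hi⟩ := hw
      rw [Finset.prod_eq_zero (Finset.mem_univ i) (by rw [MvPolynomial.eval_X]; exact hi),
        mul_zero]
  rcases mul_eq_zero.1 h1 with h2 | h2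
  · exact h2
  · exfalso
    rw [Finset.prod_eq_zero_iff] at h2
    obtain ⟨i, _, hi⟩ := h2
    exact MvPolynomial.X_ne_zero _ hi

/-- transcendence: if `P (τ, w) = 0` for all `w` with `w (i, 1) ≠ 0` then `P = 0` -/
theorem eq_zero_of_trans (P : MvPolynomial (Option (Fin n × Fin 3)) K) {τ : ℂ}
    (hτ : Transcendental K τ)
    (h : ∀ w : Fin n × Fin 3 → ℂ, (∀ i, w (i, 1) ≠ 0) →
      MvPolynomial.aeval (fun o : Option (Fin n × Fin 3) => o.elim τ w) P = 0) : P = 0 := by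
  set E := MvPolynomial.optionEquivRight K (Fin n × Fin 3) with hE
  set φ : K[X] →+* ℂ := (Polynomial.aeval τ : K[X] →ₐ[K] ℂ).toRingHom with hφ
  have hinj : Function.Injective φ := by
    have := transcendental_iff_injective.1 hτ
    exact this
  have hmap : MvPolynomial.map φ (E P) = 0 := by
    refine eq_zero_of_eval _ fun w hw => ?_
    rw [MvPolynomial.eval_map, ← h w hw]
    have h1 : ((MvPolynomial.eval₂Hom φ w).comp E.toAlgHom.toRingHom) =
        (MvPolynomial.aeval (fun o : Option (Fin n × Fin 3) => o.elim τ w) :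
          MvPolynomial (Option (Fin n × Fin 3)) K →ₐ[K] ℂ).toRingHom := by
      refine MvPolynomial.ringHom_ext (fun c => ?_) (fun o => ?_)
      · simp [hE, hφ]
      · rcases o with _ | o
        · simp [hE, hφ]
        · simp [hE, hφ]
    exact congrArg (fun f : MvPolynomial (Option (Fin n × Fin 3)) K →+* ℂ => f P) h1
  have h2 : E P = 0 := MvPolynomial.map_injective φ hinj (by rw [hmap, map_zero])
  exact E.injective (by rw [h2, map_zero])

end HOM2M

open HOM2M in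
theorem specHOM2 : SpecHom2 := by
  intro n D K P M A t l w hK hn hP hA hM ht hw hPw hQ
  classical
  have hM' : ∀ i, (M i).1.det = tau := hM
  set i0 : Fin n := ⟨0, hn⟩ with hi0
  refine eq_zero_of_trans P (trans_tau K hK) fun v hv => ?_
  have hc : ev K (fun i => (M i).1) (QQ P A t l D i0) = 0 := by
    rw [ev_QQ hP A t l i0 (fun i => (M i).1) w hM' (fun i => (hw i).2.1) (fun i => (hw i).2.2.1)
      (fun i => (hw i).2.2.2)]
    exact mul_eq_zero_of_right _ hPw
  -- the matrices `X i`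
  have hX : ∀ i, ∃ B : GL (Fin 2) ℂ, B.1.det = tau ∧ lc (A i) B.1 0 ≠ 0 ∧
      v (i, 0) * lc (A i) B.1 0 = lc (A i) B.1 2 ∧
      v (i, 1) * tau = -(t i * lc (A i) B.1 0 ^ 2) ∧
      v (i, 2) * tau ^ 2 = t i * (l i * lc (A i) B.1 0 ^ 4 -
        2 * lc (A i) B.1 0 ^ 3 * lc (A i) B.1 1) := by
    intro i
    have hti : (t i : ℂ) ≠ 0 := by exact_mod_cast ht i
    obtain ⟨V, hV⟩ := IsAlgClosed.exists_pow_nat_eq (-(v (i, 1) * tau) / (t i : ℂ))
      (n := 2) (by norm_num)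
    have hV0 : V ≠ 0 := by
      intro h0
      rw [h0] at hV
      have h1 : -(v (i, 1) * tau) / (t i : ℂ) ≠ 0 :=
        div_ne_zero (neg_ne_zero.2 (mul_ne_zero (hv i) tau_ne)) hti
      apply h1
      rw [← hV]
      simp
    obtain ⟨B, hB, b0, b1, b2, b3⟩ := exists_X (A i) (hA i) V
      ((l i * V ^ 4 - v (i, 2) * tau ^ 2 / t i) / (2 * V ^ 3)) (v (i, 0) * V)
      ((tau + (l i * V ^ 4 - v (i, 2) * tau ^ 2 / t i) / (2 * V ^ 3) * (v (i, 0) * V)) / V)
      (by field_simp; ring)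
    refine ⟨B, hB, by rw [b0]; exact hV0, by rw [b0, b2], ?_, ?_⟩
    · rw [b0, hV]
      field_simp
    · rw [b0, b1]
      field_simp
      ring
  choose B hBd hB0 hBu hB1 hB2 using hX
  have hg := hQ (QQ P A t l D i0) (deg_QQ hP A t l i0) hc (fun i => B i * (M i)⁻¹) (by
    intro i
    show (B i * (M i)⁻¹).1.det = 1
    have h : (M i).1 * (M i)⁻¹.1 = 1 := (M i).mul_inv
    have h2 : (M i).1.det * (M i)⁻¹.1.det = 1 := by rw [← Matrix.det_mul, h, Matrix.det_one]
    rw [hM' i] at h2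
    rw [Units.val_mul, Matrix.det_mul, hBd i, h2])
  have hgm : (fun i => (B i * (M i)⁻¹ * M i).1) = fun i => (B i).1 := by
    funext i
    rw [inv_mul_cancel_right]
  rw [hgm] at hg
  have hg2 : ev K (fun i => (B i).1) (QQ P A t l D i0) = 0 := hg
  rw [ev_QQ hP A t l i0 (fun i => (B i).1) (fun i j => v (i, j)) hBd hBu hB1 hB2] at hg2
  rcases mul_eq_zero.1 hg2 with h | h
  · exfalso
    rw [Finset.prod_eq_zero_iff] at h
    obtain ⟨i, _, hi⟩ := h
    exact mul_ne_zero (mul_ne_zero (pow_ne_zero _ (hB0 i)) (pow_ne_zero _ tau_ne))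
      (pow_ne_zero _ (pow_ne_zero _ tau_ne)) hi
  · exact h

end Pool.Agent.Lib.MP_47914d_nt.BD
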