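import Pool.Agent.Lib.MP_47914d_nt.BD.Spec

/-!
# The modular Schanuel conjecture with derivatives in bounded degree: specifications

Stronger form of the theorem of Spec.lean: the `3 n + 1` numbers `2 π i`, `z i`, `j'(z i)`,
`j''(z i)`.
-/

set_option autoImplicit false

namespace Pool.Agent.Lib.MP_47914d_nt.BD

open Polynomial Matrix Filter Topology
open scoped PowerSeries
open Pool.Agent.Lib.MPf11a48.GF (zq IsG pval peval)
open Pool.Agent.Lib.MPf11a48.GF.EstM (Sm)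
open Pool.Agent.Lib.MPf11a48.CF (vm)
open Pool.Agent.Lib.MPf11a48.CG (trf pm trm FamT IsSS pevalC gY GoodP bd StatementJ TrS)
open Pool.Agent.Lib.MPf11a48.GL2 (lie)
open Pool.Agent.Lib.MPf11a48.K3 (cx)

/-- The theorem: the modular Schanuel conjecture with derivatives, in bounded degree, for points
`z 1, ..., z n` with large rational `j`-invariants of the form `j (z i) = b / a + m i`: the `3 n + 1`
numbers `2 π i`, `z i`, `j' (z i)`, `j'' (z i)` satisfy no nonzero polynomial equation of degree `≤ D`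
over a number field of degree `≤ δ`. -/
def Statement2 : Prop :=
  ∀ D δ k : ℕ, ∃ C : ℕ, ∀ a b : ℤ, a ≠ 0 → (C : ℤ) * |a| ^ C ≤ b →
    ∃ E : Finset ℕ, E.card ≤ 2 ∧ ∀ (n : ℕ) (m : Fin n → ℕ) (z : Fin n → ℂ),
      Function.Injective m → (∀ i, m i < k ∧ m i ∉ E) →
      (∀ i, 0 < (z i).im ∧ Jc (z i) = (b : ℂ) / a + m i) →
      ∀ K : IntermediateField ℚ ℂ, FiniteDimensional ℚ K → Module.finrank ℚ K ≤ δ →
        ∀ P : MvPolynomial (Option (Fin n × Fin 3)) K, P ≠ 0 → P.totalDegree ≤ D →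
          MvPolynomial.aeval (fun o : Option (Fin n × Fin 3) =>
            o.elim (2 * Real.pi * Complex.I) fun v =>
              (![z v.1, deriv Jc (z v.1), deriv (deriv Jc) (z v.1)] : Fin 3 → ℂ) v.2) P ≠ 0

/-- DJ (150 lines, from SpecJ, NUM, LNK): the derivatives of `j` at `zx x`.
PROOF: fix `x ≠ 0` small. Near `y = x` let `ζ(y) = (log x + log (y/x) + G(y)/F(y))/(2πi)`: analytic near
`x`, `ζ(x) = zx x`, and `ζ(y) - zx y` is an integer (`exp` of `log x + log (y/x)` is `y`), so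
`J(ζ(y)) = J(zx y) = 1/y` (`CMB.Jc_add_int`). `ζ'(y) = (1/y + (θG F - G θF)/(y F²))/(2πi) =
1/(2πi y (u F)²)` by `wr` (`θf = pval (th f)`, `u = pval us`). Differentiating `J(ζ(y)) = 1/y`:
`J'(ζ(y)) = -2πi (uF)²(y)/y` for all `y` near `x`; this is the first claim (`y = x`). Differentiating
again: `J''(ζ(y)) ζ'(y) = -2πi (2 (uF) θ(uF) - (uF)²)/y²` with `θ(uF) = -432 y/(1-1728y) uF + u θF`
(`U0`), and multiplying by `2πi y (uF)²`:
`J'' = (2πi)²/y ((1 + 864 y/(1-1728y)) (uF)⁴ - 2 (uF)³ (u θF))`. (Checked numerically.) -/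
def SpecDj : Prop :=
  ∃ ρ : ℝ, 0 < ρ ∧ ∀ x : ℂ, x ≠ 0 → ‖x‖ < ρ →
    deriv Jc (zx x) = -(2 * Real.pi * Complex.I) * (pval us x * pval Fs x) ^ 2 / x ∧
    deriv (deriv Jc) (zx x) = (2 * Real.pi * Complex.I) ^ 2 / x *
      ((1 + 864 * x / (1 - 1728 * x)) * (pval us x * pval Fs x) ^ 4 -
        2 * (pval us x * pval Fs x) ^ 3 * (pval us x * pval (th Fs) x))

/-- TRJ (80 lines, from SpecJ): the derivatives of `j` under `SL₂(ℤ)`.
PROOF: `g w = (a w + b)/(c w + d)`, `J(g w) = J(w)` for `w` near `z` (`SpecJ.smul`, or see CMBound/Inj),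
`g' = (c w + d)^(-2)`: `J'(g w) = (c w + d)² J'(w)` near `z`; differentiate again. -/
def SpecTrj : Prop :=
  ∀ (a b c d : ℤ) (z z' : ℂ), a * d - b * c = 1 → 0 < z.im → 0 < z'.im →
    ((c : ℂ) * z + d) * z' = a * z + b →
    deriv Jc z' = ((c : ℂ) * z + d) ^ 2 * deriv Jc z ∧
    deriv (deriv Jc) z' = ((c : ℂ) * z + d) ^ 4 * deriv (deriv Jc) z +
      2 * c * ((c : ℂ) * z + d) ^ 3 * deriv Jc z

/-- The entries `V`, `V'`, `U`, `U'` of `[d c; b a] X` (`A = [a b; c d]`), in this order. -/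
def lc {R : Type} [CommRing R] (A : Matrix (Fin 2) (Fin 2) ℤ) (X : Matrix (Fin 2) (Fin 2) R) :
    Fin 4 → R :=
  ![(A 1 0 : R) * X 1 0 + (A 1 1 : R) * X 0 0, (A 1 0 : R) * X 1 1 + (A 1 1 : R) * X 0 1,
    (A 0 0 : R) * X 1 0 + (A 0 1 : R) * X 0 0, (A 0 0 : R) * X 1 1 + (A 0 1 : R) * X 0 1]

/-- HOM2 (200 lines): from relations between the `3 n + 1` numbers to relations between period
matrices. Compare HOM.
PROOF: for matrices `X i` let `V, V', U, U'` be `lc (A i) (X i)` and `Δ = det (X i) = V U' - V' U`. Let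
`Q(X) = ∑_e coeff_e P * (det (X 0))^(e none) *
  ∏_i U^(e i0) V^(D - e i0) (-t V²)^(e i1) Δ^(D - e i1) (t (l V⁴ - 2 V³ V'))^(e i2) Δ^(2 (D - e i2))`,
a polynomial of degree `≤ 2 D + 7 n D ≤ 9 n D`. If `V i ≠ 0` and `det (X i) = 2πi` for all `i` then
`Q(X) = ∏ V^D Δ^(3 D) P(2πi, U/V, -t V²/(2πi), t (l V⁴ - 2 V³ V')/(2πi)²)`; so `Q(c) = 0`. Let
`ζ, η, ω : Fin n → ℂ`, `η i ≠ 0`. Choose `V` with `-t V² = 2πi η`, `V'` with
`t (l V⁴ - 2 V³ V') = (2πi)² ω`, `U = ζ V`, `U'` with `V U' - V' U = 2πi`, and `X i` with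
`lc (A i) (X i) = (V, V', U, U')`; `det (X i) = 2πi = det (M i)`, so `g i = X i (M i)⁻¹ ∈ SL₂(ℂ)` and
`Q(g c) = 0` by hypothesis, i.e. `P(2πi, ζ, η, ω) = 0`. Hence the polynomial `P(2πi, ·)` times
`∏ X(i,1)` vanishes everywhere, `P(2πi, ·) = 0`. So all coefficients (in `K[T]`) of `P` vanish at
`T = 2πi`, which is transcendental over `K`
(`TranscendentalPi.transcendental_pi`, Lib/TranscendentalPi.lean; `K` is algebraic over `ℚ`), `P = 0`. -/
def SpecHom2 : Prop :=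
  ∀ (n D : ℕ) (K : IntermediateField ℚ ℂ) (P : MvPolynomial (Option (Fin n × Fin 3)) K)
    (M : Fin n → GL (Fin 2) ℂ) (A : Fin n → Matrix (Fin 2) (Fin 2) ℤ) (t l : Fin n → ℚ)
    (w : Fin n → Fin 3 → ℂ), FiniteDimensional ℚ K → 0 < n → P.totalDegree ≤ D →
    (∀ i, (A i).det = 1) → (∀ i, (M i).1.det = 2 * Real.pi * Complex.I) → (∀ i, t i ≠ 0) →
    (∀ i, lc (A i) (M i).1 0 ≠ 0 ∧ w i 0 * lc (A i) (M i).1 0 = lc (A i) (M i).1 2 ∧
      w i 1 * (2 * Real.pi * Complex.I) = -(t i * lc (A i) (M i).1 0 ^ 2) ∧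
      w i 2 * (2 * Real.pi * Complex.I) ^ 2 = t i * (l i * lc (A i) (M i).1 0 ^ 4 -
        2 * lc (A i) (M i).1 0 ^ 3 * lc (A i) (M i).1 1)) →
    MvPolynomial.aeval (fun o : Option (Fin n × Fin 3) =>
      o.elim (2 * Real.pi * Complex.I) fun v => w v.1 v.2) P = 0 →
    (∀ Q : MvPolynomial ((Fin 2 × Fin n) × (Fin 2 × Fin n)) K, Q.totalDegree ≤ 9 * n * D →
      MvPolynomial.aeval (fun v : (Fin 2 × Fin n) × (Fin 2 × Fin n) =>
        blockDiagonal (fun i => (M i).1) v.1 v.2) Q = 0 →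
      ∀ g : Fin n → GL (Fin 2) ℂ, (∀ i, g i ∈ SL) →
        MvPolynomial.aeval (fun v : (Fin 2 × Fin n) × (Fin 2 × Fin n) =>
          blockDiagonal (fun i => (g i * M i).1) v.1 v.2) Q = 0) → P = 0

/-- FIN2: the theorem (helper39). -/
def SpecFin2 : Prop :=
  StatementJ → SpecInjFull → SpecSys → SpecSl → SpecNum → SpecLnk → SpecMon → SpecDj → SpecTrj →
    SpecHom2 → Statement2

end Pool.Agent.Lib.MP_47914d_nt.BD
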