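import Pool.Agent.Lib.MP_47914d_nt.BD.Spec
import Pool.Agent.Lib.MP_47914d_nt.DerExt
import Pool.Agent.Lib.MP_47914d_nt.BD.Spec2
import Pool.Agent.Lib.MP_47914d_nt.JFormula
import Pool.Agent.Lib.MP_47914d_nt.Ricc

section
set_option autoImplicit false

/-!
Module AIN: algebraic independence of the entries.
-/

namespace Pool.Agent.Lib.MP_47914d_nt.BD

open Polynomial Matrix

namespace AINM

variable {F : Type} [Field F] [Algebra ℂ F]

/-- the constants of the situation -/
theorem basic {D : Derivation ℂ F F} {x l z p q r A A₁ C u : F} {m : ℕ} (hx : D x = 1)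
    (h : Dat D x l z p q r A A₁ C u m) :
    x ≠ 0 ∧ (1 : F) + m * x ≠ 0 ∧ q ≠ 0 ∧ r ≠ 0 ∧ A ≠ 0 ∧ u ≠ 0 := by
  have hch : CharZero F := charZero_of_injective_algebraMap (algebraMap ℂ F).injective
  have hx0 : x ≠ 0 := by
    rintro rfl
    rw [map_zero] at hx
    exact zero_ne_one hx
  have hq := q_ne h.ai
  have hr := r_ne h.ai
  have hm : (1 : F) + m * x ≠ 0 := by
    intro h0
    have h1 := congrArg D h0
    rw [map_add, map_zero, Derivation.map_one_eq_zero, Derivation.leibniz, D.map_natCast, hx] at h1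
    simp only [smul_eq_mul, mul_one, mul_zero, add_zero, zero_add] at h1
    rw [h1, zero_mul, add_zero] at h0
    exact one_ne_zero h0
  refine ⟨hx0, hm, hq, hr, ?_, ?_⟩
  · rintro rfl
    apply hq
    rw [← h.A4]
    ring
  · rintro rfl
    have h1 := h.u4
    have h2 := h.y
    apply hr
    have hs : (1 : F) + m * x = 1728 * x := by linear_combination -h1
    rw [hs] at h2
    have h3 : 1728 * x * r ^ 2 = 0 := by
      linear_combination -h2
    have h4 : (1728 : F) * x ≠ 0 := mul_ne_zero (by norm_num) hx0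
    have h5 : r ^ 2 = 0 := by
      rcases mul_eq_zero.1 h3 with h | h
      · exact absurd h h4
      · exact h
    exact pow_eq_zero_iff two_ne_zero |>.1 h5

/-- The formula for `A₁`. -/
theorem A1_eq {D : Derivation ℂ F F} {x l z p q r A A₁ C u : F} {m : ℕ} (hx : D x = 1)
    (h : Dat D x l z p q r A A₁ C u m) : 12 * r * A₁ = A * (p * q - r) := by
  have hch : CharZero F := charZero_of_injective_algebraMap (algebraMap ℂ F).injective
  obtain ⟨hx0, hm, hq, hr, hA, hu⟩ := basic hx h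
  have hy : (1 + m * x) / x * (q ^ 3 - r ^ 2) = 1728 * q ^ 3 := by
    rw [div_mul_eq_mul_div, h.y]
    field_simp
  have h1 := delta_y hy h.w
  have h2 : D ((1 + m * x) / x) = -1 / x ^ 2 := by
    have e1 : (1 + m * x) / x = x⁻¹ + m := by field_simp
    rw [e1, map_add, D.map_natCast, add_zero, Derivation.leibniz_inv, hx]
    simp only [smul_eq_mul, mul_one]
    rw [neg_div, one_div, inv_pow]
  rw [h2] at h1
  have h3 : om0 (0 : Fin 3 → F) z = 0 := by simp [om0]
  have h4 : om1 (0 : Fin 3 → F) z = 0 := by simp [om1]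
  rw [h3, add_zero] at h1
  -- `D z`
  have h5 : 12 * r * x * (1 + m * x) * D z = q := by
    have e1 : (q ^ 3 - r ^ 2) = 20736 * (q ^ 2 * r) * D z * x ^ 2 := by
      have : -1 / x ^ 2 * (q ^ 3 - r ^ 2) * x ^ 2 = -20736 * (q ^ 2 * r) * D z * x ^ 2 := by
        rw [h1]
      have e2 : -1 / x ^ 2 * (q ^ 3 - r ^ 2) * x ^ 2 = -(q ^ 3 - r ^ 2) := by
        field_simp
      rw [e2] at this
      linear_combination -this
    have e3 := h.y
    rw [e1] at e3
    have e4 : (1728 * q ^ 2 * x) * (12 * r * x * (1 + m * x) * D z) = (1728 * q ^ 2 * x) * q := by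
      linear_combination e3
    exact mul_left_cancel₀ (mul_ne_zero (mul_ne_zero (by norm_num) (pow_ne_zero 2 hq)) hx0) e4
  -- `D A`
  set κ := algebraMap ℂ F ((Real.pi * Complex.I / 6) ^ 2) with hκ
  have h6 : κ * (4 * A ^ 3 * D A) = 4 * (p * q - r) * D z := by
    have e1 := congrArg D h.A4
    rw [← hκ, Derivation.leibniz, Derivation.leibniz_pow, hκ, D.map_algebraMap, ← hκ, h.w.hq,
      h3, h4] at e1
    simp only [smul_eq_mul, nsmul_eq_mul] at e1
    push_cast at e1
    linear_combination e1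
  have h7 : q * D A = A * (p * q - r) * D z := by
    have e1 := h.A4
    rw [← hκ] at e1
    linear_combination (A / 4) * h6 - D A * e1
  have h8 : q * (12 * r * A₁) = q * (A * (p * q - r)) := by
    rw [h.A1]
    linear_combination 12 * r * x * (1 + m * x) * h7 + A * (p * q - r) * h5
  exact mul_left_cancel₀ hq h8

/-- the values of the derivation -/
theorem vals {D δ : Derivation ℂ F F} {x l z p q r A A₁ C u : F} {m : ℕ} {w : Fin 3 → F}
    (hx : D x = 1) (h : Dat D x l z p q r A A₁ C u m) (hδx : δ x = 0) (hδl : δ l = 0)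
    (hW : IsW δ z p q r w) :
    δ (u * A) = u * (om1 w z * A / 2) ∧
    δ (u * A₁) = u * (om1 w z * A₁ / 2 + A * q * w 2 / (12 * r)) ∧
    δ (u * C) = u * (om1 w z * C / 2 -
      algebraMap ℂ F (2 * Real.pi * Complex.I) * A * om0 w z) := by
  have hch : CharZero F := charZero_of_injective_algebraMap (algebraMap ℂ F).injective
  obtain ⟨hx0, hm, hq, hr, hA, hu⟩ := basic hx h
  have hy : (1 + m * x) / x * (q ^ 3 - r ^ 2) = 1728 * q ^ 3 := by
    rw [div_mul_eq_mul_div, h.y]
    field_simp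
  have hδm : δ (1 + m * x) = 0 := by
    rw [map_add, Derivation.map_one_eq_zero, Derivation.leibniz, δ.map_natCast, hδx]
    simp
  have h1 := delta_y hy hW
  have h2 : δ ((1 + m * x) / x) = 0 := by
    have e1 : (1 + m * x) / x = x⁻¹ + m := by field_simp
    rw [e1, map_add, δ.map_natCast, add_zero, Derivation.leibniz_inv, hδx]
    simp
  rw [h2, zero_mul] at h1
  have h3 : δ z + om0 w z = 0 := by
    have : -20736 * (q ^ 2 * r) ≠ 0 :=
      mul_ne_zero (by norm_num) (mul_ne_zero (pow_ne_zero 2 hq) hr)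
    rcases mul_eq_zero.1 h1.symm with h | h
    · exact absurd h this
    · exact h
  have hp' := hW.hp
  have hq' := hW.hq
  have hr' := hW.hr
  rw [h3, mul_zero, zero_add] at hp' hq' hr'
  -- `δ u = 0`
  have hδu : δ u = 0 := by
    have e1 := congrArg δ h.u4
    have e1728 : δ 1728 = 0 := by
      have := δ.map_natCast 1728; simpa using this
    have e2 : δ (1 + m * x - 1728 * x) = 0 := by
      rw [map_sub, hδm, Derivation.leibniz, hδx, e1728]
      simp
    rw [e2, Derivation.leibniz, Derivation.leibniz_pow, hδm] at e1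
    simp only [smul_eq_mul, nsmul_eq_mul, mul_zero, zero_add] at e1
    push_cast at e1
    have e3 : (1 + m * x) * (4 * u ^ 3) * δ u = 0 := by linear_combination e1
    rcases mul_eq_zero.1 e3 with h | h
    · exact absurd h (mul_ne_zero hm (mul_ne_zero (by norm_num) (pow_ne_zero 3 hu)))
    · exact h
  -- `δ A`
  set κ := algebraMap ℂ F ((Real.pi * Complex.I / 6) ^ 2) with hκ
  have hA4 := h.A4
  rw [← hκ] at hA4
  have hκ0 : κ ≠ 0 := by
    intro h0
    rw [h0, zero_mul] at hA4
    exact hq hA4.symm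
  have hδA : δ A = om1 w z * A / 2 := by
    have e1 := congrArg δ hA4
    rw [Derivation.leibniz, Derivation.leibniz_pow, hκ, δ.map_algebraMap, ← hκ, hq'] at e1
    simp only [smul_eq_mul, nsmul_eq_mul] at e1
    push_cast at e1
    have e2 : κ * A ^ 3 * (4 * δ A) = κ * A ^ 3 * (2 * om1 w z * A) := by
      linear_combination e1 - 2 * om1 w z * hA4
    have e3 := mul_left_cancel₀ (mul_ne_zero hκ0 (pow_ne_zero 3 hA)) e2
    have e4 : (4 : F) ≠ 0 := by norm_num
    linear_combination e3 / 4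
  refine ⟨?_, ?_, ?_⟩
  · rw [Derivation.leibniz, hδu, hδA]
    simp only [smul_eq_mul, mul_zero, add_zero]
  · rw [Derivation.leibniz, hδu]
    simp only [smul_eq_mul, mul_zero, add_zero]
    congr 1
    have e0 := A1_eq hx h
    have e1 := congrArg δ e0
    have e12 : δ 12 = 0 := by
      have := δ.map_natCast 12; simpa using this
    simp only [Derivation.leibniz, map_sub, smul_eq_mul, e12, hp', hq', hr', hδA] at e1
    have e2 : (12 * r) * δ A₁ = (12 * r) * (om1 w z * A₁ / 2 + A * q * w 2 / (12 * r)) := by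
      have e3 : (12 * r) * (om1 w z * A₁ / 2 + A * q * w 2 / (12 * r)) =
          12 * r * (om1 w z * A₁ / 2) + A * q * w 2 := by
        field_simp
      rw [e3]
      linear_combination e1 - (7 / 2 * om1 w z) * e0
    exact mul_left_cancel₀ (mul_ne_zero (by norm_num) hr) e2
  · rw [Derivation.leibniz, hδu]
    simp only [smul_eq_mul, mul_zero, add_zero]
    congr 1
    rw [h.C1, Derivation.leibniz, map_sub, Derivation.leibniz, δ.map_algebraMap, hδl, hδA]
    simp only [smul_eq_mul, mul_zero, add_zero, sub_zero]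
    have e1 : δ z = - om0 w z := by linear_combination h3
    rw [e1]
    ring

end AINM

open AINM in
theorem specAIN : SpecAin := by
  intro F _ _ D x l n m z p q r A A₁ C u hx hD hw
  have hch : CharZero F := charZero_of_injective_algebraMap (algebraMap ℂ F).injective
  refine specDerAI F (Fin n × Fin 3) x _ (t_trans hx) fun c => ?_
  set τ := algebraMap ℂ F (2 * Real.pi * Complex.I) with hτ
  have hτ0 : τ ≠ 0 := by
    rw [hτ]
    exact (_root_.map_ne_zero _).2 Complex.two_pi_I_ne_zero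
  let a1 : Fin n → F := fun i => 2 * c (i, 0) / (u i * A i)
  let a2 : Fin n → F := fun i =>
    (c (i, 1) / u i - a1 i * A₁ i / 2) * (12 * r i) / (A i * q i)
  let a0 : Fin n → F := fun i => (a1 i * C i / 2 - c (i, 2) / u i) / (τ * A i)
  let w : Fin n → Fin 3 → F := fun i =>
    ![a0 i - (a1 i - 2 * a2 i * z i) * z i - a2 i * z i ^ 2, a1 i - 2 * a2 i * z i, a2 i]
  obtain ⟨δ, hδx, hδl, hδ⟩ := hw w
  refine ⟨δ, hδx, ?_⟩
  rintro ⟨i, k⟩
  obtain ⟨hx0, hm, hq, hr, hA, hu⟩ := basic hx (hD i)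
  obtain ⟨h1, h2, h3⟩ := vals hx (hD i) hδx hδl (hδ i)
  have e1 : om1 (w i) (z i) = a1 i := by
    simp [om1, w]
  have e0 : om0 (w i) (z i) = a0 i := by
    simp only [om0, w, Matrix.cons_val_zero, Matrix.cons_val_one, Matrix.cons_val]
    ring
  have e2 : w i 2 = a2 i := by
    simp [w]
  rw [e1] at h1 h2 h3
  rw [e2] at h2
  rw [e0, ← hτ] at h3
  fin_cases k
  · change δ (u i * A i) = c (i, 0)
    rw [h1]
    simp only [a1]
    field_simp
  · change δ (u i * A₁ i) = c (i, 1)
    rw [h2]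
    simp only [a2]
    field_simp
    ring
  · change δ (u i * C i) = c (i, 2)
    rw [h3]
    simp only [a0]
    field_simp
    ring

end Pool.Agent.Lib.MP_47914d_nt.BD
end

section
/-!
# Modular Schanuel in bounded degree, module DIC: the dichotomy
-/
set_option autoImplicit false

namespace Pool.Agent.Lib.MP_47914d_nt.BD

open Pool.Agent.Lib.MP_47914d_nt

namespace DICM

section

variable {F : Type} [Field F] [Algebra ℂ F]

/-- The space of all `(u, λ)`. -/
noncomputable def U1 (x l : F) {n : ℕ} (z p q r : Fin n → F) :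
    Submodule F (Option (Fin n × Fin 3) → F) where
  carrier := {u | ∃ δ : Derivation ℂ F F, δ x = 0 ∧ δ l = u none ∧
    ∀ i, IsW δ (z i) (p i) (q i) (r i) (fun k => u (some (i, k)))}
  add_mem' := by
    rintro u u' ⟨δ, h1, h2, h⟩ ⟨δ', h1', h2', h'⟩
    refine ⟨δ + δ', ?_, ?_, fun i => (h i).add (h' i)⟩
    · rw [Derivation.add_apply, h1, h1', add_zero]
    · rw [Derivation.add_apply, h2, h2', Pi.add_apply]
  zero_mem' := ⟨0, by simp, by simp, fun i => IsW.zero _ _ _ _⟩
  smul_mem' := by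
    rintro c u ⟨δ, h1, h2, h⟩
    refine ⟨c • δ, ?_, ?_, fun i => (h i).smul c⟩
    · rw [Derivation.smul_apply, h1, smul_zero]
    · rw [Derivation.smul_apply, h2, Pi.smul_apply]

theorem mem_U1 {x l : F} {n : ℕ} {z p q r : Fin n → F} {u : Option (Fin n × Fin 3) → F} :
    u ∈ U1 x l z p q r ↔ ∃ δ : Derivation ℂ F F, δ x = 0 ∧ δ l = u none ∧
      ∀ i, IsW δ (z i) (p i) (q i) (r i) (fun k => u (some (i, k))) := Iff.rfl

theorem U1_stable {x l : F} {n : ℕ} {z p q r : Fin n → F} {D : Derivation ℂ F F}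
    (hx : D x = 1) (hl : x * D l = 1) (hD : ∀ i, IsW D (z i) (p i) (q i) (r i) 0) :
    ∀ u ∈ U1 x l z p q r, (fun ik => D (u ik)) ∈ U1 x l z p q r := by
  rintro u ⟨δ, h1, h2, h⟩
  have hx0 : x ≠ 0 := fun h0 => by rw [h0, zero_mul] at hl; exact zero_ne_one hl
  have hDl : D l = x⁻¹ := eq_inv_of_mul_eq_one_right hl
  refine ⟨⁅D, δ⁆, ?_, ?_, fun i => ?_⟩
  · rw [Derivation.commutator_apply, h1, hx, map_zero, Derivation.map_one_eq_zero, sub_zero]
  · rw [Derivation.commutator_apply, h2, hDl, Derivation.leibniz_inv, h1, smul_zero, sub_zero]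
  · have := isW_lie (hD i) (h i)
    convert this using 2 with k
    have h3 : br (0 : Fin 3 → F) (fun k => u (some (i, k))) k = 0 := by
      fin_cases k <;> simp [br]
    rw [h3]
    simp

/-- The vectors reached by derivations which kill `x` and `l`. -/
noncomputable def N0 (x l : F) {n : ℕ} (z p q r : Fin n → F) :
    Submodule F (Fin n → Fin 3 → F) where
  carrier := {w | ∃ δ : Derivation ℂ F F, δ x = 0 ∧ δ l = 0 ∧
    ∀ i, IsW δ (z i) (p i) (q i) (r i) (w i)}
  add_mem' := by
    rintro u u' ⟨δ, h1, h2, h⟩ ⟨δ', h1', h2', h'⟩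
    refine ⟨δ + δ', ?_, ?_, fun i => (h i).add (h' i)⟩
    · rw [Derivation.add_apply, h1, h1', add_zero]
    · rw [Derivation.add_apply, h2, h2', add_zero]
  zero_mem' := ⟨0, by simp, by simp, fun i => IsW.zero _ _ _ _⟩
  smul_mem' := by
    rintro c u ⟨δ, h1, h2, h⟩
    refine ⟨c • δ, ?_, ?_, fun i => (h i).smul c⟩
    · rw [Derivation.smul_apply, h1, smul_zero]
    · rw [Derivation.smul_apply, h2, smul_zero]

/-- constant vectors are in the projection of the constant vectors of `U1` -/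
theorem surj_const {x l : F} {n : ℕ} {z p q r : Fin n → F} {D : Derivation ℂ F F}
    (hker : ∀ f, D f = 0 → ∃ c : ℂ, f = algebraMap ℂ F c) (hx : D x = 1) (hl : x * D l = 1)
    (hD : ∀ i, IsW D (z i) (p i) (q i) (r i) 0) (hUtop : ∀ u, u ∈ Uspace z p q r)
    (v : Fin n × Fin 3 → ℂ) : ∃ c : Option (Fin n × Fin 3) → ℂ,
      (fun o => algebraMap ℂ F (c o)) ∈ U1 x l z p q r ∧ ∀ ik, c (some ik) = v ik := by
  classical
  have hS := specStab F D hker (Option (Fin n × Fin 3)) (U1 x l z p q r) (U1_stable hx hl hD)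
  let H : Submodule ℂ (Option (Fin n × Fin 3) → ℂ) :=
    { carrier := {c | (fun o => algebraMap ℂ F (c o)) ∈ U1 x l z p q r}
      add_mem' := by
        intro a b ha hb
        rw [Set.mem_ofPred_eq] at ha hb ⊢
        have := (U1 x l z p q r).add_mem ha hb
        convert this using 1
        funext o
        simp
      zero_mem' := by
        rw [Set.mem_ofPred_eq]
        have := (U1 x l z p q r).zero_mem
        convert this using 1
        funext o
        simp
      smul_mem' := by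
        intro c a ha
        rw [Set.mem_ofPred_eq] at ha ⊢
        have := (U1 x l z p q r).smul_mem (algebraMap ℂ F c) ha
        convert this using 1
        funext o
        simp }
  let pr : (Option (Fin n × Fin 3) → ℂ) →ₗ[ℂ] (Fin n × Fin 3 → ℂ) :=
    LinearMap.funLeft ℂ ℂ some
  by_contra hcon
  have hv : v ∉ H.map pr := by
    rintro ⟨c, hc, hcv⟩
    exact hcon ⟨c, hc, fun ik => congrFun hcv ik⟩
  obtain ⟨f, hf1, hf2⟩ := Submodule.exists_le_ker_of_notMem hv
  set a : Fin n × Fin 3 → ℂ := fun k => f (Pi.single k 1) with ha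
  have hfa : ∀ w : Fin n × Fin 3 → ℂ, f w = ∑ k, a k * w k := by
    intro w
    rw [LinearMap.pi_apply_eq_sum_univ f w]
    refine Finset.sum_congr rfl fun k _ => ?_
    rw [smul_eq_mul, mul_comm, ha]
    congr 2
    funext j
    simp [Pi.single_apply, eq_comm]
  have hall : ∀ u ∈ U1 x l z p q r, ∑ k, algebraMap ℂ F (a k) * u (some k) = 0 := by
    intro u hu
    rw [hS] at hu
    induction hu using Submodule.span_induction with
    | mem u hu =>
      obtain ⟨hu1, c, rfl⟩ := hu
      have h1 : f (pr c) = 0 := hf2 ⟨c, hu1, rfl⟩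
      rw [hfa] at h1
      have h2 := congrArg (algebraMap ℂ F) h1
      rw [map_sum, map_zero] at h2
      rw [← h2]
      exact Finset.sum_congr rfl fun k _ => (map_mul _ _ _).symm
    | zero => simp
    | add u u' _ _ h1 h2 =>
      simp only [Pi.add_apply, mul_add, Finset.sum_add_distrib, h1, h2, add_zero]
    | smul c u _ h1 =>
      simp only [Pi.smul_apply, smul_eq_mul]
      have : ∀ k, algebraMap ℂ F (a k) * (c * u (some k)) =
          c * (algebraMap ℂ F (a k) * u (some k)) := by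
        intro k; ring
      simp only [this, ← Finset.mul_sum, h1, mul_zero]
  obtain ⟨δ, hδ⟩ := hUtop (fun ik => algebraMap ℂ F (v ik))
  obtain ⟨δ', h1, h2⟩ := adjust hx hD hδ
  have h3 := hall (fun o => o.elim (δ' l) fun ik => algebraMap ℂ F (v ik)) ⟨δ', h1, rfl, h2⟩
  have h4 : algebraMap ℂ F (f v) = 0 := by
    rw [hfa, map_sum, ← h3]
    exact Finset.sum_congr rfl fun k _ => map_mul _ _ _
  rw [map_eq_zero] at h4
  exact hf1 h4

theorem br_mem {x l : F} {n : ℕ} {z p q r : Fin n → F} {D : Derivation ℂ F F}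
    (hker : ∀ f, D f = 0 → ∃ c : ℂ, f = algebraMap ℂ F c) (hx : D x = 1) (hl : x * D l = 1)
    (hD : ∀ i, IsW D (z i) (p i) (q i) (r i) 0) (hUtop : ∀ u, u ∈ Uspace z p q r)
    (u v : Fin n → Fin 3 → ℂ) :
    (fun i k => algebraMap ℂ F (br (u i) (v i) k)) ∈ N0 x l z p q r := by
  obtain ⟨c, ⟨δ, h1, h2, h3⟩, h4⟩ := surj_const hker hx hl hD hUtop (fun ik => u ik.1 ik.2)
  obtain ⟨c', ⟨δ', h1', h2', h3'⟩, h4'⟩ := surj_const hker hx hl hD hUtop (fun ik => v ik.1 ik.2)
  refine ⟨-⁅δ, δ'⁆, ?_, ?_, fun i => ?_⟩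
  · rw [Derivation.neg_apply, Derivation.commutator_apply, h1, h1']
    simp
  · rw [Derivation.neg_apply, Derivation.commutator_apply, h2, h2']
    simp
  · have h5 := (isW_lie (h3 i) (h3' i)).smul (-1 : F)
    have e : (-1 : F) • ⁅δ, δ'⁆ = -⁅δ, δ'⁆ := by
      simp
    rw [e] at h5
    convert h5 using 1
    funext k
    simp only [Pi.smul_apply, smul_eq_mul, Derivation.map_algebraMap, h4, h4']
    have e2 : algebraMap ℂ F 2 = 2 := map_ofNat _ 2
    fin_cases k <;> simp [br, e2]

theorem N0_top {x l : F} {n : ℕ} {z p q r : Fin n → F} {D : Derivation ℂ F F}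
    (hker : ∀ f, D f = 0 → ∃ c : ℂ, f = algebraMap ℂ F c) (hx : D x = 1) (hl : x * D l = 1)
    (hD : ∀ i, IsW D (z i) (p i) (q i) (r i) 0) (hUtop : ∀ u, u ∈ Uspace z p q r)
    (w : Fin n → Fin 3 → F) : w ∈ N0 x l z p q r := by
  classical
  have h2 : (2 : F) ≠ 0 := by
    have : CharZero F := charZero_of_injective_algebraMap (algebraMap ℂ F).injective
    norm_num
  have key : ∀ (i : Fin n) (a b : Fin 3 → ℂ),
      (fun j k => if j = i then algebraMap ℂ F (br a b k) else 0) ∈ N0 x l z p q r := by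
    intro i a b
    have := br_mem hker hx hl hD hUtop (fun j => if j = i then a else 0)
      (fun j => if j = i then b else 0)
    convert this using 1
    funext j k
    by_cases hj : j = i
    · simp [hj]
    · fin_cases k <;> simp [hj, br]
  have hsingle : ∀ (i : Fin n) (k : Fin 3),
      (fun j k' => if j = i ∧ k' = k then (1 : F) else 0) ∈ N0 x l z p q r := by
    intro i k
    fin_cases k
    · have := key i ![1, 0, 0] ![0, 1, 0]
      convert this using 1
      funext j k'
      rw [br01]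
      by_cases hj : j = i
      · fin_cases k' <;> simp [hj]
      · simp [hj]
    · have := (N0 x l z p q r).smul_mem (2 : F)⁻¹ (key i ![1, 0, 0] ![0, 0, 1])
      convert this using 1
      funext j k'
      rw [br02]
      have e2 : algebraMap ℂ F 2 = 2 := map_ofNat _ 2
      by_cases hj : j = i
      · fin_cases k' <;> simp [hj, e2, h2]
      · simp [hj]
    · have := key i ![0, 1, 0] ![0, 0, 1]
      convert this using 1
      funext j k'
      rw [br12]
      by_cases hj : j = i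
      · fin_cases k' <;> simp [hj]
      · simp [hj]
  have hw : w = ∑ i, ∑ k, w i k • (fun j k' => if j = i ∧ k' = k then (1 : F) else 0) := by
    funext j k'
    simp only [Finset.sum_apply, Pi.smul_apply, smul_eq_mul, mul_ite, mul_one, mul_zero]
    rw [Finset.sum_eq_single j, Finset.sum_eq_single k']
    · simp
    · intro b _ hb
      rw [if_neg fun h => hb h.2.symm]
    · intro h
      exact absurd (Finset.mem_univ _) h
    · intro b _ hb
      exact Finset.sum_eq_zero fun k _ => if_neg fun h => hb h.1.symm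
    · intro h
      exact absurd (Finset.mem_univ _) h
  rw [hw]
  exact Submodule.sum_mem _ fun i _ => Submodule.sum_mem _ fun k _ =>
    Submodule.smul_mem _ _ (hsingle i k)

end

end DICM

open DICM

/-- DIC -/
theorem specDic : SpecDic := by
  classical
  intro F _ _ D x l n z p q r hker hx hl hD hAI
  have hU := specStab F D hker (Fin n × Fin 3) (Uspace z p q r) (Uspace_stable hD)
  rcases specGour (Fin n) (Hspace z p q r) Hspace_br (single_surj specExt hAI hU) with htop | hlink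
  · left
    have hUtop : ∀ u : Fin n × Fin 3 → F, u ∈ Uspace z p q r := by
      intro u
      have hcst : ∀ ik : Fin n × Fin 3, Pi.single ik (1 : F) ∈ Uspace z p q r := by
        intro ik
        have h1 : (fun j l => if (j, l) = ik then (1 : ℂ) else 0) ∈ Hspace z p q r := by
          rw [htop]; trivial
        have h2 : (fun jl : Fin n × Fin 3 => algebraMap ℂ F (if (jl.1, jl.2) = ik then 1 else 0)) ∈
          Uspace z p q r := h1
        convert h2 using 1
        funext jl
        by_cases h : jl = ik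
        · subst h; simp
        · simp [h]
      have : u = ∑ ik, u ik • Pi.single ik (1 : F) := by
        funext jl
        simp [Finset.sum_apply, Pi.single_apply]
      rw [this]
      exact Submodule.sum_mem _ fun ik _ => Submodule.smul_mem _ _ (hcst ik)
    intro w
    exact N0_top hker hx hl hD hUtop w
  · right
    obtain ⟨i, k, hik, φ, hφ, hφu⟩ := hlink
    refine ⟨i, k, hik, φ, hφ, ?_⟩
    intro u hu
    rw [hU] at hu
    induction hu using Submodule.span_induction with
    | mem u hu =>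
      obtain ⟨hu1, c, rfl⟩ := hu
      intro l
      have hc : (fun j k => c (j, k)) ∈ Hspace z p q r := hu1
      have h1 := hφu _ hc
      have h2 := congrFun h1 l
      have h3 : (fun m => c (i, m)) = ∑ m, c (i, m) • Pi.single m (1 : ℂ) := by
        funext j
        simp [Finset.sum_apply, Pi.single_apply]
      rw [h3] at h2
      rw [map_sum] at h2
      simp only [map_smul, Finset.sum_apply, Pi.smul_apply, smul_eq_mul] at h2
      show algebraMap ℂ F _ = _
      rw [h2, map_sum]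
      refine Finset.sum_congr rfl fun m _ => ?_
      rw [map_mul, mul_comm]
    | zero => intro l; simp
    | add u u' _ _ h1 h2 =>
      intro l
      simp only [Pi.add_apply, h1 l, h2 l, mul_add, Finset.sum_add_distrib]
    | smul c u _ h1 =>
      intro l
      simp only [Pi.smul_apply, smul_eq_mul, h1 l, Finset.mul_sum]
      refine Finset.sum_congr rfl fun m _ => ?_
      ring

end Pool.Agent.Lib.MP_47914d_nt.BD
end

section
/-!
# Module TRJ: the derivatives of `j` under `SL₂(ℤ)`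
-/
set_option autoImplicit false

namespace Pool.Agent.Lib.MP_47914d_nt.BD

open Filter Topology

namespace TRJM

/-- the upper half plane is a neighbourhood of its points -/
theorem uhp_nhds {z : ℂ} (hz : 0 < z.im) : ∀ᶠ w in 𝓝 z, 0 < w.im :=
  (isOpen_lt continuous_const Complex.continuous_im).mem_nhds hz

theorem hasDerivAt_J (hJ : SpecJ) {z : ℂ} (hz : 0 < z.im) : HasDerivAt Jc (deriv Jc z) z :=
  (hJ.holo.differentiableAt
    ((isOpen_lt continuous_const Complex.continuous_im).mem_nhds hz)).hasDerivAt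

theorem hasDerivAt_J1 (hJ : SpecJ) {z : ℂ} (hz : 0 < z.im) :
    HasDerivAt (deriv Jc) (deriv (deriv Jc) z) z := by
  have hopen : IsOpen {w : ℂ | 0 < w.im} := isOpen_lt continuous_const Complex.continuous_im
  exact ((hJ.holo.deriv hopen).differentiableAt (hopen.mem_nhds hz)).hasDerivAt

/-- `c w + d ≠ 0` in the upper half plane -/
theorem den_ne {a b c d : ℤ} (h : a * d - b * c = 1) {w : ℂ} (hw : 0 < w.im) :
    (c : ℂ) * w + d ≠ 0 := by
  intro h0
  have h1 := congrArg Complex.im h0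
  have h2 := congrArg Complex.re h0
  simp only [Complex.add_im, Complex.mul_im, Complex.intCast_re, Complex.intCast_im, zero_mul,
    add_zero, Complex.zero_im, Complex.add_re, Complex.mul_re, sub_zero, Complex.zero_re] at h1 h2
  have h3 : (c : ℝ) = 0 := by
    rcases mul_eq_zero.1 h1 with h | h
    · exact h
    · exact absurd h hw.ne'
  rw [h3, zero_mul, zero_add] at h2
  have h4 : c = 0 := by exact_mod_cast h3
  have h5 : d = 0 := by exact_mod_cast h2
  rw [h4, h5, mul_zero, mul_zero, sub_zero] at h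
  exact absurd h (by norm_num)

/-- invariance of `j` -/
theorem Jc_smul (hJ : SpecJ) {a b c d : ℤ} (h : a * d - b * c = 1) {w : ℂ} (hw : 0 < w.im) :
    0 < (((a : ℂ) * w + b) / ((c : ℂ) * w + d)).im ∧
      Jc (((a : ℂ) * w + b) / ((c : ℂ) * w + d)) = Jc w := by
  let τ : UpperHalfPlane := ⟨w, hw⟩
  let γ : Matrix.SpecialLinearGroup (Fin 2) ℤ := ⟨!![a, b; c, d], by
    rw [Matrix.det_fin_two_of]
    exact h⟩
  have hsm : ((γ • τ : UpperHalfPlane) : ℂ) = ((a : ℂ) * w + b) / ((c : ℂ) * w + d) := by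
    rw [UpperHalfPlane.coe_specialLinearGroup_apply]
    have e00 : (γ 0 0 : ℤ) = a := rfl
    have e01 : (γ 0 1 : ℤ) = b := rfl
    have e10 : (γ 1 0 : ℤ) = c := rfl
    have e11 : (γ 1 1 : ℤ) = d := rfl
    rw [e00, e01, e10, e11]
    simp only [algebraMap_int_eq, eq_intCast, Complex.ofReal_intCast]
    rfl
  have h3 := hJ.smul γ τ
  have hc : ∀ t : UpperHalfPlane, Jc (t : ℂ) = J t := fun t => by
    rw [Jc, dif_pos (show 0 < (t : ℂ).im from t.im_pos)]
  refine ⟨?_, ?_⟩
  · rw [← hsm]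
    exact (γ • τ).im_pos
  · rw [← hsm, hc, h3, ← hc]

/-- the derivative of the Möbius transformation -/
theorem hasDerivAt_mob {a b c d : ℤ} (h : a * d - b * c = 1) {w : ℂ} (hw : 0 < w.im) :
    HasDerivAt (fun w : ℂ => ((a : ℂ) * w + b) / ((c : ℂ) * w + d))
      (1 / ((c : ℂ) * w + d) ^ 2) w := by
  have hd := den_ne h hw
  have hC : (a : ℂ) * d - b * c = 1 := by exact_mod_cast h
  have h1 : HasDerivAt (fun w : ℂ => (a : ℂ) * w + b) (a : ℂ) w := by
    simpa using ((hasDerivAt_id w).const_mul (a : ℂ)).add_const (b : ℂ)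
  have h2 : HasDerivAt (fun w : ℂ => (c : ℂ) * w + d) (c : ℂ) w := by
    simpa using ((hasDerivAt_id w).const_mul (c : ℂ)).add_const (d : ℂ)
  refine (h1.div h2 hd).congr_deriv ?_
  congr 1
  linear_combination hC

theorem cancel {x : ℂ} (A : ℂ) (hx : x ≠ 0) : x ^ 2 * (A * (1 / x ^ 2)) = A := by
  field_simp

/-- first derivative -/
theorem first (hJ : SpecJ) {a b c d : ℤ} (h : a * d - b * c = 1) {w : ℂ} (hw : 0 < w.im) :
    deriv Jc (((a : ℂ) * w + b) / ((c : ℂ) * w + d)) = ((c : ℂ) * w + d) ^ 2 * deriv Jc w := by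
  obtain ⟨h1, -⟩ := Jc_smul hJ h hw
  have h2 := (hasDerivAt_J hJ h1).comp w (hasDerivAt_mob h hw)
  have h3 : (fun w : ℂ => Jc (((a : ℂ) * w + b) / ((c : ℂ) * w + d))) =ᶠ[𝓝 w] Jc := by
    filter_upwards [uhp_nhds hw] with v hv
    exact (Jc_smul hJ h hv).2
  have h4 := (hasDerivAt_J hJ hw).congr_of_eventuallyEq h3
  have h5 := h2.unique h4
  rw [← h5, cancel _ (den_ne h hw)]

/-- second derivative -/
theorem second (hJ : SpecJ) {a b c d : ℤ} (h : a * d - b * c = 1) {w : ℂ} (hw : 0 < w.im) :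
    deriv (deriv Jc) (((a : ℂ) * w + b) / ((c : ℂ) * w + d)) =
      ((c : ℂ) * w + d) ^ 4 * deriv (deriv Jc) w +
        2 * c * ((c : ℂ) * w + d) ^ 3 * deriv Jc w := by
  obtain ⟨h1, -⟩ := Jc_smul hJ h hw
  have h2 := (hasDerivAt_J1 hJ h1).comp w (hasDerivAt_mob h hw)
  have h3 : (fun w : ℂ => deriv Jc (((a : ℂ) * w + b) / ((c : ℂ) * w + d))) =ᶠ[𝓝 w]
      fun w => ((c : ℂ) * w + d) ^ 2 * deriv Jc w := by
    filter_upwards [uhp_nhds hw] with v hv
    exact first hJ h hv
  have h6 : HasDerivAt (fun w : ℂ => (c : ℂ) * w + d) (c : ℂ) w := by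
    simpa using ((hasDerivAt_id w).const_mul (c : ℂ)).add_const (d : ℂ)
  have h4 := ((h6.pow 2).mul (hasDerivAt_J1 hJ hw)).congr_of_eventuallyEq h3
  have h5 := h2.unique h4
  have h7 := cancel (deriv (deriv Jc) (((a : ℂ) * w + b) / ((c : ℂ) * w + d))) (den_ne h hw)
  rw [← h7, h5]
  simp only [Nat.cast_ofNat, Pi.pow_apply, Nat.add_one_sub_one, pow_one]
  ring

end TRJM

open TRJM in
theorem specTRJ (hJ : SpecJ) : SpecTrj := by
  intro a b c d z z' h hz hz' hr
  have hd := den_ne h hz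
  have he : z' = ((a : ℂ) * z + b) / ((c : ℂ) * z + d) := by
    rw [eq_div_iff hd, mul_comm]
    exact hr
  rw [he]
  exact ⟨first hJ h hz, second hJ h hz⟩

end Pool.Agent.Lib.MP_47914d_nt.BD
end

section
/-!
# Module DJ: the derivatives of `j` at `zx x`
-/
set_option autoImplicit false

namespace Pool.Agent.Lib.MP_47914d_nt.BD

open Filter Topology
open Pool.Agent.Lib.MPf11a48.GF (pval)

namespace DJM

/-- the branch of `zx` which is analytic near `x` -/
noncomputable def zt (x y : ℂ) : ℂ :=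
  (Complex.log x + Complex.log (y / x) + pval Gs y / pval Fs y) / (2 * Real.pi * Complex.I)

theorem zt_self {x : ℂ} (hx : x ≠ 0) : zt x x = zx x := by
  rw [zt, zx, div_self hx, Complex.log_one, add_zero]

/-- `zt` is `zx` up to an integer -/
theorem zt_int {x y : ℂ} (hx : x ≠ 0) (hy : y ≠ 0) : ∃ k : ℤ, zt x y = zx y + k := by
  have hπ : (2 * Real.pi * Complex.I : ℂ) ≠ 0 := Complex.two_pi_I_ne_zero
  have hexp : Complex.exp (Complex.log x + Complex.log (y / x)) =
      Complex.exp (Complex.log y) := by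
    rw [Complex.exp_add, Complex.exp_log hx, Complex.exp_log (div_ne_zero hy hx),
      Complex.exp_log hy, mul_div_cancel₀ _ hx]
  obtain ⟨k, hk⟩ := Complex.exp_eq_exp_iff_exists_int.1 hexp
  refine ⟨k, ?_⟩
  rw [zt, zx, hk]
  field_simp
  ring

theorem val (hJ : SpecJ) {ρ : ℝ} (hL : ∀ x : ℂ, x ≠ 0 → ‖x‖ < ρ → 0 < (zx x).im ∧
    Jc (zx x) = 1 / x ∧ Qc (zx x) = (Real.pi * Complex.I / 6) ^ 2 * pval Fs x ^ 4)
    {x y : ℂ} (hx : x ≠ 0) (hy : y ≠ 0) (h : ‖y‖ < ρ) :
    0 < (zt x y).im ∧ Jc (zt x y) = 1 / y := by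
  obtain ⟨k, hk⟩ := zt_int hx hy
  obtain ⟨h1, h2, -⟩ := hL y hy h
  rw [hk]
  refine ⟨?_, ?_⟩
  · have : (zx y + (k : ℂ)).im = (zx y).im := by simp
    rw [this]
    exact h1
  · rw [CMB.Jc_add_int hJ h1 k, h2]

theorem deriv_zt {ρ : ℝ} (hN : Num ρ) {x y : ℂ} (hx : x ≠ 0) (hy : y ≠ 0) (h : ‖y‖ < ρ)
    (hs : y / x ∈ Complex.slitPlane) :
    HasDerivAt (zt x) (1 / (2 * Real.pi * Complex.I * y * (pval us y * pval Fs y) ^ 2)) y := by
  have hπ : (2 * Real.pi * Complex.I : ℂ) ≠ 0 := Complex.two_pi_I_ne_zero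
  obtain ⟨f, hf, hf1⟩ := hN.F0 y h
  obtain ⟨g, hg, hg1⟩ := hN.G0 y h
  obtain ⟨hF, hu⟩ := hN.nz y h
  have hw := hN.wr y h
  rw [← hf1, ← hg1] at hw
  have h1 : HasDerivAt (fun y : ℂ => y / x) (1 / x) y := (hasDerivAt_id y).div_const x
  have h2 : HasDerivAt (fun y : ℂ => Complex.log (y / x)) ((1 / x) / (y / x)) y := h1.clog hs
  have h3 := ((h2.const_add (Complex.log x)).add (hg.div hf hF)).div_const
    (2 * Real.pi * Complex.I)
  refine h3.congr_deriv ?_
  set F := pval Fs y
  set G := pval Gs y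
  set u := pval us y
  set κ : ℂ := 2 * Real.pi * Complex.I
  have e1 : (1 / x) / (y / x) = 1 / y := by field_simp
  rw [e1, div_eq_div_iff hπ (by positivity)]
  have e2 : (1 / y + (g * F - G * f) / F ^ 2) * (κ * y * (u * F) ^ 2) =
      κ * (u ^ 2 * (F * (y * g + F) - G * (y * f))) := by
    field_simp
    ring
  rw [e2, hw]
  ring

/-- near `x` -/
theorem near {ρ : ℝ} {x : ℂ} (hx : x ≠ 0) (h : ‖x‖ < ρ) :
    ∀ᶠ y in 𝓝 x, y ≠ 0 ∧ ‖y‖ < ρ ∧ y / x ∈ Complex.slitPlane := by
  have h1 : ∀ᶠ y in 𝓝 x, y ≠ 0 := isOpen_ne.mem_nhds hx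
  have h2 : ∀ᶠ y in 𝓝 x, ‖y‖ < ρ := (isOpen_lt continuous_norm continuous_const).mem_nhds h
  have h3 : ∀ᶠ y in 𝓝 x, y / x ∈ Complex.slitPlane := by
    have hc : ContinuousAt (fun y : ℂ => y / x) x := continuousAt_id.div_const x
    refine hc.preimage_mem_nhds (Complex.isOpen_slitPlane.mem_nhds ?_)
    rw [div_self hx]
    exact Complex.one_mem_slitPlane
  filter_upwards [h1, h2, h3] with y a b c
  exact ⟨a, b, c⟩

theorem first (hJ : SpecJ) {ρ : ℝ} (hN : Num ρ) (hL : ∀ x : ℂ, x ≠ 0 → ‖x‖ < ρ → 0 < (zx x).im ∧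
    Jc (zx x) = 1 / x ∧ Qc (zx x) = (Real.pi * Complex.I / 6) ^ 2 * pval Fs x ^ 4)
    {x y : ℂ} (hx : x ≠ 0) (hy : y ≠ 0) (h : ‖y‖ < ρ) (hs : y / x ∈ Complex.slitPlane) :
    deriv Jc (zt x y) = -(2 * Real.pi * Complex.I) * (pval us y * pval Fs y) ^ 2 / y := by
  have hπ : (2 * Real.pi * Complex.I : ℂ) ≠ 0 := Complex.two_pi_I_ne_zero
  obtain ⟨hF, hu⟩ := hN.nz y h
  have h1 := (TRJM.hasDerivAt_J hJ (val hJ hL hx hy h).1).comp y (deriv_zt hN hx hy h hs)
  have h2 : (Jc ∘ zt x) =ᶠ[𝓝 y] fun y => y⁻¹ := by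
    filter_upwards [near (x := y) hy h] with v hv
    rw [Function.comp_apply, (val hJ hL hx hv.1 hv.2.1).2, one_div]
  have h3 := (hasDerivAt_inv hy).congr_of_eventuallyEq h2
  have h4 := h1.unique h3
  set F := pval Fs y
  set u := pval us y
  set κ : ℂ := 2 * Real.pi * Complex.I
  set A := deriv Jc (zt x y)
  have h5 : A = A * (1 / (κ * y * (u * F) ^ 2)) * (κ * y * (u * F) ^ 2) := by
    field_simp
  rw [h5, h4]
  field_simp

theorem second (hJ : SpecJ) {ρ : ℝ} (hN : Num ρ)
    (hL : ∀ x : ℂ, x ≠ 0 → ‖x‖ < ρ → 0 < (zx x).im ∧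
    Jc (zx x) = 1 / x ∧ Qc (zx x) = (Real.pi * Complex.I / 6) ^ 2 * pval Fs x ^ 4)
    {x : ℂ} (hx : x ≠ 0) (h : ‖x‖ < ρ) :
    deriv (deriv Jc) (zx x) = (2 * Real.pi * Complex.I) ^ 2 / x *
      ((1 + 864 * x / (1 - 1728 * x)) * (pval us x * pval Fs x) ^ 4 -
        2 * (pval us x * pval Fs x) ^ 3 * (pval us x * pval (th Fs) x)) := by
  have hπ : (2 * Real.pi * Complex.I : ℂ) ≠ 0 := Complex.two_pi_I_ne_zero
  obtain ⟨hF, hu⟩ := hN.nz x h
  have hs : x / x ∈ Complex.slitPlane := by
    rw [div_self hx]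
    exact Complex.one_mem_slitPlane
  have hz := zt_self hx
  have him := (val hJ hL hx hx h).1
  have h1 := (TRJM.hasDerivAt_J1 hJ him).comp x (deriv_zt hN hx hx h hs)
  have h2 : (deriv Jc ∘ zt x) =ᶠ[𝓝 x]
      fun y => -(2 * Real.pi * Complex.I) * (pval us y * pval Fs y) ^ 2 / y := by
    filter_upwards [near hx h] with y hy
    exact first hJ hN hL hx hy.1 hy.2.1 hy.2.2
  obtain ⟨f, hf, hf1⟩ := hN.F0 x h
  obtain ⟨v, hv, hv1⟩ := hN.U0 x h
  have h1728 : (1 - 1728 * x : ℂ) ≠ 0 := by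
    rw [← hN.u4 x h]
    exact pow_ne_zero 4 hu
  have h3 := ((((hv.mul hf).pow 2).const_mul (-(2 * Real.pi * Complex.I : ℂ))).div
    (hasDerivAt_id x) hx).congr_of_eventuallyEq h2
  have h4 := h1.unique h3
  rw [hz] at h4
  rw [← hf1]
  simp only [Pi.pow_apply, Pi.mul_apply, id, Nat.cast_ofNat, Nat.add_one_sub_one, pow_one] at h4
  set F := pval Fs x
  set u := pval us x
  set κ : ℂ := 2 * Real.pi * Complex.I
  set A := deriv (deriv Jc) (zx x)
  have h5 : A = A * (1 / (κ * x * (u * F) ^ 2)) * (κ * x * (u * F) ^ 2) := by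
    field_simp
  have hv2 : v = -(432 * u) / (1 - 1728 * x) := by
    rw [eq_div_iff h1728]
    have : x * (v * (1 - 1728 * x)) = x * (-(432 * u)) := by
      linear_combination hv1
    exact mul_left_cancel₀ hx this
  rw [h5, h4, hv2]
  field_simp
  ring

end DJM

open DJM in
theorem specDJ (hJ : SpecJ) (hNum : SpecNum) (hLnk : SpecLnk) : SpecDj := by
  obtain ⟨ρ₁, hN⟩ := hNum
  obtain ⟨ρ₂, hρ₂, hL⟩ := hLnk
  have hN' : Num (min ρ₁ ρ₂) := by
    have hlt : ∀ {x : ℂ}, ‖x‖ < min ρ₁ ρ₂ → ‖x‖ < ρ₁ := fun h => h.trans_le (min_le_left _ _)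
    exact
      { pos := lt_min hN.pos hρ₂
        le := (mul_le_mul_of_nonneg_left (min_le_left _ _) (by norm_num)).trans hN.le
        sm := fun x h => hN.sm x (hlt h)
        F0 := fun x h => hN.F0 x (hlt h)
        F1 := fun x h => hN.F1 x (hlt h)
        G0 := fun x h => hN.G0 x (hlt h)
        G1 := fun x h => hN.G1 x (hlt h)
        U0 := fun x h => hN.U0 x (hlt h)
        u4 := fun x h => hN.u4 x (hlt h)
        wr := fun x h => hN.wr x (hlt h)
        nz := fun x h => hN.nz x (hlt h)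
        zero := hN.zero }
  have hL' : ∀ x : ℂ, x ≠ 0 → ‖x‖ < min ρ₁ ρ₂ → 0 < (zx x).im ∧
      Jc (zx x) = 1 / x ∧ Qc (zx x) = (Real.pi * Complex.I / 6) ^ 2 * pval Fs x ^ 4 :=
    fun x hx h => hL x hx (h.trans_le (min_le_right _ _))
  refine ⟨min ρ₁ ρ₂, hN'.pos, fun x hx h => ⟨?_, second hJ hN' hL' hx h⟩⟩
  have hs : x / x ∈ Complex.slitPlane := by
    rw [div_self hx]
    exact Complex.one_mem_slitPlane
  have h1 := first hJ hN' hL' hx hx h hs
  rwa [zt_self hx] at h1

end Pool.Agent.Lib.MP_47914d_nt.BD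
end

section
/-!
# FAC: `n! ∣ 12^n ∏_{k<n} (12 k + a)`
-/
set_option autoImplicit false

namespace Pool.Agent.Lib.MP_47914d_nt.BD

namespace FACM

theorem le_of_pow_dvd {p : ℕ} [hp : Fact p.Prime] {i n : ℕ} (h : p ^ i ∣ n.factorial) : i ≤ n := by
  have h1 : i ≤ padicValNat p n.factorial :=
    (padicValNat_dvd_iff_le (Nat.factorial_ne_zero n)).1 h
  have h2 := sub_one_mul_padicValNat_factorial (p := p) n
  have h3 : 1 ≤ p - 1 := by
    have := hp.out.two_le
    omega
  have h4 : padicValNat p n.factorial ≤ (p - 1) * padicValNat p n.factorial :=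
    Nat.le_mul_of_pos_left _ h3
  omega

theorem decomp (n : ℕ) : ∃ s Q : ℕ, n.factorial = s * Q ∧ s ∣ 12 ^ n ∧ Nat.Coprime 12 Q := by
  obtain ⟨i, n₁, h1, h2⟩ := Nat.exists_eq_pow_mul_and_not_dvd (Nat.factorial_ne_zero n) 2 (by norm_num)
  have hn₁ : n₁ ≠ 0 := by
    rintro rfl
    exact h1 (dvd_zero _)
  obtain ⟨j, Q, h3, h4⟩ := Nat.exists_eq_pow_mul_and_not_dvd hn₁ 3 (by norm_num)
  have : Fact (Nat.Prime 2) := ⟨Nat.prime_two⟩
  have : Fact (Nat.Prime 3) := ⟨Nat.prime_three⟩
  have hi : i ≤ n := le_of_pow_dvd (p := 2) (h2 ▸ Dvd.intro _ rfl)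
  have hj : j ≤ n := by
    refine le_of_pow_dvd (p := 3) ?_
    rw [h2, h4]
    exact Dvd.intro_left (2 ^ i * Q) (by ring)
  refine ⟨2 ^ i * 3 ^ j, Q, by rw [h2, h4]; ring, ?_, ?_⟩
  · have e : 12 ^ n = 2 ^ n * 3 ^ n * 2 ^ n := by
      rw [← mul_pow, ← mul_pow]
      norm_num
    rw [e]
    exact Dvd.dvd.mul_right (mul_dvd_mul (pow_dvd_pow 2 hi) (pow_dvd_pow 3 hj)) _
  · have h5 : Nat.Coprime 2 Q := by
      rw [Nat.Prime.coprime_iff_not_dvd Nat.prime_two]
      intro h
      exact h1 (h4 ▸ Dvd.dvd.mul_left h _)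
    have h6 : Nat.Coprime 3 Q := (Nat.Prime.coprime_iff_not_dvd Nat.prime_three).2 h3
    have e : 12 = 2 * (2 * 3) := by norm_num
    rw [e]
    exact Nat.Coprime.mul_left h5 (Nat.Coprime.mul_left h5 h6)

theorem dvd_prod {n Q : ℕ} (hQ : Q ∣ n.factorial) (hc : Nat.Coprime 12 Q) (a : ℤ) :
    (Q : ℤ) ∣ ∏ k ∈ Finset.range n, (12 * (k : ℤ) + a) := by
  have hQ0 : Q ≠ 0 := by
    rintro rfl
    exact Nat.factorial_ne_zero n (Nat.eq_zero_of_zero_dvd hQ)
  have : NeZero Q := ⟨hQ0⟩
  rw [← ZMod.intCast_zmod_eq_zero_iff_dvd, Int.cast_prod]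
  set M : ℕ := ((12 : ZMod Q)⁻¹ * (a : ZMod Q)).val with hM
  have h12 : (12 : ZMod Q) * (12 : ZMod Q)⁻¹ = 1 := by
    have := ZMod.coe_mul_inv_eq_one (n := Q) 12 hc
    exact_mod_cast this
  have h1 : (M : ZMod Q) = (12 : ZMod Q)⁻¹ * (a : ZMod Q) := ZMod.natCast_zmod_val _
  have h2 : ∀ k ∈ Finset.range n, (((12 * (k : ℤ) + a : ℤ)) : ZMod Q) =
      12 * ((M + k : ℕ) : ZMod Q) := by
    intro k _
    push_cast
    rw [h1, mul_add, ← mul_assoc, h12, one_mul]
    ring
  rw [Finset.prod_congr rfl h2, Finset.prod_mul_distrib, ← Nat.cast_prod,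
    ← Nat.ascFactorial_eq_prod_range]
  have h3 : ((M.ascFactorial n : ℕ) : ZMod Q) = 0 :=
    (ZMod.natCast_eq_zero_iff _ _).2 (hQ.trans (Nat.factorial_dvd_ascFactorial M n))
  rw [h3, mul_zero]

end FACM

open FACM in
theorem specFac : SpecFac := by
  intro a n
  obtain ⟨s, Q, h1, h2, h3⟩ := decomp n
  rw [h1, Nat.cast_mul]
  refine mul_dvd_mul ?_ (dvd_prod (h1 ▸ Dvd.intro_left _ rfl) h3 a)
  exact_mod_cast h2

end Pool.Agent.Lib.MP_47914d_nt.BD
end

section
/-!
# HYP: the formal differential equations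
-/
set_option autoImplicit false

namespace Pool.Agent.Lib.MP_47914d_nt.BD

open scoped PowerSeries

namespace HYPM

open PowerSeries (coeff X C)

theorem coeff_th (f : ℚ⟦X⟧) (n : ℕ) : coeff n (th f) = n * coeff n f := by
  unfold th
  cases n with
  | zero => simp
  | succ n =>
    rw [PowerSeries.coeff_succ_X_mul, PowerSeries.coeff_derivative]
    push_cast
    ring

theorem th_add (f g : ℚ⟦X⟧) : th (f + g) = th f + th g := by
  unfold th
  rw [map_add]
  ring

theorem th_sub (f g : ℚ⟦X⟧) : th (f - g) = th f - th g := by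
  unfold th
  rw [map_sub]
  ring

theorem th_mul (f g : ℚ⟦X⟧) : th (f * g) = th f * g + f * th g := by
  unfold th
  rw [Derivation.leibniz, smul_eq_mul, smul_eq_mul]
  ring

theorem coeff_zero_th (f : ℚ⟦X⟧) : coeff 0 (th f) = 0 := by
  rw [coeff_th, Nat.cast_zero, zero_mul]

/-- coefficients of `c X f` -/
theorem cX (c : ℚ) (f : ℚ⟦X⟧) (n : ℕ) : coeff (n + 1) (C c * X * f) = c * coeff n f := by
  rw [mul_assoc, PowerSeries.coeff_C_mul, PowerSeries.coeff_succ_X_mul]

theorem cX0 (c : ℚ) (f : ℚ⟦X⟧) : coeff 0 (C c * X * f) = 0 := by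
  rw [mul_assoc, PowerSeries.coeff_C_mul, PowerSeries.coeff_zero_X_mul, mul_zero]

theorem oX (f : ℚ⟦X⟧) (n : ℕ) : coeff (n + 1) ((1 - 1728 * X) * f) =
    coeff (n + 1) f - 1728 * coeff n f := by
  have e : (1 - 1728 * X) * f = f - C 1728 * X * f := by
    rw [map_ofNat]
    ring
  rw [e, map_sub, cX]

theorem oX0 (f : ℚ⟦X⟧) : coeff 0 ((1 - 1728 * X) * f) = coeff 0 f := by
  have e : (1 - 1728 * X) * f = f - C 1728 * X * f := by
    rw [map_ofNat]
    ring
  rw [e, map_sub, cX0, sub_zero]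

theorem aq_succ (n : ℕ) :
    ((n : ℚ) + 1) ^ 2 * aq (n + 1) = 12 * (12 * (n : ℚ) + 1) * (12 * n + 5) * aq n := by
  unfold aq
  rw [Finset.prod_range_succ]
  have : ((n : ℚ) + 1) ≠ 0 := by positivity
  field_simp

theorem hq_succ (n : ℕ) :
    hq (n + 1) = hq n + (12 / (12 * (n : ℚ) + 1) + 12 / (12 * n + 5) - 2 / (n + 1)) := by
  unfold hq
  rw [Finset.sum_range_succ]

theorem uq_succ (n : ℕ) : ((n : ℚ) + 1) * uq (n + 1) = 432 * (4 * (n : ℚ) - 1) * uq n := by
  unfold uq
  rw [Finset.prod_range_succ]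
  have : ((n : ℚ) + 1) ≠ 0 := by positivity
  field_simp

theorem odeF : (1 - 1728 * X) * th (th Fs) = 864 * X * th Fs + 60 * X * Fs := by
  have e : 864 * X * th Fs + 60 * X * Fs = C 864 * X * th Fs + C 60 * X * Fs := by
    rw [map_ofNat, map_ofNat]
  rw [e]
  ext n
  cases n with
  | zero =>
    rw [oX0, coeff_zero_th, map_add, cX0, cX0, add_zero]
  | succ n =>
    rw [oX, map_add, cX, cX]
    simp only [coeff_th, Fs, PowerSeries.coeff_mk]
    have h := aq_succ n
    push_cast
    linear_combination h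

theorem odeG : (1 - 1728 * X) * (th (th Gs) + 2 * th Fs) =
    864 * X * (th Gs + Fs) + 60 * X * Gs := by
  have e : 864 * X * (th Gs + Fs) + 60 * X * Gs = C 864 * X * (th Gs + Fs) + C 60 * X * Gs := by
    rw [map_ofNat, map_ofNat]
  have e2 : (2 : ℚ⟦X⟧) * th Fs = C 2 * th Fs := by
    rw [map_ofNat]
  rw [e, e2]
  ext n
  cases n with
  | zero =>
    rw [oX0, map_add, PowerSeries.coeff_C_mul, coeff_zero_th, coeff_zero_th, map_add, cX0, cX0]
    ring
  | succ n =>
    rw [oX, map_add, map_add, map_add, cX, cX, map_add, PowerSeries.coeff_C_mul,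
      PowerSeries.coeff_C_mul]
    simp only [coeff_th, Fs, Gs, PowerSeries.coeff_mk]
    have h := aq_succ n
    have h1 : (12 * (n : ℚ) + 1) ≠ 0 := by positivity
    have h2 : (12 * (n : ℚ) + 5) ≠ 0 := by positivity
    have h3 : ((n : ℚ) + 1) ≠ 0 := by positivity
    have h4 := hq_succ n
    have h5 : aq (n + 1) = 12 * (12 * (n : ℚ) + 1) * (12 * n + 5) * aq n / ((n : ℚ) + 1) ^ 2 := by
      rw [← h]
      field_simp
    rw [h4, h5]
    push_cast
    field_simp
    ring

theorem odeU : (1 - 1728 * X) * th us = -(432 * X * us) := by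
  have e : 432 * X * us = C 432 * X * us := by
    rw [map_ofNat]
  rw [e]
  ext n
  cases n with
  | zero => rw [oX0, coeff_zero_th, map_neg, cX0, neg_zero]
  | succ n =>
    rw [oX, map_neg, cX]
    simp only [coeff_th, us, PowerSeries.coeff_mk]
    have h := uq_succ n
    push_cast
    linear_combination h

theorem one_sub_ne : (1 - 1728 * X : ℚ⟦X⟧) ≠ 0 := by
  intro h
  have h1 := congrArg (coeff 0) h
  have e : (1 - 1728 * X : ℚ⟦X⟧) = (1 - 1728 * X) * 1 := by ring
  rw [e, oX0, map_zero, PowerSeries.coeff_zero_one] at h1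
  exact one_ne_zero h1

theorem us0 : coeff 0 us = 1 := by
  simp [us, uq]

theorem fs0 : coeff 0 Fs = 1 := by
  simp [Fs, aq]

theorem gs0 : coeff 0 Gs = 0 := by
  simp [Gs, hq]

theorem th_one_sub : th (1 - 1728 * X) = -(1728 * X) := by
  have e : (1 - 1728 * X : ℚ⟦X⟧) = C 1 - C 1728 * X * 1 := by
    rw [map_one, map_ofNat]
    ring
  have e2 : (-(1728 * X) : ℚ⟦X⟧) = - (C 1728 * X * 1) := by
    rw [map_ofNat]
    ring
  rw [e, e2]
  ext n
  rw [coeff_th, map_sub, map_neg]
  cases n with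
  | zero => rw [cX0]; simp
  | succ n =>
    rw [cX, PowerSeries.coeff_C]
    cases n with
    | zero => simp
    | succ n => simp [PowerSeries.coeff_one]

theorem u4 : us ^ 4 = 1 - 1728 * X := by
  have h1 : (1 - 1728 * X) * th (us ^ 4) = -(1728 * X * us ^ 4) := by
    have e : us ^ 4 = us * (us * (us * us)) := by ring
    rw [e, th_mul, th_mul, th_mul]
    linear_combination (4 * us ^ 3) * odeU
  have h2 : (1 - 1728 * X) * th (us ^ 4 - (1 - 1728 * X)) =
      -(C 1728 * X * (us ^ 4 - (1 - 1728 * X))) := by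
    rw [th_sub, th_one_sub, map_ofNat]
    linear_combination h1
  have h3 : ∀ n, coeff n (us ^ 4 - (1 - 1728 * X)) = 0 := by
    intro n
    induction n with
    | zero =>
      rw [map_sub, PowerSeries.coeff_zero_eq_constantCoeff_apply,
        PowerSeries.coeff_zero_eq_constantCoeff_apply, map_pow,
        ← PowerSeries.coeff_zero_eq_constantCoeff_apply, us0]
      simp
    | succ n ih =>
      have h4 := congrArg (coeff (n + 1)) h2
      rw [oX, map_neg, cX, coeff_th, coeff_th, ih] at h4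
      have h5 : ((n : ℚ) + 1) ≠ 0 := by positivity
      push_cast at h4
      have h6 : ((n : ℚ) + 1) * coeff (n + 1) (us ^ 4 - (1 - 1728 * X)) = 0 := by
        linear_combination h4
      exact (mul_eq_zero.1 h6).resolve_left h5
  have h4 : us ^ 4 - (1 - 1728 * X) = 0 := by
    ext n
    rw [h3, map_zero]
  exact sub_eq_zero.1 h4

theorem wr : us ^ 2 * (Fs * (th Gs + Fs) - Gs * th Fs) = 1 := by
  set W : ℚ⟦X⟧ := us ^ 2 * (Fs * (th Gs + Fs) - Gs * th Fs) with hW
  have h1 : (1 - 1728 * X) * th W = 0 := by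
    have e : us ^ 2 = us * us := by ring
    rw [hW, e, th_mul, th_mul, th_sub, th_mul, th_mul, th_add]
    linear_combination (2 * us * (Fs * (th Gs + Fs) - Gs * th Fs)) * odeU +
      us ^ 2 * Fs * odeG - us ^ 2 * Gs * odeF
  have h2 : th W = 0 := (mul_eq_zero.1 h1).resolve_left one_sub_ne
  ext n
  cases n with
  | zero =>
    rw [PowerSeries.coeff_zero_eq_constantCoeff_apply, PowerSeries.coeff_zero_eq_constantCoeff_apply,
      hW, map_mul, map_pow, map_sub, map_mul, map_mul, map_add]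
    simp only [← PowerSeries.coeff_zero_eq_constantCoeff_apply, us0, fs0, gs0, coeff_zero_th]
    simp
  | succ n =>
    have h3 := congrArg (coeff (n + 1)) h2
    rw [coeff_th, map_zero] at h3
    have h5 : ((n + 1 : ℕ) : ℚ) ≠ 0 := by
      push_cast
      positivity
    rw [(mul_eq_zero.1 h3).resolve_left h5, PowerSeries.coeff_one, if_neg (Nat.succ_ne_zero n)]

end HYPM

theorem specHyp : SpecHyp where
  odeF := HYPM.odeF
  odeG := HYPM.odeG
  odeU := HYPM.odeU
  u4 := HYPM.u4
  wr := HYPM.wr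

end Pool.Agent.Lib.MP_47914d_nt.BD
end

section
/-!
# IND: the entries of the translates of `Y` are algebraically independent over `ℂ(x)`
-/
set_option autoImplicit false

open Complex Filter Topology

namespace Pool.Agent.Lib.MP_47914d_nt.BD

open Pool.Agent.Lib.MPf11a48.GF (pval)

namespace INDM

/-! ### analytic functions -/

theorem analyticAt_of {g : ℂ → ℂ} {ρ : ℝ} (h : ∀ x : ℂ, ‖x‖ < ρ → ∃ f', HasDerivAt g f' x) {w : ℂ}
    (hw : ‖w‖ < ρ) : AnalyticAt ℂ g w := by
  rw [Complex.analyticAt_iff_eventually_differentiableAt]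
  filter_upwards [(isOpen_lt continuous_norm continuous_const).mem_nhds hw] with x hx
  exact (h x hx).choose_spec.differentiableAt

/-- everything about a small real point -/
structure Pt (ρ : ℝ) (x₀ : ℝ) : Prop where
  num : Num ρ
  lnk : ∀ x : ℂ, x ≠ 0 → ‖x‖ < ρ → 0 < (zx x).im ∧ Jc (zx x) = 1 / x ∧
    Qc (zx x) = (Real.pi * Complex.I / 6) ^ 2 * pval Fs x ^ 4
  pos : 0 < x₀
  lt : x₀ < ρ

variable {ρ x₀ : ℝ} (h : Pt ρ x₀) (m : ℕ)

/-- the conditions at a point near `x₀` -/
structure Gd (ρ : ℝ) (m : ℕ) (x : ℂ) : Prop where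
  re : 0 < x.re
  re1 : 0 < (1 + m * x).re
  rem : 0 < (xm m x).re
  lt : ‖xm m x‖ < ρ

theorem Gd.x0 {ρ : ℝ} {m : ℕ} {x : ℂ} (g : Gd ρ m x) : x ≠ 0 := by
  rintro rfl
  exact lt_irrefl _ g.re

theorem Gd.x1 {ρ : ℝ} {m : ℕ} {x : ℂ} (g : Gd ρ m x) : 1 + m * x ≠ 0 := by
  intro h0
  have := g.re1
  rw [h0] at this
  exact lt_irrefl _ this

theorem Gd.xm0 {ρ : ℝ} {m : ℕ} {x : ℂ} (g : Gd ρ m x) : xm m x ≠ 0 := by
  intro h0
  have := g.rem
  rw [h0] at this
  exact lt_irrefl _ this

theorem Gd.mul {ρ : ℝ} {m : ℕ} {x : ℂ} (g : Gd ρ m x) : xm m x * (1 + m * x) = x :=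
  div_mul_cancel₀ _ g.x1

theorem Gd.log {ρ : ℝ} {m : ℕ} {x : ℂ} (g : Gd ρ m x) :
    Complex.log x = Complex.log (xm m x) + Complex.log (1 + m * x) := by
  conv_lhs => rw [← g.mul]
  rw [Complex.log_mul_eq_add_log_iff g.xm0 g.x1]
  have h1 := Complex.abs_arg_lt_pi_div_two_iff.2 (Or.inl g.rem)
  have h2 := Complex.abs_arg_lt_pi_div_two_iff.2 (Or.inl g.re1)
  rw [abs_lt] at h1 h2
  constructor <;> linarith [h1.1, h1.2, h2.1, h2.2]

include h in
theorem x1_ne : (1 : ℂ) + m * x₀ ≠ 0 := by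
  have : (0 : ℝ) < 1 + m * x₀ := by
    have := h.pos
    positivity
  exact_mod_cast this.ne'

include h in
theorem xm_an : AnalyticAt ℂ (xm m) (x₀ : ℂ) := by
  unfold xm
  exact analyticAt_id.div (analyticAt_const.add (analyticAt_const.mul analyticAt_id)) (x1_ne h m)

include h in
theorem gd_base : Gd ρ m (x₀ : ℂ) := by
  have hx := h.pos
  have h1 : (0 : ℝ) < 1 + m * x₀ := by positivity
  have e : xm m (x₀ : ℂ) = ((x₀ / (1 + m * x₀) : ℝ) : ℂ) := by
    unfold xm
    push_cast
    rfl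
  refine ⟨by simpa using hx, ?_, ?_, ?_⟩
  · have : (1 : ℂ) + m * x₀ = ((1 + m * x₀ : ℝ) : ℂ) := by push_cast; rfl
    rw [this, Complex.ofReal_re]
    exact h1
  · rw [e, Complex.ofReal_re]
    positivity
  · rw [e, Complex.norm_real, Real.norm_of_nonneg (by positivity)]
    refine lt_of_le_of_lt ?_ h.lt
    rw [div_le_iff₀ h1]
    have : (0 : ℝ) ≤ m := Nat.cast_nonneg m
    nlinarith [mul_nonneg this hx.le]

include h in
theorem gd_ev : ∀ᶠ x in 𝓝 (x₀ : ℂ), Gd ρ m x := by
  have g := gd_base h m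
  have hc := (xm_an h m).continuousAt
  have c1 : ContinuousAt (fun x : ℂ => x.re) (x₀ : ℂ) := Complex.continuous_re.continuousAt
  have c2 : ContinuousAt (fun x : ℂ => (1 + m * x).re) (x₀ : ℂ) := by fun_prop
  have c3 : ContinuousAt (fun x : ℂ => (xm m x).re) (x₀ : ℂ) :=
    Complex.continuous_re.continuousAt.comp hc
  have c4 : ContinuousAt (fun x : ℂ => ‖xm m x‖) (x₀ : ℂ) := hc.norm
  filter_upwards [c1.eventually (lt_mem_nhds g.re), c2.eventually (lt_mem_nhds g.re1),
    c3.eventually (lt_mem_nhds g.rem), c4.eventually (gt_mem_nhds g.lt)] with x a b c d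
  exact ⟨a, b, c, d⟩

include h in
theorem F_an : AnalyticAt ℂ (fun x => pval Fs (xm m x)) (x₀ : ℂ) := by
  have h1 : AnalyticAt ℂ (pval Fs) (xm m (x₀ : ℂ)) :=
    analyticAt_of (fun x hx => (h.num.F0 x hx).imp fun _ h => h.1) (gd_base h m).lt
  exact h1.comp (xm_an h m)

include h in
theorem F1_an : AnalyticAt ℂ (fun x => pval (th Fs) (xm m x)) (x₀ : ℂ) := by
  have h1 : AnalyticAt ℂ (pval (th Fs)) (xm m (x₀ : ℂ)) :=
    analyticAt_of (fun x hx => (h.num.F1 x hx).imp fun _ h => h.1) (gd_base h m).lt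
  exact h1.comp (xm_an h m)

include h in
theorem G_an : AnalyticAt ℂ (fun x => pval Gs (xm m x)) (x₀ : ℂ) := by
  have h1 : AnalyticAt ℂ (pval Gs) (xm m (x₀ : ℂ)) :=
    analyticAt_of (fun x hx => (h.num.G0 x hx).imp fun _ h => h.1) (gd_base h m).lt
  exact h1.comp (xm_an h m)

include h in
theorem U_an : AnalyticAt ℂ (fun x => pval us (xm m x)) (x₀ : ℂ) := by
  have h1 : AnalyticAt ℂ (pval us) (xm m (x₀ : ℂ)) :=
    analyticAt_of (fun x hx => (h.num.U0 x hx).imp fun _ h => h.1) (gd_base h m).lt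
  exact h1.comp (xm_an h m)

theorem slit {x : ℂ} (hx : 0 < x.re) : x ∈ Complex.slitPlane := Or.inl hx

include h in
theorem log_an : AnalyticAt ℂ Complex.log (x₀ : ℂ) :=
  analyticAt_clog (slit (by simpa using h.pos))

include h in
theorem log1_an : AnalyticAt ℂ (fun x => Complex.log (1 + m * x)) (x₀ : ℂ) :=
  (analyticAt_const.add (analyticAt_const.mul analyticAt_id)).clog (slit (gd_base h m).re1)

include h in
theorem z_an : AnalyticAt ℂ (fun x => zx (xm m x)) (x₀ : ℂ) := by
  unfold zx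
  refine AnalyticAt.div (AnalyticAt.add ?_ (AnalyticAt.div (G_an h m) (F_an h m) ?_))
    analyticAt_const Complex.two_pi_I_ne_zero
  · exact (xm_an h m).clog (slit (gd_base h m).rem)
  · exact (h.num.nz _ (gd_base h m).lt).1

include h in
theorem z_im : 0 < (zx (xm m (x₀ : ℂ))).im :=
  (h.lnk _ (gd_base h m).xm0 (gd_base h m).lt).1

include h in
theorem z_nc : ¬ ∀ᶠ x in 𝓝 (x₀ : ℂ), zx (xm m x) = zx (xm m (x₀ : ℂ)) := by
  intro hc
  have h1 : ∀ᶠ x : ℂ in 𝓝 (x₀ : ℂ), x = x₀ := by
    filter_upwards [hc, gd_ev h m] with x hx g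
    have g0 := gd_base h m
    have e1 := (h.lnk _ g.xm0 g.lt).2.1
    rw [hx, (h.lnk _ g0.xm0 g0.lt).2.1] at e1
    have e2 : xm m x = xm m (x₀ : ℂ) := by
      have := g.xm0
      have := g0.xm0
      field_simp at e1
      exact e1
    have e3 := g.mul
    have e4 := g0.mul
    have e5 := g.x1
    have e6 := g0.x1
    unfold xm at e2
    rw [div_eq_div_iff e5 e6] at e2
    linear_combination e2
  have h2 : ∀ᶠ x : ℂ in 𝓝[≠] (x₀ : ℂ), x = x₀ := h1.filter_mono nhdsWithin_le_nhds
  have h3 : ∀ᶠ x : ℂ in 𝓝[≠] (x₀ : ℂ), x ≠ x₀ := eventually_mem_nhdsWithin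
  obtain ⟨x, hx1, hx2⟩ := (h2.and h3).exists
  exact hx2 hx1

/-! ### the germ field -/

section germ

variable {F : Type} [Field F] [Algebra ℂ F] (G : GermField (x₀ : ℂ) F)

include h in
theorem isW_z (hR : SpecRam) : IsW G.D (G.T fun x => zx (xm m x))
    (G.T fun x => Pc (zx (xm m x))) (G.T fun x => Qc (zx (xm m x)))
    (G.T fun x => Rc (zx (xm m x))) 0 := by
  have hζ := z_an h m
  have him := z_im h m
  have hPan : ∀ w : ℂ, 0 < w.im → AnalyticAt ℂ Pc w := fun w hw =>
    comp_analyticAt (ζ := fun x => x) hR.derivP analyticAt_id hw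
  have hQan : ∀ w : ℂ, 0 < w.im → AnalyticAt ℂ Qc w := fun w hw =>
    comp_analyticAt (ζ := fun x => x) hR.derivQ analyticAt_id hw
  have hRan : ∀ w : ℂ, 0 < w.im → AnalyticAt ℂ Rc w := fun w hw =>
    comp_analyticAt (ζ := fun x => x) hR.derivR analyticAt_id hw
  have hPz : AnalyticAt ℂ (fun x => Pc (zx (xm m x))) (x₀ : ℂ) :=
    comp_analyticAt hR.derivP hζ him
  have hQz : AnalyticAt ℂ (fun x => Qc (zx (xm m x))) (x₀ : ℂ) :=
    comp_analyticAt hR.derivQ hζ him
  have hRz : AnalyticAt ℂ (fun x => Rc (zx (xm m x))) (x₀ : ℂ) :=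
    comp_analyticAt hR.derivR hζ him
  have e4 : algebraMap ℂ F 4 = 4 := map_ofNat _ 4
  have e6 : algebraMap ℂ F 6 = 6 := map_ofNat _ 6
  refine ⟨?_, ?_, ?_⟩
  · have h1 := G.D_comp (f := Pc) (f' := fun w => Pc w ^ 2 - Qc w) hR.derivP
      (fun w hw => ((hPan w hw).pow 2).sub (hQan w hw)) hζ him
    have h2 := G.T_eval (MvPolynomial.X 0 ^ 2 - MvPolynomial.X 1 : MvPolynomial (Fin 2) ℂ)
      (f := ![fun x => Pc (zx (xm m x)), fun x => Qc (zx (xm m x))]) (by
        intro j; fin_cases j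
        · exact hPz
        · exact hQz)
    simp at h2
    rw [h1, h2]
    simp [om0, om1]
  · have h1 := G.D_comp (f := Qc) (f' := fun w => 4 * (Pc w * Qc w - Rc w)) hR.derivQ
      (fun w hw => analyticAt_const.mul (((hPan w hw).mul (hQan w hw)).sub (hRan w hw)))
      hζ him
    have h2 := G.T_eval (MvPolynomial.C 4 * (MvPolynomial.X 0 * MvPolynomial.X 1 -
        MvPolynomial.X 2) : MvPolynomial (Fin 3) ℂ)
      (f := ![fun x => Pc (zx (xm m x)), fun x => Qc (zx (xm m x)),
        fun x => Rc (zx (xm m x))]) (by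
        intro j; fin_cases j
        · exact hPz
        · exact hQz
        · exact hRz)
    simp at h2
    rw [h1, h2, e4]
    simp [om0, om1]
  · have h1 := G.D_comp (f := Rc) (f' := fun w => 6 * (Pc w * Rc w - Qc w ^ 2)) hR.derivR
      (fun w hw => analyticAt_const.mul (((hPan w hw).mul (hRan w hw)).sub ((hQan w hw).pow 2)))
      hζ him
    have h2 := G.T_eval (MvPolynomial.C 6 * (MvPolynomial.X 0 * MvPolynomial.X 2 -
        MvPolynomial.X 1 ^ 2) : MvPolynomial (Fin 3) ℂ)
      (f := ![fun x => Pc (zx (xm m x)), fun x => Qc (zx (xm m x)),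
        fun x => Rc (zx (xm m x))]) (by
        intro j; fin_cases j
        · exact hPz
        · exact hQz
        · exact hRz)
    simp at h2
    rw [h1, h2, e6]
    simp [om0, om1]

include h in
theorem dat (hR : SpecRam) (hM : SpecMahler) : Dat G.D (G.T fun x => x) (G.T Complex.log)
    (G.T fun x => zx (xm m x)) (G.T fun x => Pc (zx (xm m x))) (G.T fun x => Qc (zx (xm m x)))
    (G.T fun x => Rc (zx (xm m x))) (G.T fun x => pval Fs (xm m x))
    (G.T fun x => pval (th Fs) (xm m x))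
    (G.T fun x => pval Gs (xm m x) - Complex.log (1 + m * x) * pval Fs (xm m x))
    (G.T fun x => pval us (xm m x)) m := by
  have hζ := z_an h m
  have him := z_im h m
  have hPan : ∀ w : ℂ, 0 < w.im → AnalyticAt ℂ Pc w := fun w hw =>
    comp_analyticAt (ζ := fun x => x) hR.derivP analyticAt_id hw
  have hQan : ∀ w : ℂ, 0 < w.im → AnalyticAt ℂ Qc w := fun w hw =>
    comp_analyticAt (ζ := fun x => x) hR.derivQ analyticAt_id hw
  have hRan : ∀ w : ℂ, 0 < w.im → AnalyticAt ℂ Rc w := fun w hw =>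
    comp_analyticAt (ζ := fun x => x) hR.derivR analyticAt_id hw
  have hPz : AnalyticAt ℂ (fun x => Pc (zx (xm m x))) (x₀ : ℂ) :=
    comp_analyticAt hR.derivP hζ him
  have hQz : AnalyticAt ℂ (fun x => Qc (zx (xm m x))) (x₀ : ℂ) :=
    comp_analyticAt hR.derivQ hζ him
  have hRz : AnalyticAt ℂ (fun x => Rc (zx (xm m x))) (x₀ : ℂ) :=
    comp_analyticAt hR.derivR hζ him
  have hid : AnalyticAt ℂ (fun x : ℂ => x) (x₀ : ℂ) := analyticAt_id
  have e1728 : algebraMap ℂ F 1728 = 1728 := map_ofNat _ 1728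
  have hF := F_an h m
  have hF1 := F1_an h m
  have hG := G_an h m
  have hU := U_an h m
  have hl := log_an h
  have hl1 := log1_an h m
  have hC : AnalyticAt ℂ (fun x => pval Gs (xm m x) - Complex.log (1 + m * x) *
      pval Fs (xm m x)) (x₀ : ℂ) := hG.sub (hl1.mul hF)
  have hev := gd_ev h m
  refine ⟨isW_z h m G hR, ?_, ?_, ?_, ?_, ?_, ?_⟩
  · rw [algebraicIndependent_iff]
    intro S hS
    by_contra hS0
    apply hM _ him S hS0
    apply push_forward hζ (z_nc h m)
    have h1 : MvPolynomial.aeval (fun j => G.T ((![fun x => zx (xm m x),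
        fun x => Pc (zx (xm m x)), fun x => Qc (zx (xm m x)),
        fun x => Rc (zx (xm m x))] : Fin 4 → ℂ → ℂ) j)) S = 0 := by
      convert hS using 2
      congr 1
      funext j
      fin_cases j <;> rfl
    rw [G.aeval_eq_zero_iff] at h1
    · filter_upwards [h1] with x hx
      convert hx using 2
      congr 1
      funext j
      fin_cases j <;> rfl
    · intro j; fin_cases j
      · exact hζ
      · exact hPz
      · exact hQz
      · exact hRz
  · have h1 : MvPolynomial.aeval (fun j => G.T ((![fun x => x, fun x => Qc (zx (xm m x)),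
        fun x => Rc (zx (xm m x))] : Fin 3 → ℂ → ℂ) j))
        ((1 + (m : MvPolynomial (Fin 3) ℂ) * MvPolynomial.X 0) * (MvPolynomial.X 1 ^ 3 -
        MvPolynomial.X 2 ^ 2) - MvPolynomial.C 1728 * MvPolynomial.X 1 ^ 3 * MvPolynomial.X 0 :
          MvPolynomial (Fin 3) ℂ) = 0 := by
      rw [G.aeval_eq_zero_iff]
      · filter_upwards [hev] with x g
        have e1 := h.lnk _ g.xm0 g.lt
        have e2 := hR.jinv _ e1.1
        rw [e1.2.1] at e2
        have e3 := g.mul
        have e4 := g.xm0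
        simp
        have e5 : (Qc (zx (xm m x)) ^ 3 - Rc (zx (xm m x)) ^ 2) =
            1728 * Qc (zx (xm m x)) ^ 3 * xm m x := by
          field_simp at e2
          linear_combination e2
        linear_combination (1 + m * x) * e5 + 1728 * Qc (zx (xm m x)) ^ 3 * e3
      · intro j; fin_cases j
        · exact hid
        · exact hQz
        · exact hRz
    simp at h1
    rw [e1728] at h1
    linear_combination h1
  · obtain ⟨κ, hκ⟩ : ∃ κ : ℂ, κ = (Real.pi * Complex.I / 6) ^ 2 := ⟨_, rfl⟩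
    rw [← hκ]
    have h1 : MvPolynomial.aeval (fun j => G.T ((![fun x => pval Fs (xm m x),
        fun x => Qc (zx (xm m x))] : Fin 2 → ℂ → ℂ) j))
        (MvPolynomial.C κ * MvPolynomial.X 0 ^ 4 -
          MvPolynomial.X 1 : MvPolynomial (Fin 2) ℂ) = 0 := by
      rw [G.aeval_eq_zero_iff]
      · filter_upwards [hev] with x g
        have e1 := (h.lnk _ g.xm0 g.lt).2.2
        rw [← hκ] at e1
        simp
        exact sub_eq_zero.2 e1.symm
      · intro j; fin_cases j
        · exact hF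
        · exact hQz
    simp at h1
    exact sub_eq_zero.1 h1
  · rw [← G.T_deriv _ hF]
    have h1 : MvPolynomial.aeval (fun j => G.T ((![fun x => pval (th Fs) (xm m x),
        fun x => x, deriv fun x => pval Fs (xm m x)] : Fin 3 → ℂ → ℂ) j))
        (MvPolynomial.X 0 - MvPolynomial.X 1 * (1 + (m : MvPolynomial (Fin 3) ℂ) *
          MvPolynomial.X 1) * MvPolynomial.X 2 : MvPolynomial (Fin 3) ℂ) = 0 := by
      rw [G.aeval_eq_zero_iff]
      · filter_upwards [hev] with x g
        obtain ⟨f', hf1, hf2⟩ := h.num.F0 _ g.lt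
        have hx1 : HasDerivAt (xm m) (1 / (1 + m * x) ^ 2) x := by
          have h2 : HasDerivAt (fun x : ℂ => 1 + m * x) m x := by
            have := ((hasDerivAt_id x).const_mul (m : ℂ)).const_add 1
            simpa using this
          have h3 := (hasDerivAt_id x).div h2 g.x1
          refine h3.congr_deriv ?_
          simp
          ring
        have hd := (hf1.comp x hx1).deriv
        have hd' : deriv (fun x => pval Fs (xm m x)) x = f' * (1 / (1 + m * x) ^ 2) := hd
        have e5 := g.x1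
        have e6 : x * (1 + m * x) * (f' * (1 / (1 + m * x) ^ 2)) = xm m x * f' := by
          unfold xm
          field_simp
        rw [← hd', hf2] at e6
        simp
        exact sub_eq_zero.2 e6.symm
      · intro j; fin_cases j
        · exact hF1
        · exact hid
        · exact hF.deriv
    simp at h1
    linear_combination h1
  · have h1 : MvPolynomial.aeval (fun j => G.T ((![fun x => pval Gs (xm m x) -
        Complex.log (1 + m * x) * pval Fs (xm m x), fun x => pval Fs (xm m x),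
        fun x => zx (xm m x), Complex.log] : Fin 4 → ℂ → ℂ) j))
        (MvPolynomial.X 0 - MvPolynomial.X 1 * (MvPolynomial.C (2 * Real.pi * Complex.I) *
          MvPolynomial.X 2 - MvPolynomial.X 3) : MvPolynomial (Fin 4) ℂ) = 0 := by
      rw [G.aeval_eq_zero_iff]
      · filter_upwards [hev] with x g
        have e1 := (h.num.nz _ g.lt).1
        have e2 : 2 * Real.pi * Complex.I * zx (xm m x) =
            Complex.log (xm m x) + pval Gs (xm m x) / pval Fs (xm m x) :=
          mul_div_cancel₀ _ Complex.two_pi_I_ne_zero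
        have e3 := g.log
        simp only [map_sub, map_mul, MvPolynomial.eval_C, MvPolynomial.eval_X]
        change pval Gs (xm m x) - Complex.log (1 + m * x) * pval Fs (xm m x) -
          pval Fs (xm m x) * (2 * Real.pi * Complex.I * zx (xm m x) - Complex.log x) = 0
        rw [e2, e3]
        field_simp
        ring
      · intro j; fin_cases j
        · exact hC
        · exact hF
        · exact hζ
        · exact hl
    simp only [map_sub, map_mul, MvPolynomial.aeval_C, MvPolynomial.aeval_X] at h1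
    rw [← map_mul, ← map_mul] at h1
    exact sub_eq_zero.1 h1
  · have h1 : MvPolynomial.aeval (fun j => G.T ((![fun x => pval us (xm m x),
        fun x => x] : Fin 2 → ℂ → ℂ) j))
        (MvPolynomial.X 0 ^ 4 * (1 + (m : MvPolynomial (Fin 2) ℂ) * MvPolynomial.X 1) -
          (1 + (m : MvPolynomial (Fin 2) ℂ) * MvPolynomial.X 1 -
            MvPolynomial.C 1728 * MvPolynomial.X 1) : MvPolynomial (Fin 2) ℂ) = 0 := by
      rw [G.aeval_eq_zero_iff]
      · filter_upwards [hev] with x g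
        have e1 := h.num.u4 _ g.lt
        have e3 := g.mul
        simp
        rw [e1]
        linear_combination (-1728) * e3
      · intro j; fin_cases j
        · exact hU
        · exact hid
    simp at h1
    rw [e1728] at h1
    linear_combination h1

end germ

theorem num_mono {ρ ρ' : ℝ} (h : Num ρ) (h0 : 0 < ρ') (hle : ρ' ≤ ρ) : Num ρ' where
  pos := h0
  le := by linarith [h.le]
  sm x hx := h.sm x (hx.trans_le hle)
  F0 x hx := h.F0 x (hx.trans_le hle)
  F1 x hx := h.F1 x (hx.trans_le hle)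
  G0 x hx := h.G0 x (hx.trans_le hle)
  G1 x hx := h.G1 x (hx.trans_le hle)
  U0 x hx := h.U0 x (hx.trans_le hle)
  u4 x hx := h.u4 x (hx.trans_le hle)
  wr x hx := h.wr x (hx.trans_le hle)
  nz x hx := h.nz x (hx.trans_le hle)
  zero := h.zero

end INDM

open INDM in
theorem specIND (hR : SpecRam) (hM : SpecMahler) (hField : SpecField) (hE : SpecExt)
    (h0 : SpecDer0) (hSt : SpecStepC) (hRi : SpecRicc) (hNo : SpecNoRicc) (hGa : SpecGauge)
    (hTw : SpecTwist) (hA : SpecAut) (hNum : SpecNum) (hLnk : SpecLnk) (hDic : SpecDic)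
    (hAin : SpecAin) (hLnx : SpecLnx) : SpecInd := by
  intro n m hm P hPP
  obtain ⟨ρP, hρP, hP⟩ := hPP
  obtain ⟨ρN, hN⟩ := hNum
  obtain ⟨ρL, hρL, hL⟩ := hLnk
  obtain ⟨ρX, hρX, hX⟩ := hLnx
  obtain ⟨B, hB⟩ : ∃ B : ℕ, ∀ i, m i ≤ B :=
    ⟨∑ i, m i, fun i => Finset.single_le_sum (fun _ _ => Nat.zero_le _) (Finset.mem_univ i)⟩
  set ρ := min ρN ρL with hρ
  have hρ0 : 0 < ρ := lt_min hN.pos hρL
  have hB2 : (0 : ℝ) < 2 * B + 2 := by positivity
  obtain ⟨x₀, h1, h2, h3, h4⟩ : ∃ x₀ : ℝ, 0 < x₀ ∧ x₀ < ρ ∧ x₀ < ρP ∧ (2 * B + 2) * x₀ < ρX := by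
    have hpos : 0 < min ρ (min ρP (ρX / (2 * B + 2))) :=
      lt_min hρ0 (lt_min hρP (div_pos hρX hB2))
    refine ⟨min ρ (min ρP (ρX / (2 * B + 2))) / 2, by linarith, ?_, ?_, ?_⟩
    · have := min_le_left ρ (min ρP (ρX / (2 * B + 2)))
      linarith
    · have := (min_le_right ρ (min ρP (ρX / (2 * B + 2)))).trans (min_le_left _ _)
      linarith
    · have := (min_le_right ρ (min ρP (ρX / (2 * B + 2)))).trans (min_le_right _ _)
      rw [← lt_div_iff₀' hB2]
      linarith
  have hpt : Pt ρ x₀ := ⟨num_mono hN hρ0 (min_le_left _ _),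
    fun x hx hx' => hL x hx (hx'.trans_le (min_le_right _ _)), h1, h2⟩
  obtain ⟨F, _, _, ⟨G⟩⟩ := hField (x₀ : ℂ)
  have hid : AnalyticAt ℂ (fun x : ℂ => x) (x₀ : ℂ) := analyticAt_id
  have hDt : G.D (G.T fun x => x) = 1 := by
    rw [← G.T_deriv _ hid]
    have : deriv (fun x : ℂ => x) = fun _ => 1 := by
      funext x; exact (hasDerivAt_id x).deriv
    rw [this, G.T_const, map_one]
  have hDl : (G.T fun x => x) * G.D (G.T Complex.log) = 1 := by
    rw [← G.T_deriv _ (log_an hpt)]
    have e1 : MvPolynomial.aeval (fun j => G.T ((![fun x => x, deriv Complex.log] :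
        Fin 2 → ℂ → ℂ) j)) (MvPolynomial.X 0 * MvPolynomial.X 1 - 1 : MvPolynomial (Fin 2) ℂ)
        = 0 := by
      rw [G.aeval_eq_zero_iff]
      · filter_upwards [gd_ev hpt 0] with x g
        have e2 := (Complex.hasDerivAt_log (slit g.re)).deriv
        simp
        rw [e2, mul_inv_cancel₀ g.x0, sub_self]
      · intro j; fin_cases j
        · exact hid
        · exact (log_an hpt).deriv
    simp at e1
    linear_combination e1
  have hdat := fun i : Fin n => dat hpt (m i) G hR hM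
  rcases hDic F G.D _ _ n _ _ _ _ G.D_ker hDt hDl (fun i => (hdat i).w) (fun i => (hdat i).ai)
    with hder | hlink
  · have hind := hAin F G.D _ _ n m _ _ _ _ _ _ _ _ hDt hdat hder
    rw [algebraicIndependent_iff] at hind
    apply hind
    have han : ∀ j : Option (Fin n × Fin 3), AnalyticAt ℂ (fun x : ℂ =>
        (fun o : Option (Fin n × Fin 3) => o.elim x fun v => ent (m v.1) x v.2) j) (x₀ : ℂ) := by
      intro j
      rcases j with _ | ⟨i, j⟩
      · exact hid
      · have a1 := U_an hpt (m i)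
        have a2 := F_an hpt (m i)
        have a3 := F1_an hpt (m i)
        have a4 := G_an hpt (m i)
        have a5 := log1_an hpt (m i)
        fin_cases j
        · exact a1.mul a2
        · exact a1.mul a3
        · exact (a1.mul a4).sub (a5.mul (a1.mul a2))
    have e1 : MvPolynomial.aeval (fun j => G.T (fun x : ℂ =>
        (fun o : Option (Fin n × Fin 3) => o.elim x fun v => ent (m v.1) x v.2) j)) P = 0 := by
      rw [G.aeval_eq_zero_iff P han]
      have c1 : ∀ᶠ x : ℂ in 𝓝 (x₀ : ℂ), ‖x‖ < ρP := by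
        have hc : ContinuousAt (fun x : ℂ => ‖x‖) (x₀ : ℂ) := continuous_norm.continuousAt
        refine hc.eventually (gt_mem_nhds ?_)
        change ‖((x₀ : ℝ) : ℂ)‖ < ρP
        rw [Complex.norm_real, Real.norm_of_nonneg h1.le]
        exact h3
      filter_upwards [c1, gd_ev hpt 0] with x hx g
      exact hP x g.x0 hx
    convert e1 using 2
    congr 1
    funext j
    rcases j with _ | ⟨i, j⟩
    · rfl
    · have a1 := U_an hpt (m i)
      have a2 := F_an hpt (m i)
      have a3 := F1_an hpt (m i)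
      have a4 := G_an hpt (m i)
      have a5 := log1_an hpt (m i)
      fin_cases j
      · exact (G.T_mul _ _ a1 a2).symm
      · exact (G.T_mul _ _ a1 a3).symm
      · have e2 := G.T_mul _ _ a1 (a4.sub (a5.mul a2))
        refine e2.symm.trans ?_
        congr 1
        funext x
        change _ = pval us (xm (m i) x) * pval Gs (xm (m i) x) -
          Complex.log (1 + m i * x) * (pval us (xm (m i) x) * pval Fs (xm (m i) x))
        simp only [Pi.sub_apply, Pi.mul_apply]
        ring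
  · exfalso
    obtain ⟨i, k, hik, φ, hφ, hφu⟩ := hlink
    have hx0 : (G.T fun x => x) ≠ 0 := by
      intro h
      rw [h, zero_mul] at hDl
      exact zero_ne_one hDl
    obtain ⟨α, β, γ, δ, hdet, hrel, -⟩ := link_alg hE h0 hSt hRi hNo hGa hTw hA {G.D}
      (fun f hf => G.D_ker f (hf G.D rfl))
      (y := fun i => (1 + (m i : F) * (G.T fun x => x)) / (G.T fun x => x))
      (fun D hD i => by
        rw [Set.mem_singleton_iff] at hD
        subst hD
        exact (hdat i).w)
      (fun i => by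
        rw [div_mul_eq_mul_div, div_eq_iff hx0]
        exact (hdat i).y)
      (fun i => (hdat i).ai) φ hφ hφu
    have hlt : ((m i : ℝ) + m k + 2) * x₀ < ρX := by
      refine lt_of_le_of_lt (mul_le_mul_of_nonneg_right ?_ h1.le) h4
      have b1 : (m i : ℝ) ≤ B := by exact_mod_cast hB i
      have b2 : (m k : ℝ) ≤ B := by exact_mod_cast hB k
      linarith
    apply hX (m i) (m k) (fun h => hik (hm h)) x₀ h1 hlt α β γ δ hdet
    have e1 : MvPolynomial.aeval (fun j => G.T ((![fun x => zx (xm (m i) x),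
        fun x => zx (xm (m k) x)] : Fin 2 → ℂ → ℂ) j))
        ((MvPolynomial.C γ * MvPolynomial.X 0 + MvPolynomial.C δ) * MvPolynomial.X 1 -
          (MvPolynomial.C α * MvPolynomial.X 0 + MvPolynomial.C β) :
            MvPolynomial (Fin 2) ℂ) = 0 := by
      simp
      linear_combination hrel
    rw [G.aeval_eq_zero_iff] at e1
    · filter_upwards [e1] with x hx
      simp at hx
      linear_combination hx
    · intro j; fin_cases j
      · exact z_an hpt (m i)
      · exact z_an hpt (m k)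

end Pool.Agent.Lib.MP_47914d_nt.BD
end

section
/-!
# LCM: Chebyshev's bound for the least common multiple
-/
set_option autoImplicit false

namespace Pool.Agent.Lib.MP_47914d_nt.BD

theorem specLcm : SpecLcm := by
  obtain ⟨C, hC⟩ := exists_nat_ge (Real.exp (12 * (Real.log 4 + 4)))
  have hC1 : 1 ≤ C := by
    have h1 : (1 : ℝ) ≤ Real.exp (12 * (Real.log 4 + 4)) := by
      apply Real.one_le_exp
      have := Real.log_nonneg (by norm_num : (1 : ℝ) ≤ 4)
      positivity
    exact_mod_cast h1.trans hC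
  refine ⟨C, fun n => ⟨Nat.lcmUpto (12 * n), Nat.lcmUpto_pos _, ?_, ?_⟩⟩
  · have h2 := Chebyshev.psi_eq_log_lcmUpto (12 * n)
    have h3 := Chebyshev.psi_le_const_mul_self (x := ((12 * n : ℕ) : ℝ)) (by positivity)
    have h4 : (Nat.lcmUpto (12 * n) : ℝ) ≤ Real.exp (12 * (Real.log 4 + 4)) ^ n := by
      rw [← Real.exp_nat_mul, ← Real.log_le_iff_le_exp
        (by exact_mod_cast Nat.lcmUpto_pos (12 * n))]
      rw [← h2]
      refine h3.trans (le_of_eq ?_)
      push_cast
      ring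
    have h5 : (Nat.lcmUpto (12 * n) : ℝ) ≤ (C : ℝ) ^ n :=
      h4.trans (pow_le_pow_left₀ (Real.exp_pos _).le hC n)
    have h6 : Nat.lcmUpto (12 * n) ≤ C ^ n := by exact_mod_cast h5
    exact h6.trans (Nat.pow_le_pow_right hC1 (Nat.le_succ n))
  · intro k h1 h2
    exact Finset.dvd_lcm (f := id) (Finset.mem_Icc.2 ⟨h1, h2⟩)

end Pool.Agent.Lib.MP_47914d_nt.BD
end
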