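import Pool.Agent.Lib.MP_47914d_nt.BD.Spec
import Pool.Agent.Lib.MP_f11a48_ag.GF.Eval

set_option autoImplicit false

/-!
Module NUM: the values of the power series.
-/

namespace Pool.Agent.Lib.MP_47914d_nt.BD

open scoped PowerSeries
open Pool.Agent.Lib.MPf11a48.GF (zq IsG pval peval specEval)
open Pool.Agent.Lib.MPf11a48.GF.EstM (Sm)

namespace NUMM

/-- convergence and value -/
def E (x : ℂ) (f : ℚ⟦X⟧) (v : ℂ) : Prop := Sm f x ∧ pval f x = v

variable {x : ℂ} {f g : ℚ⟦X⟧} {v w : ℂ}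

theorem E.add (hf : E x f v) (hg : E x g w) : E x (f + g) (v + w) := by
  have h := specEval.2.1 f g x hf.1 hg.1
  exact ⟨hf.1.add hg.1, by rw [h.1, hf.2, hg.2]⟩

theorem E.mul (hf : E x f v) (hg : E x g w) : E x (f * g) (v * w) := by
  have h := specEval.2.1 f g x hf.1 hg.1
  exact ⟨h.2.2, by rw [h.2.1, hf.2, hg.2]⟩

theorem E.poly (x : ℂ) (p : Polynomial ℚ) : E x (p : ℚ⟦X⟧) (Polynomial.aeval x p) :=
  specEval.2.2.1 p x

theorem E.const (x : ℂ) (a : ℚ) : E x (PowerSeries.C a) (a : ℂ) := by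
  have h := E.poly x (Polynomial.C a)
  rw [Polynomial.coe_C, Polynomial.aeval_C] at h
  exact h

theorem E.nat (x : ℂ) (n : ℕ) [n.AtLeastTwo] : E x (OfNat.ofNat n : ℚ⟦X⟧) (OfNat.ofNat n : ℂ) := by
  have h := E.const x (OfNat.ofNat n : ℚ)
  rw [map_ofNat] at h
  simpa using h

theorem E.one (x : ℂ) : E x (1 : ℚ⟦X⟧) 1 := by
  have h := E.const x 1
  rw [map_one] at h
  simpa using h

theorem E.X (x : ℂ) : E x (PowerSeries.X : ℚ⟦X⟧) x := by
  have h := E.poly x Polynomial.X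
  rw [Polynomial.coe_X, Polynomial.aeval_X] at h
  exact h

theorem E.neg (hf : E x f v) : E x (-f) (-v) := by
  have h := (E.const x (-1)).mul hf
  rw [map_neg, map_one, neg_one_mul] at h
  simpa using h

theorem E.sub (hf : E x f v) (hg : E x g w) : E x (f - g) (v - w) := by
  rw [sub_eq_add_neg, sub_eq_add_neg]
  exact hf.add hg.neg

theorem E.pow (hf : E x f v) (n : ℕ) : E x (f ^ n) (v ^ n) := by
  induction n with
  | zero => rw [pow_zero, pow_zero]; exact E.one x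
  | succ n ih => rw [pow_succ, pow_succ]; exact ih.mul hf

theorem E.eq (hf : E x f v) (hg : E x g w) (h : f = g) : v = w := by
  rw [← hf.2, ← hg.2, h]

theorem coeff_th (f : ℚ⟦X⟧) (n : ℕ) : PowerSeries.coeff n (th f) = n * PowerSeries.coeff n f := by
  unfold th
  cases n with
  | zero => simp
  | succ n =>
    rw [PowerSeries.coeff_succ_X_mul, PowerSeries.coeff_derivative]
    push_cast
    ring

/-- growth of the coefficients -/
def Gr (C : ℕ) (f : ℚ⟦X⟧) : Prop := ∀ n, |PowerSeries.coeff n f| ≤ (C : ℚ) ^ (n + 1)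

theorem Gr.mono {C C' : ℕ} (h : Gr C f) (hC : C ≤ C') : Gr C' f := fun n =>
  (h n).trans (pow_le_pow_left₀ (by positivity) (by exact_mod_cast hC) _)

theorem Gr.th {C : ℕ} (h : Gr C f) : Gr (2 * C) (th f) := by
  intro n
  rw [coeff_th, abs_mul]
  have h1 : |(n : ℚ)| ≤ 2 ^ (n + 1) := by
    rw [Nat.abs_cast]
    have : n ≤ 2 ^ (n + 1) := (Nat.lt_two_pow_self (n := n)).le.trans
      (Nat.pow_le_pow_right (by norm_num) (Nat.le_succ n))
    exact_mod_cast this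
  push_cast
  rw [mul_pow]
  exact mul_le_mul h1 (h n) (abs_nonneg _) (by positivity)

theorem Gr.sm {C : ℕ} (h : Gr C f) (hx : 2 * C * ‖x‖ ≤ 1) : Sm f x := specEval.1 f C x h hx

/-- differentiation -/
theorem deriv_pval {C : ℕ} (hC : 1 ≤ C) (h : Gr C f) (hx : 4 * C * ‖x‖ < 1) :
    ∃ f' : ℂ, HasDerivAt (pval f) f' x ∧ x * f' = pval (th f) x := by
  have hC0 : (0 : ℝ) < C := by exact_mod_cast hC
  set R : ℝ := 1 / (4 * C) with hR
  have hR0 : 0 < R := by positivity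
  have hxR : x ∈ Metric.ball (0 : ℂ) R := by
    rw [mem_ball_zero_iff, hR, lt_div_iff₀ (by positivity)]
    linarith
  set g' : ℕ → ℂ → ℂ := fun n y => ((PowerSeries.coeff n f : ℚ) : ℂ) * (n * y ^ (n - 1)) with hg'
  have hsum : Summable fun n : ℕ => (4 * (C : ℝ) ^ 2) * (1 / 2 : ℝ) ^ n :=
    Summable.mul_left _ (summable_geometric_of_lt_one (by norm_num) (by norm_num))
  have hbd : ∀ n y, y ∈ Metric.ball (0 : ℂ) R → ‖g' n y‖ ≤ (4 * (C : ℝ) ^ 2) * (1 / 2 : ℝ) ^ n := by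
    intro n y hy
    rw [mem_ball_zero_iff] at hy
    cases n with
    | zero => simp [hg']
    | succ n =>
      simp only [hg', norm_mul, norm_pow, Nat.add_sub_cancel]
      have h1 : ‖((PowerSeries.coeff (n + 1) f : ℚ) : ℂ)‖ ≤ (C : ℝ) ^ (n + 1 + 1) := by
        rw [Complex.norm_ratCast]
        have := h (n + 1)
        exact_mod_cast this
      have h2 : ‖((n + 1 : ℕ) : ℂ)‖ ≤ 2 ^ (n + 1) := by
        rw [Complex.norm_natCast]
        have : n + 1 ≤ 2 ^ (n + 1) := (Nat.lt_two_pow_self (n := n + 1)).le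
        exact_mod_cast this
      have h3 : ‖y‖ ^ n ≤ R ^ n := pow_le_pow_left₀ (norm_nonneg _) hy.le n
      calc ‖((PowerSeries.coeff (n + 1) f : ℚ) : ℂ)‖ * (‖((n + 1 : ℕ) : ℂ)‖ * ‖y‖ ^ n)
          ≤ (C : ℝ) ^ (n + 1 + 1) * (2 ^ (n + 1) * R ^ n) := by
            refine mul_le_mul h1 (mul_le_mul h2 h3 (by positivity) (by positivity))
              (by positivity) (by positivity)
        _ = (4 * (C : ℝ) ^ 2) * (1 / 2 : ℝ) ^ (n + 1) := by
            have e1 : (C : ℝ) ^ (n + 1 + 1) * (2 ^ (n + 1) * R ^ n) =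
                2 * (C : ℝ) ^ 2 * (2 * C * R) ^ n := by
              rw [mul_pow, mul_pow]
              ring
            have e2 : 2 * (C : ℝ) * R = 1 / 2 := by
              rw [hR]
              field_simp
              norm_num
            rw [e1, e2]
            ring
  have hder := hasDerivAt_tsum_of_isPreconnected (u := fun n : ℕ => (4 * (C : ℝ) ^ 2) *
      (1 / 2 : ℝ) ^ n) (g := fun n (y : ℂ) => ((PowerSeries.coeff n f : ℚ) : ℂ) * y ^ n)
    (g' := g') hsum Metric.isOpen_ball (convex_ball (0 : ℂ) R).isPreconnected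
    (fun n y _ => (hasDerivAt_pow n y).const_mul _) hbd
    (Metric.mem_ball_self hR0) (by
      refine (specEval.1 f C 0 h (by simp)).of_norm) hxR
  refine ⟨∑' n, g' n x, hder, ?_⟩
  rw [← tsum_mul_left]
  unfold pval
  refine tsum_congr fun n => ?_
  rw [coeff_th]
  cases n with
  | zero => simp [hg']
  | succ n =>
    simp only [hg', Nat.add_sub_cancel]
    push_cast
    ring

theorem pval_at_zero (f : ℚ⟦X⟧) : pval f 0 = ((PowerSeries.coeff 0 f : ℚ) : ℂ) := by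
  unfold pval
  rw [tsum_eq_single 0 (fun n hn => by rw [zero_pow hn, mul_zero]), pow_zero, mul_one]

end NUMM

open NUMM in
theorem specNUM (hyp : SpecHyp) (int : SpecInt) : SpecNum := by
  obtain ⟨C0, hC0⟩ := int.five
  have hgr : ∀ i, Gr C0 ((![Fs, th Fs, Gs, th Gs, us] : Fin 5 → ℚ⟦X⟧) i) := fun i n => by
    obtain ⟨q, -, -, -, h⟩ := hC0 n
    exact h i
  set C := C0 + 1 with hC
  have gF : Gr C Fs := (hgr 0).mono (Nat.le_succ _)
  have gF1 : Gr C (th Fs) := (hgr 1).mono (Nat.le_succ _)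
  have gG : Gr C Gs := (hgr 2).mono (Nat.le_succ _)
  have gG1 : Gr C (th Gs) := (hgr 3).mono (Nat.le_succ _)
  have gU : Gr C us := (hgr 4).mono (Nat.le_succ _)
  have hF0 : Fs ≠ 0 := by
    intro h
    have := congrArg (PowerSeries.coeff 0) h
    rw [Fs, PowerSeries.coeff_mk] at this
    simp [aq] at this
  obtain ⟨K, hK⟩ := specEval.2.2.2 Fs C gF hF0
  set M : ℝ := 8 * C + 3456 + K with hM
  have hCpos : (0 : ℝ) < C := by rw [hC]; positivity
  have hM0 : 0 < M := by positivity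
  have key : ∀ x : ℂ, ‖x‖ < 1 / M → M * ‖x‖ < 1 := fun x hx => by
    rw [lt_div_iff₀ hM0] at hx
    linarith
  have k1 : ∀ x : ℂ, ‖x‖ < 1 / M → 2 * C * ‖x‖ ≤ 1 := fun x hx => by
    have h1 := key x hx
    have h2 : 2 * C * ‖x‖ ≤ M * ‖x‖ := mul_le_mul_of_nonneg_right (by
      rw [hM]
      have : (0 : ℝ) ≤ K := Nat.cast_nonneg _
      linarith) (norm_nonneg _)
    linarith
  have k2 : ∀ x : ℂ, ‖x‖ < 1 / M → 4 * C * ‖x‖ < 1 := fun x hx => by
    have h1 := key x hx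
    have h2 : 4 * C * ‖x‖ ≤ M * ‖x‖ := mul_le_mul_of_nonneg_right (by
      rw [hM]
      have : (0 : ℝ) ≤ K := Nat.cast_nonneg _
      linarith) (norm_nonneg _)
    linarith
  have k3 : ∀ x : ℂ, ‖x‖ < 1 / M → 3456 * ‖x‖ < 1 := fun x hx => by
    have h1 := key x hx
    have h2 : 3456 * ‖x‖ ≤ M * ‖x‖ := mul_le_mul_of_nonneg_right (by
      rw [hM]
      have : (0 : ℝ) ≤ K := Nat.cast_nonneg _
      linarith) (norm_nonneg _)
    linarith
  have k4 : ∀ x : ℂ, ‖x‖ < 1 / M → K * ‖x‖ ≤ 1 := fun x hx => by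
    have h1 := key x hx
    have h2 : K * ‖x‖ ≤ M * ‖x‖ := mul_le_mul_of_nonneg_right (by
      rw [hM]
      linarith) (norm_nonneg _)
    linarith
  have k5 : ∀ x : ℂ, ‖x‖ < 1 / M → 2 * ((2 * C : ℕ) : ℝ) * ‖x‖ ≤ 1 := fun x hx => by
    have h1 := k2 x hx
    push_cast
    linarith
  have hC1 : 1 ≤ C := Nat.le_add_left _ _
  -- evaluations
  have eF : ∀ x : ℂ, ‖x‖ < 1 / M → E x Fs (pval Fs x) := fun x hx => ⟨gF.sm (k1 x hx), rfl⟩
  have eF1 : ∀ x : ℂ, ‖x‖ < 1 / M → E x (th Fs) (pval (th Fs) x) :=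
    fun x hx => ⟨gF1.sm (k1 x hx), rfl⟩
  have eG : ∀ x : ℂ, ‖x‖ < 1 / M → E x Gs (pval Gs x) := fun x hx => ⟨gG.sm (k1 x hx), rfl⟩
  have eG1 : ∀ x : ℂ, ‖x‖ < 1 / M → E x (th Gs) (pval (th Gs) x) :=
    fun x hx => ⟨gG1.sm (k1 x hx), rfl⟩
  have eU : ∀ x : ℂ, ‖x‖ < 1 / M → E x us (pval us x) := fun x hx => ⟨gU.sm (k1 x hx), rfl⟩
  have eF2 : ∀ x : ℂ, ‖x‖ < 1 / M → E x (th (th Fs)) (pval (th (th Fs)) x) :=
    fun x hx => ⟨gF1.th.sm (k5 x hx), rfl⟩
  have eG2 : ∀ x : ℂ, ‖x‖ < 1 / M → E x (th (th Gs)) (pval (th (th Gs)) x) :=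
    fun x hx => ⟨gG1.th.sm (k5 x hx), rfl⟩
  have eU1 : ∀ x : ℂ, ‖x‖ < 1 / M → E x (th us) (pval (th us) x) :=
    fun x hx => ⟨gU.th.sm (k5 x hx), rfl⟩
  have eP : ∀ x : ℂ, E x (1 - 1728 * PowerSeries.X) (1 - 1728 * x) := fun x =>
    (E.one x).sub ((E.nat x 1728).mul (E.X x))
  have hu4 : ∀ x : ℂ, ‖x‖ < 1 / M → pval us x ^ 4 = 1 - 1728 * x := fun x hx =>
    ((eU x hx).pow 4).eq (eP x) hyp.u4
  refine ⟨1 / M, ⟨by positivity, ?_, ?_, ?_, ?_, ?_, ?_, ?_, hu4, ?_, ?_, ?_⟩⟩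
  · rw [mul_one_div, div_le_iff₀ hM0, hM]
    have : (0 : ℝ) ≤ K := Nat.cast_nonneg _
    linarith
  · exact fun x hx => ⟨(eF x hx).1, (eF1 x hx).1, (eG x hx).1, (eG1 x hx).1, (eU x hx).1⟩
  · exact fun x hx => deriv_pval hC1 gF (k2 x hx)
  · intro x hx
    obtain ⟨f', h1, h2⟩ := deriv_pval hC1 gF1 (k2 x hx)
    refine ⟨f', h1, ?_⟩
    rw [h2]
    exact ((eP x).mul (eF2 x hx)).eq
      ((((E.nat x 864).mul (E.X x)).mul (eF1 x hx)).add
        (((E.nat x 60).mul (E.X x)).mul (eF x hx))) hyp.odeF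
  · exact fun x hx => deriv_pval hC1 gG (k2 x hx)
  · intro x hx
    obtain ⟨f', h1, h2⟩ := deriv_pval hC1 gG1 (k2 x hx)
    refine ⟨f', h1, ?_⟩
    rw [h2]
    exact ((eP x).mul ((eG2 x hx).add ((E.nat x 2).mul (eF1 x hx)))).eq
      ((((E.nat x 864).mul (E.X x)).mul ((eG1 x hx).add (eF x hx))).add
        (((E.nat x 60).mul (E.X x)).mul (eG x hx))) hyp.odeG
  · intro x hx
    obtain ⟨f', h1, h2⟩ := deriv_pval hC1 gU (k2 x hx)
    refine ⟨f', h1, ?_⟩
    rw [h2]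
    exact ((eP x).mul (eU1 x hx)).eq
      ((((E.nat x 432).mul (E.X x)).mul (eU x hx)).neg) hyp.odeU
  · intro x hx
    exact (((eU x hx).pow 2).mul (((eF x hx).mul ((eG1 x hx).add (eF x hx))).sub
      ((eG x hx).mul (eF1 x hx)))).eq (E.one x) hyp.wr
  · intro x hx
    refine ⟨?_, ?_⟩
    · by_cases h0 : x = 0
      · rw [h0, pval_at_zero, Fs, PowerSeries.coeff_mk]
        simp [aq]
      · exact hK x h0 (k4 x hx)
    · intro h0
      have h1 := hu4 x hx
      rw [h0] at h1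
      have h2 : 1728 * x = 1 := by linear_combination h1
      have h3 : 1728 * ‖x‖ = 1 := by
        have := congrArg norm h2
        rw [norm_mul, norm_one] at this
        simpa using this
      have h4 := k3 x hx
      have h5 := norm_nonneg x
      linarith
  · refine ⟨?_, ?_, ?_, ?_, ?_⟩
    · rw [pval_at_zero, Fs, PowerSeries.coeff_mk]
      simp [aq]
    · rw [pval_at_zero, coeff_th]
      simp
    · rw [pval_at_zero, Gs, PowerSeries.coeff_mk]
      simp [hq]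
    · rw [pval_at_zero, coeff_th]
      simp
    · rw [pval_at_zero, us, PowerSeries.coeff_mk]
      simp [uq]

end Pool.Agent.Lib.MP_47914d_nt.BD
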