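import Pool.Agent.Lib.MP_47914d_nt.BD.Spec
import Pool.Agent.Lib.MP_47914d_nt.Defs3
import Pool.Agent.Lib.MP_f11a48_ag.GF.Eval
import Pool.Agent.Lib.MP_f11a48_ag.CG.Exq
import Pool.Agent.Lib.MP_47914d_nt.BD.Spec2
import Pool.Agent.Lib.TranscendentalPi
import Pool.Agent.Lib.MP_f11a48_ag.CG.Trf
import Pool.Agent.Lib.MP_f11a48_ag.CG.Pnm
import Pool.Agent.Lib.MP_f11a48_ag.CG.Bnm
import Pool.Agent.Lib.MP_f11a48_ag.CG.Val
import Pool.Agent.Lib.MP_f11a48_ag.CG.Blk
import Pool.Agent.Lib.MP_f11a48_ag.CG.Trq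

section
/-!
# Module FIN: the theorem
-/
set_option autoImplicit false

namespace Pool.Agent.Lib.MP_47914d_nt.BD

open Polynomial Matrix Filter Topology
open scoped PowerSeries
open Pool.Agent.Lib.MPf11a48.GF (zq IsG pval peval specEval)
open Pool.Agent.Lib.MPf11a48.GF.EstM (Sm)
open Pool.Agent.Lib.MPf11a48.CF (vm)
open Pool.Agent.Lib.MPf11a48.CG (trf pm trm FamT IsSS pevalC gY GoodP bd StatementJ TrS)
open Pool.Agent.Lib.MPf11a48.GL2 (lie)
open Pool.Agent.Lib.MPf11a48.K3 (cx)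

namespace FINM

/-- the family -/
theorem fam (hSys : SpecSys) (hSl : SpecSl) (hMon : SpecMon) : FamT Ts Bs Ns ps Ys SL where
  ne := hSys.ne
  sol := hSys.sol
  g := hSys.g
  pol := hSys.pol
  mon := hMon
  tor := by
    have key : ∀ {R : Type} [CommRing R] [Algebra ℚ R] (M : Matrix (Fin 2) (Fin 2) R),
        MvPolynomial.aeval (fun v : Fin 2 × Fin 2 => M v.1 v.2)
          (MvPolynomial.X (0, 0) * MvPolynomial.X (1, 1) -
            MvPolynomial.X (0, 1) * MvPolynomial.X (1, 0) :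
            MvPolynomial (Fin 2 × Fin 2) ℚ) = M.det := by
      intro R _ _ M
      rw [map_sub, map_mul, map_mul, MvPolynomial.aeval_X, MvPolynomial.aeval_X,
        MvPolynomial.aeval_X, MvPolynomial.aeval_X, Matrix.det_fin_two]
    refine ⟨1, fun _ => MvPolynomial.X (0, 0) * MvPolynomial.X (1, 1) -
      MvPolynomial.X (0, 1) * MvPolynomial.X (1, 0), fun z z' => ?_, fun _ => ?_⟩
    · rw [hSl.tor z z']
      simp only [key]
      exact ⟨fun h _ => h, fun h => h 0⟩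
    · rw [key, hSys.det]
      exact isAlgebraic_one

theorem cxN : cx Ns = !![0, 0; 1, 0] := by
  ext i j
  fin_cases i <;> fin_cases j <;> simp [cx, Ns]

theorem cxN_sq : cx Ns ^ 2 = 0 := by
  rw [cxN, sq]
  ext i j
  fin_cases i <;> fin_cases j <;> simp [Matrix.mul_apply, Fin.sum_univ_two]

theorem Ns_nil : IsNilpotent Ns := by
  refine ⟨2, ?_⟩
  rw [sq]
  ext i j
  fin_cases i <;> fin_cases j <;> simp [Ns, Matrix.mul_apply, Fin.sum_univ_two]

/-- the exponential -/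
theorem exp_N (t : ℂ) : NormedSpace.exp (t • cx Ns) = !![1, 0; t, 1] := by
  rw [Pool.Agent.Lib.MPf11a48.CG.ExqM.exp_nil cxN_sq, Finset.sum_range_succ, Finset.sum_range_one,
    cxN]
  ext i j
  fin_cases i <;> fin_cases j <;> simp

/-- the values of the entries of `Y` -/
theorem vmY {ρ : ℝ} (hN : Num ρ) {x : ℂ} (hx : ‖x‖ < ρ) :
    vm Ys x = !![pval us x * pval Fs x, pval us x * pval (th Fs) x;
      pval us x * pval Gs x, pval us x * (pval (th Gs) x + pval Fs x)] := by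
  obtain ⟨h1, h2, h3, h4, h5⟩ := hN.sm x hx
  have e := (specEval.2.1 (th Gs) Fs x h4 h1)
  ext i j
  fin_cases i <;> fin_cases j
  · exact (specEval.2.1 us Fs x h5 h1).2.1
  · exact (specEval.2.1 us (th Fs) x h5 h2).2.1
  · exact (specEval.2.1 us Gs x h5 h3).2.1
  · show pval (us * (th Gs + Fs)) x = _
    have h6 : Sm (th Gs + Fs) x := h4.add h1
    rw [(specEval.2.1 us _ x h5 h6).2.1, e.1]
    rfl

/-- the period matrix -/
noncomputable def PM (x : ℂ) : Matrix (Fin 2) (Fin 2) ℂ :=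
  C0s.1 * NormedSpace.exp (Complex.log x • cx Ns) * vm Ys x

theorem C0_val : C0s.1 = !![2 * Real.pi * Complex.I, 0; 0, 1] := rfl

theorem PM_eq {ρ : ℝ} (hN : Num ρ) {x : ℂ} (hx : ‖x‖ < ρ) :
    PM x 0 0 = 2 * Real.pi * Complex.I * (pval us x * pval Fs x) ∧
    PM x 1 0 = zx x * PM x 0 0 ∧ PM x 0 0 ≠ 0 ∧ (PM x).det = 2 * Real.pi * Complex.I := by
  have hπ : (2 * Real.pi * Complex.I : ℂ) ≠ 0 := Complex.two_pi_I_ne_zero
  obtain ⟨hF, hu⟩ := hN.nz x hx
  have e0 : PM x 0 0 = 2 * Real.pi * Complex.I * (pval us x * pval Fs x) := by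
    unfold PM
    rw [exp_N, vmY hN hx, C0_val]
    simp [Matrix.mul_apply, Fin.sum_univ_two]
  have e1 : PM x 1 0 = Complex.log x * (pval us x * pval Fs x) + pval us x * pval Gs x := by
    unfold PM
    rw [exp_N, vmY hN hx, C0_val]
    simp [Matrix.mul_apply, Fin.sum_univ_two]
  refine ⟨e0, ?_, ?_, ?_⟩
  · rw [e1, e0]
    unfold zx
    field_simp
  · rw [e0]
    exact mul_ne_zero hπ (mul_ne_zero hu hF)
  · unfold PM
    rw [Matrix.det_mul, Matrix.det_mul, exp_N, vmY hN hx, C0_val, Matrix.det_fin_two_of,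
      Matrix.det_fin_two_of, Matrix.det_fin_two_of]
    have := hN.wr x hx
    linear_combination 2 * Real.pi * Complex.I * this

/-- the blocks -/
theorem blk_unit {n : ℕ} (M : Fin n → GL (Fin 2) ℂ) :
    ∃ c : GL (Fin 2 × Fin n) ℂ, c.1 = blockDiagonal fun i => (M i).1 := by
  refine ⟨⟨blockDiagonal fun i => (M i).1, blockDiagonal fun i => (M i)⁻¹.1, ?_, ?_⟩, rfl⟩
  · rw [← blockDiagonal_mul]
    have h : (fun i => (M i).1 * (M i)⁻¹.1) = 1 := by
      funext i
      exact (M i).mul_inv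
    rw [h, blockDiagonal_one]
  · rw [← blockDiagonal_mul]
    have h : (fun i => (M i)⁻¹.1 * (M i).1) = 1 := by
      funext i
      exact (M i).inv_mul
    rw [h, blockDiagonal_one]

/-- the size of `a / (b + m a)` -/
theorem small {k m : ℕ} {ρ : ℝ} (hρ : 0 < ρ) {C : ℕ} (hC : (k : ℝ) + 1 + ρ⁻¹ ≤ C) (hm : m < k)
    {a b : ℤ} (ha : a ≠ 0) (hb : (C : ℤ) * |a| ≤ b) :
    (b : ℂ) + m * a ≠ 0 ∧ (a : ℂ) / (b + m * a) ≠ 0 ∧ ‖(a : ℂ) / (b + m * a)‖ < ρ := by
  have ha1 : (1 : ℝ) ≤ |(a : ℝ)| := by exact_mod_cast Int.one_le_abs ha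
  have hb' : (C : ℝ) * |(a : ℝ)| ≤ b := by exact_mod_cast hb
  have hmk : (m : ℝ) ≤ k := by exact_mod_cast hm.le
  have hρ' : 0 < ρ⁻¹ := inv_pos.2 hρ
  have h1 : -((m : ℝ) * |(a : ℝ)|) ≤ m * a := by
    have := neg_abs_le (a : ℝ)
    nlinarith [Nat.cast_nonneg (α := ℝ) m]
  have h2 : (1 + ρ⁻¹) * |(a : ℝ)| ≤ b + m * a := by nlinarith
  have h3 : 0 < (b : ℝ) + m * a := by nlinarith
  have h4 : (b : ℂ) + m * a = ((b + m * a : ℝ) : ℂ) := by push_cast; rfl
  have h5 : (b : ℂ) + m * a ≠ 0 := by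
    rw [h4]
    exact_mod_cast h3.ne'
  refine ⟨h5, div_ne_zero (by exact_mod_cast ha) h5, ?_⟩
  rw [norm_div, h4, Complex.norm_real, Real.norm_eq_abs, abs_of_pos h3, Complex.norm_intCast,
    div_lt_iff₀ h3]
  have h6 : |(a : ℝ)| < ρ * ((1 + ρ⁻¹) * |(a : ℝ)|) := by
    have h7 : ρ * ((1 + ρ⁻¹) * |(a : ℝ)|) = ρ * |(a : ℝ)| + |(a : ℝ)| := by
      field_simp
    rw [h7]
    nlinarith
  exact h6.trans_le (mul_le_mul_of_nonneg_left h2 hρ.le)

end FINM

open FINM in
theorem specFIN : SpecFin := by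
  intro hJ hInj hSys hSl hNum hLnk hMon hHom D δ k
  obtain ⟨ρ₁, hN⟩ := hNum
  obtain ⟨ρ₂, hρ₂, hL⟩ := hLnk
  obtain ⟨C₁, hC₁⟩ := hJ (Fin 2) Ts Bs Ys SL SL ps ps Ns C0s 1 δ (k * D) k 2 hSl.ss hSl.iso
    (by rw [ps, Matrix.det_fin_two_of]; norm_num) hSl.ss.closed hSl.conj (fam hSys hSl hMon)
    hSl.per Ns_nil hSl.lie (Or.inr (Or.inl hSl.trS)) k
  set ρ := min ρ₁ ρ₂ with hρ
  have hρ0 : 0 < ρ := lt_min hN.pos hρ₂
  obtain ⟨C₂, hC₂⟩ := exists_nat_ge ((k : ℝ) + 1 + ρ⁻¹)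
  refine ⟨C₁ + C₂ + 1, fun a b ha hb => ?_⟩
  have ha1 : (1 : ℤ) ≤ |a| := Int.one_le_abs ha
  have hmono : ∀ C : ℕ, C ≤ C₁ + C₂ + 1 → (C : ℤ) * |a| ^ C ≤ b := by
    intro C hC
    refine le_trans ?_ hb
    have h1 : |a| ^ C ≤ |a| ^ (C₁ + C₂ + 1) := pow_le_pow_right₀ ha1 hC
    have h2 : (C : ℤ) ≤ ((C₁ + C₂ + 1 : ℕ) : ℤ) := by exact_mod_cast hC
    exact mul_le_mul h2 h1 (by positivity) (by positivity)
  have hb2 : (C₂ : ℤ) * |a| ≤ b := by
    refine le_trans ?_ hb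
    have h1 : |a| ≤ |a| ^ (C₁ + C₂ + 1) := le_self_pow₀ ha1 (by omega)
    have h2 : (C₂ : ℤ) ≤ ((C₁ + C₂ + 1 : ℕ) : ℤ) := by push_cast; omega
    exact mul_le_mul h2 h1 (by positivity) (by positivity)
  obtain ⟨E, hE, hgood⟩ := hC₁ a b ha (hmono C₁ (by omega))
  refine ⟨E, hE, fun n m z hm hmk hz K hK hδ P hP hPD hP0 => hP ?_⟩
  -- the points
  have hx : ∀ i, (b : ℂ) + m i * a ≠ 0 ∧ (a : ℂ) / (b + m i * a) ≠ 0 ∧
      ‖(a : ℂ) / (b + m i * a)‖ < ρ := fun i => small hρ0 hC₂ (hmk i).1 ha hb2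
  set x : Fin n → ℂ := fun i => (a : ℂ) / (b + m i * a) with hxd
  have hPM := fun i => PM_eq hN ((hx i).2.2.trans_le (min_le_left _ _))
  have hdet : ∀ i, (PM (x i)).det ≠ 0 := fun i => by
    rw [(hPM i).2.2.2]
    exact Complex.two_pi_I_ne_zero
  set M : Fin n → GL (Fin 2) ℂ := fun i =>
    Matrix.GeneralLinearGroup.mkOfDetNeZero (PM (x i)) (hdet i) with hM
  have hMv : ∀ i, (M i).1 = PM (x i) := fun i => rfl
  -- the points of the upper half plane
  have hrep : ∀ i, ∃ p q r s : ℤ, p * s - q * r = 1 ∧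
      ((r : ℂ) * zx (x i) + s) * z i = p * zx (x i) + q := by
    intro i
    obtain ⟨h1, h2, -⟩ := hL (x i) (hx i).2.1 ((hx i).2.2.trans_le (min_le_right _ _))
    apply hInj (zx (x i)) (z i) h1 (hz i).1
    rw [h2, (hz i).2, hxd]
    have hac : (a : ℂ) ≠ 0 := by exact_mod_cast ha
    have := (hx i).1
    field_simp
  choose p q r s hdet1 hzz using hrep
  have hzim : ∀ i, 0 < (zx (x i)).im := fun i =>
    (hL (x i) (hx i).2.1 ((hx i).2.2.trans_le (min_le_right _ _))).1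
  have hden : ∀ i, (r i : ℂ) * zx (x i) + s i ≠ 0 := by
    intro i h
    have h1 := congrArg Complex.im h
    have h2 : (r i : ℝ) * (zx (x i)).im = 0 := by simpa using h1
    have h3 : (r i : ℝ) = 0 := by
      rcases mul_eq_zero.1 h2 with h3 | h3
      · exact h3
      · exact absurd h3 (hzim i).ne'
    have h4 : r i = 0 := by exact_mod_cast h3
    rw [h4] at h
    have h5 : s i = 0 := by
      have h6 : (s i : ℂ) = 0 := by simpa using h
      exact_mod_cast h6
    have h7 := hdet1 i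
    rw [h4, h5] at h7
    simp at h7
  refine hHom n D K P M (fun i => !![p i, q i; r i, s i]) z hPD (fun i => ?_) (fun i => ?_)
    (fun i => ?_) hP0 ?_
  · rw [Matrix.det_fin_two_of]
    exact hdet1 i
  · rw [hMv]
    show (r i : ℂ) * PM (x i) 1 0 + (s i : ℂ) * PM (x i) 0 0 ≠ 0
    rw [(hPM i).2.1, ← mul_assoc, ← add_mul]
    exact mul_ne_zero (hden i) (hPM i).2.2.1
  · rw [hMv]
    show z i * ((r i : ℂ) * PM (x i) 1 0 + (s i : ℂ) * PM (x i) 0 0) =
      (p i : ℂ) * PM (x i) 1 0 + (q i : ℂ) * PM (x i) 0 0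
    rw [(hPM i).2.1]
    linear_combination PM (x i) 0 0 * hzz i
  · intro Q hQ hQ0 g hg
    rcases Nat.eq_zero_or_pos n with hn | hn
    · subst hn
      rw [← hQ0]
      congr 2
      funext v
      exact v.1.2.elim0
    -- `n ≤ k`
    have hnk : n ≤ k := by
      have h1 : Function.Injective fun i : Fin n => (⟨m i, (hmk i).1⟩ : Fin k) := by
        intro i j hij
        exact hm (by simpa using hij)
      simpa using Fintype.card_le_of_injective _ h1
    obtain ⟨c, hc⟩ := blk_unit M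
    obtain ⟨G, hG⟩ := blk_unit g
    have hGb : G ∈ bd SL n := ⟨g, hg, hG⟩
    have h1 := hgood n hn hnk m hm hmk K hK hδ 1 c (by
      rw [hc, Matrix.map_one _ (by simp) (by simp), Matrix.mul_one]
      rfl)
    obtain ⟨-, h2⟩ := h1.1 G hGb
    have h3 := h2 Q (hQ.trans (Nat.mul_le_mul_right D hnk)) (by
      rw [← hQ0]
      simp only [hc])
    rw [← h3]
    have h4 : (G * c).1 = blockDiagonal fun i => (g i * M i).1 := by
      rw [Units.val_mul, hG, hc, ← blockDiagonal_mul]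
      rfl
    simp only [h4]

end Pool.Agent.Lib.MP_47914d_nt.BD
end

section
/-!
# Module FIN2: the theorem with derivatives
-/
set_option autoImplicit false

namespace Pool.Agent.Lib.MP_47914d_nt.BD

open Polynomial Matrix Filter Topology
open scoped PowerSeries
open Pool.Agent.Lib.MPf11a48.GF (zq IsG pval peval specEval)
open Pool.Agent.Lib.MPf11a48.GF.EstM (Sm)
open Pool.Agent.Lib.MPf11a48.CF (vm)
open Pool.Agent.Lib.MPf11a48.CG (trf pm trm FamT IsSS pevalC gY GoodP bd StatementJ TrS)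
open Pool.Agent.Lib.MPf11a48.GL2 (lie)
open Pool.Agent.Lib.MPf11a48.K3 (cx)

namespace FIN2M

open FINM

/-- the entry `(0, 1)` of the period matrix -/
theorem PM_01 {ρ : ℝ} (hN : Num ρ) {x : ℂ} (hx : ‖x‖ < ρ) :
    PM x 0 1 = 2 * Real.pi * Complex.I * (pval us x * pval (th Fs) x) := by
  unfold PM
  rw [exp_N, vmY hN hx, C0_val]
  simp [Matrix.mul_apply, Fin.sum_univ_two]

/-- the derivatives of `j` in terms of the period matrix -/
theorem derivs {ρ : ℝ} (hN : Num ρ) {x : ℂ} (hx : ‖x‖ < ρ) (hx0 : x ≠ 0) {p q r s : ℤ} {z : ℂ}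
    (hz : ((r : ℂ) * zx x + s) * z = p * zx x + q)
    (h1 : deriv Jc (zx x) = -(2 * Real.pi * Complex.I) * (pval us x * pval Fs x) ^ 2 / x)
    (h2 : deriv (deriv Jc) (zx x) = (2 * Real.pi * Complex.I) ^ 2 / x *
      ((1 + 864 * x / (1 - 1728 * x)) * (pval us x * pval Fs x) ^ 4 -
        2 * (pval us x * pval Fs x) ^ 3 * (pval us x * pval (th Fs) x)))
    (h3 : deriv Jc z = ((r : ℂ) * zx x + s) ^ 2 * deriv Jc (zx x))
    (h4 : deriv (deriv Jc) z = ((r : ℂ) * zx x + s) ^ 4 * deriv (deriv Jc) (zx x) +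
      2 * r * ((r : ℂ) * zx x + s) ^ 3 * deriv Jc (zx x)) :
    z * lc !![p, q; r, s] (PM x) 0 = lc !![p, q; r, s] (PM x) 2 ∧
    deriv Jc z * (2 * Real.pi * Complex.I) = -(x⁻¹ * lc !![p, q; r, s] (PM x) 0 ^ 2) ∧
    deriv (deriv Jc) z * (2 * Real.pi * Complex.I) ^ 2 = x⁻¹ *
      ((1 + 864 * x / (1 - 1728 * x)) * lc !![p, q; r, s] (PM x) 0 ^ 4 -
        2 * lc !![p, q; r, s] (PM x) 0 ^ 3 * lc !![p, q; r, s] (PM x) 1) := by
  have hπ : (2 * Real.pi * Complex.I : ℂ) ≠ 0 := Complex.two_pi_I_ne_zero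
  obtain ⟨e0, e1, e2, e3⟩ := PM_eq hN hx
  have e4 := PM_01 hN hx
  set ϖ : ℂ := 2 * Real.pi * Complex.I with hϖ
  set A := pval us x * pval Fs x with hA
  set B := pval us x * pval (th Fs) x with hB
  have hA0 : A ≠ 0 := by
    intro h
    rw [h, mul_zero] at e0
    exact e2 e0
  set v : ℂ := (r : ℂ) * zx x + s with hv
  have l0 : lc !![p, q; r, s] (PM x) 0 = ϖ * A * v := by
    show (r : ℂ) * PM x 1 0 + (s : ℂ) * PM x 0 0 = _
    rw [e1, e0, hv]
    ring
  have l2 : lc !![p, q; r, s] (PM x) 2 = ϖ * A * (p * zx x + q) := by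
    show (p : ℂ) * PM x 1 0 + (q : ℂ) * PM x 0 0 = _
    rw [e1, e0]
    ring
  have l1 : A * lc !![p, q; r, s] (PM x) 1 = ϖ * B * A * v + r := by
    show A * ((r : ℂ) * PM x 1 1 + (s : ℂ) * PM x 0 1) = _
    rw [Matrix.det_fin_two, e1, e0, e4] at e3
    have h5 : A * PM x 1 1 = zx x * A * (ϖ * B) + 1 := by
      apply mul_left_cancel₀ hπ
      linear_combination e3
    rw [e4, hv]
    linear_combination (r : ℂ) * h5
  refine ⟨?_, ?_, ?_⟩
  · rw [l0, l2, ← hz]
    ring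
  · rw [l0, h3, h1]
    field_simp
  · rw [l0, h4, h1, h2]
    have h6 : (ϖ * A * v) ^ 3 * lc !![p, q; r, s] (PM x) 1 =
        ϖ ^ 3 * A ^ 2 * v ^ 3 * (ϖ * B * A * v + r) := by
      rw [← l1]
      ring
    have h7 : 2 * (ϖ * A * v) ^ 3 * lc !![p, q; r, s] (PM x) 1 =
        2 * (ϖ ^ 3 * A ^ 2 * v ^ 3 * (ϖ * B * A * v + r)) := by
      rw [← h6]
      ring
    rw [h7]
    generalize (1 + 864 * x / (1 - 1728 * x)) = lam
    field_simp
    ring

/-- the case `n = 0` -/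
theorem zero_case (K : IntermediateField ℚ ℂ) (hK : FiniteDimensional ℚ K) {σ : Type}
    [IsEmpty σ] (P : MvPolynomial (Option σ) K) (w : σ → ℂ)
    (h : MvPolynomial.aeval (fun o : Option σ => o.elim (2 * Real.pi * Complex.I) w) P = 0) :
    P = 0 := by
  -- `2 π i` is transcendental over `K`
  have htr : Transcendental K (2 * Real.pi * Complex.I : ℂ) := by
    intro halg
    have h1 : IsAlgebraic ℚ (2 * Real.pi * Complex.I : ℂ) := by
      have : Algebra.IsAlgebraic ℚ K := Algebra.IsAlgebraic.of_finite ℚ K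
      exact halg.restrictScalars ℚ
    have h2 : IsAlgebraic ℚ (Complex.I) := by
      refine ⟨X ^ 2 + 1, ?_, ?_⟩
      · intro h0
        have := congrArg (Polynomial.eval 0) h0
        simp at this
      · simp
    have h3 : IsAlgebraic ℚ (2 : ℂ) := isAlgebraic_natCast 2
    have h4 : (Real.pi : ℂ) = (2 * Real.pi * Complex.I) * Complex.I * (2 : ℂ)⁻¹ * (-1) := by
      have := Complex.I_mul_I
      linear_combination (Real.pi : ℂ) * this
    have h5 : IsAlgebraic ℚ (Real.pi : ℂ) := by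
      rw [h4]
      exact ((h1.mul h2).mul h3.inv).mul (isAlgebraic_one.neg)
    exact TranscendentalPi.transcendental_pi h5
  have hai : AlgebraicIndependent K
      (fun o : Option σ => o.elim (2 * Real.pi * Complex.I : ℂ) w) := by
    let _ : Unique (Option σ) := ⟨⟨none⟩, fun o => by
      rcases o with _ | s
      · rfl
      · exact (IsEmpty.false s).elim⟩
    rw [algebraicIndependent_unique_type_iff]
    have hd : (default : Option σ) = none := rfl
    rw [hd]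
    exact htr
  exact (algebraicIndependent_iff.1 hai) P h

end FIN2M

open FINM FIN2M in
theorem specFIN2 : SpecFin2 := by
  intro hJ hInj hSys hSl hNum hLnk hMon hDj hTrj hHom D δ k
  obtain ⟨ρ₁, hN⟩ := hNum
  obtain ⟨ρ₂, hρ₂, hL⟩ := hLnk
  obtain ⟨ρ₃, hρ₃, hDj⟩ := hDj
  obtain ⟨C₁, hC₁⟩ := hJ (Fin 2) Ts Bs Ys SL SL ps ps Ns C0s 1 δ (9 * k * D) k 2 hSl.ss hSl.iso
    (by rw [ps, Matrix.det_fin_two_of]; norm_num) hSl.ss.closed hSl.conj (fam hSys hSl hMon)
    hSl.per Ns_nil hSl.lie (Or.inr (Or.inl hSl.trS)) k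
  set ρ := min ρ₁ (min ρ₂ ρ₃) with hρ
  have hρ0 : 0 < ρ := lt_min hN.pos (lt_min hρ₂ hρ₃)
  have hρ1 : ρ ≤ ρ₁ := min_le_left _ _
  have hρ2 : ρ ≤ ρ₂ := (min_le_right _ _).trans (min_le_left _ _)
  have hρ3 : ρ ≤ ρ₃ := (min_le_right _ _).trans (min_le_right _ _)
  obtain ⟨C₂, hC₂⟩ := exists_nat_ge ((k : ℝ) + 1 + ρ⁻¹)
  refine ⟨C₁ + C₂ + 1, fun a b ha hb => ?_⟩
  have ha1 : (1 : ℤ) ≤ |a| := Int.one_le_abs ha
  have hmono : ∀ C : ℕ, C ≤ C₁ + C₂ + 1 → (C : ℤ) * |a| ^ C ≤ b := by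
    intro C hC
    refine le_trans ?_ hb
    have h1 : |a| ^ C ≤ |a| ^ (C₁ + C₂ + 1) := pow_le_pow_right₀ ha1 hC
    have h2 : (C : ℤ) ≤ ((C₁ + C₂ + 1 : ℕ) : ℤ) := by exact_mod_cast hC
    exact mul_le_mul h2 h1 (by positivity) (by positivity)
  have hb2 : (C₂ : ℤ) * |a| ≤ b := by
    refine le_trans ?_ hb
    have h1 : |a| ≤ |a| ^ (C₁ + C₂ + 1) := le_self_pow₀ ha1 (by omega)
    have h2 : (C₂ : ℤ) ≤ ((C₁ + C₂ + 1 : ℕ) : ℤ) := by push_cast; omega
    exact mul_le_mul h2 h1 (by positivity) (by positivity)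
  obtain ⟨E, hE, hgood⟩ := hC₁ a b ha (hmono C₁ (by omega))
  refine ⟨E, hE, fun n m z hm hmk hz K hK hδ P hP hPD hP0 => hP ?_⟩
  rcases Nat.eq_zero_or_pos n with hn | hn
  · subst hn
    exact zero_case K hK P _ hP0
  -- the points
  have hx : ∀ i, (b : ℂ) + m i * a ≠ 0 ∧ (a : ℂ) / (b + m i * a) ≠ 0 ∧
      ‖(a : ℂ) / (b + m i * a)‖ < ρ := fun i => small hρ0 hC₂ (hmk i).1 ha hb2
  set x : Fin n → ℂ := fun i => (a : ℂ) / (b + m i * a) with hxd
  have hPM := fun i => PM_eq hN ((hx i).2.2.trans_le hρ1)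
  have hdet : ∀ i, (PM (x i)).det ≠ 0 := fun i => by
    rw [(hPM i).2.2.2]
    exact Complex.two_pi_I_ne_zero
  set M : Fin n → GL (Fin 2) ℂ := fun i =>
    Matrix.GeneralLinearGroup.mkOfDetNeZero (PM (x i)) (hdet i) with hM
  have hMv : ∀ i, (M i).1 = PM (x i) := fun i => rfl
  -- the points of the upper half plane
  have hrep : ∀ i, ∃ p q r s : ℤ, p * s - q * r = 1 ∧
      ((r : ℂ) * zx (x i) + s) * z i = p * zx (x i) + q := by
    intro i
    obtain ⟨h1, h2, -⟩ := hL (x i) (hx i).2.1 ((hx i).2.2.trans_le hρ2)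
    apply hInj (zx (x i)) (z i) h1 (hz i).1
    rw [h2, (hz i).2, hxd]
    have hac : (a : ℂ) ≠ 0 := by exact_mod_cast ha
    have := (hx i).1
    field_simp
  choose p q r s hdet1 hzz using hrep
  have hzim : ∀ i, 0 < (zx (x i)).im := fun i =>
    (hL (x i) (hx i).2.1 ((hx i).2.2.trans_le hρ2)).1
  have hden : ∀ i, (r i : ℂ) * zx (x i) + s i ≠ 0 := by
    intro i h
    have h1 := congrArg Complex.im h
    have h2 : (r i : ℝ) * (zx (x i)).im = 0 := by simpa using h1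
    have h3 : (r i : ℝ) = 0 := by
      rcases mul_eq_zero.1 h2 with h3 | h3
      · exact h3
      · exact absurd h3 (hzim i).ne'
    have h4 : r i = 0 := by exact_mod_cast h3
    rw [h4] at h
    have h5 : s i = 0 := by
      have h6 : (s i : ℂ) = 0 := by simpa using h
      exact_mod_cast h6
    have h7 := hdet1 i
    rw [h4, h5] at h7
    simp at h7
  -- the rational numbers
  set xq : Fin n → ℚ := fun i => (a : ℚ) / (b + m i * a) with hxq
  have hxqx : ∀ i, ((xq i : ℚ) : ℂ) = x i := by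
    intro i
    rw [hxq, hxd]
    push_cast
    rfl
  have hder := fun i => derivs hN ((hx i).2.2.trans_le hρ1) (hx i).2.1 (hzz i)
    (hDj (x i) (hx i).2.1 ((hx i).2.2.trans_le hρ3)).1
    (hDj (x i) (hx i).2.1 ((hx i).2.2.trans_le hρ3)).2
    (hTrj (p i) (q i) (r i) (s i) (zx (x i)) (z i) (hdet1 i) (hzim i) (hz i).1 (hzz i)).1
    (hTrj (p i) (q i) (r i) (s i) (zx (x i)) (z i) (hdet1 i) (hzim i) (hz i).1 (hzz i)).2
  refine hHom n D K P M (fun i => !![p i, q i; r i, s i]) (fun i => (xq i)⁻¹)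
    (fun i => 1 + 864 * xq i / (1 - 1728 * xq i))
    (fun i => ![z i, deriv Jc (z i), deriv (deriv Jc) (z i)]) hK hn hPD (fun i => ?_) (fun i => ?_)
    (fun i => ?_) (fun i => ?_) hP0 ?_
  · rw [Matrix.det_fin_two_of]
    exact hdet1 i
  · rw [hMv]
    exact (hPM i).2.2.2
  · have h1 : ((xq i : ℚ) : ℂ) ≠ 0 := by
      rw [hxqx]
      exact (hx i).2.1
    exact inv_ne_zero (by exact_mod_cast h1)
  · rw [hMv]
    have h1 : (((xq i)⁻¹ : ℚ) : ℂ) = (x i)⁻¹ := by
      rw [Rat.cast_inv, hxqx]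
    have h2 : ((1 + 864 * xq i / (1 - 1728 * xq i) : ℚ) : ℂ) =
        1 + 864 * x i / (1 - 1728 * x i) := by
      rw [← hxqx]
      push_cast
      rfl
    refine ⟨?_, (hder i).1, ?_, ?_⟩
    · show (r i : ℂ) * PM (x i) 1 0 + (s i : ℂ) * PM (x i) 0 0 ≠ 0
      rw [(hPM i).2.1, ← mul_assoc, ← add_mul]
      exact mul_ne_zero (hden i) (hPM i).2.2.1
    · show deriv Jc (z i) * (2 * Real.pi * Complex.I) = _
      rw [h1]
      exact (hder i).2.1
    · show deriv (deriv Jc) (z i) * (2 * Real.pi * Complex.I) ^ 2 = _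
      rw [h1, h2]
      exact (hder i).2.2
  · intro Q hQ hQ0 g hg
    -- `n ≤ k`
    have hnk : n ≤ k := by
      have h1 : Function.Injective fun i : Fin n => (⟨m i, (hmk i).1⟩ : Fin k) := by
        intro i j hij
        exact hm (by simpa using hij)
      simpa using Fintype.card_le_of_injective _ h1
    obtain ⟨c, hc⟩ := blk_unit M
    obtain ⟨G, hG⟩ := blk_unit g
    have hGb : G ∈ bd SL n := ⟨g, hg, hG⟩
    have h1 := hgood n hn hnk m hm hmk K hK hδ 1 c (by
      rw [hc, Matrix.map_one _ (by simp) (by simp), Matrix.mul_one]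
      rfl)
    obtain ⟨-, h2⟩ := h1.1 G hGb
    have h3 := h2 Q (hQ.trans (Nat.mul_le_mul_right D (Nat.mul_le_mul_left 9 hnk))) (by
      rw [← hQ0]
      simp only [hc])
    rw [← h3]
    have h4 : (G * c).1 = blockDiagonal fun i => (g i * M i).1 := by
      rw [Units.val_mul, hG, hc, ← blockDiagonal_mul]
      rfl
    simp only [h4]

end Pool.Agent.Lib.MP_47914d_nt.BD
end

section
/-!
# Module FRM: formal algebraic independence from the algebraic independence of the functions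
-/
set_option autoImplicit false

namespace Pool.Agent.Lib.MP_47914d_nt.BD

open Polynomial Matrix Filter Topology
open scoped PowerSeries
open Pool.Agent.Lib.MPf11a48.GF (zq IsG pval peval specEval)
open Pool.Agent.Lib.MPf11a48.GF.EstM (Sm pval_zero)
open Pool.Agent.Lib.MPf11a48.CF (vm)
open Pool.Agent.Lib.MPf11a48.CG (trf pm trm specPnm specBnm specTrf)
open Pool.Agent.Lib.MPf11a48.K3 (cx)

namespace FRMM

/-- the value at a complex number of a polynomial in power series -/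
theorem pval_peval {μ : Type} (v : μ → ℚ⟦X⟧) (z : ℂ) (hv : ∀ i, Sm (v i) z)
    (G : MvPolynomial μ ℚ[X]) :
    Sm (peval v G) z ∧ pval (peval v G) z =
      MvPolynomial.eval₂ (Polynomial.aeval z : ℚ[X] →ₐ[ℚ] ℂ).toRingHom
        (fun i => pval (v i) z) G := by
  induction G using MvPolynomial.induction_on with
  | C p =>
    have h := specEval.2.2.1 p z
    have e : peval v (MvPolynomial.C p) = (p : ℚ⟦X⟧) := by
      unfold peval
      rw [MvPolynomial.eval₂_C]
      rfl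
    rw [e]
    refine ⟨h.1, ?_⟩
    rw [h.2, MvPolynomial.eval₂_C]
    rfl
  | add p q hp hq =>
    have e : peval v (p + q) = peval v p + peval v q := by
      unfold peval
      exact MvPolynomial.eval₂_add _ _
    rw [e]
    refine ⟨Sm.add hp.1 hq.1, ?_⟩
    rw [(specEval.2.1 _ _ _ hp.1 hq.1).1, hp.2, hq.2, MvPolynomial.eval₂_add]
  | mul_X p i hp =>
    have e : peval v (p * MvPolynomial.X i) = peval v p * v i := by
      unfold peval
      rw [MvPolynomial.eval₂_mul, MvPolynomial.eval₂_X]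
    rw [e]
    have h := specEval.2.1 _ _ _ hp.1 (hv i)
    refine ⟨h.2.2, ?_⟩
    rw [h.2.1, hp.2, MvPolynomial.eval₂_mul, MvPolynomial.eval₂_X]

/-- polynomials over `ℚ[X]` as polynomials over `ℂ` with one more variable -/
noncomputable def Ph (σ : Type) : MvPolynomial σ ℚ[X] →+* MvPolynomial (Option σ) ℂ :=
  ((MvPolynomial.optionEquivRight ℂ σ).symm : MvPolynomial σ ℂ[X] →+* MvPolynomial (Option σ) ℂ).comp
    (MvPolynomial.map (Polynomial.mapRingHom (algebraMap ℚ ℂ)))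

theorem Ph_inj (σ : Type) : Function.Injective (Ph σ) := by
  unfold Ph
  rw [RingHom.coe_comp]
  refine Function.Injective.comp ?_ ?_
  · exact (MvPolynomial.optionEquivRight ℂ σ).symm.injective
  · apply MvPolynomial.map_injective
    exact Polynomial.map_injective _ (algebraMap ℚ ℂ).injective

theorem Ph_X {σ : Type} (s : σ) : Ph σ (MvPolynomial.X s) = MvPolynomial.X (some s) := by
  have h : Ph σ (MvPolynomial.X s) = (MvPolynomial.optionEquivRight ℂ σ).symm
      (MvPolynomial.map (Polynomial.mapRingHom (algebraMap ℚ ℂ)) (MvPolynomial.X s)) := rfl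
  rw [h, MvPolynomial.map_X, AlgEquiv.symm_apply_eq, MvPolynomial.optionEquivRight_X_some]

theorem Ph_C {σ : Type} (p : ℚ[X]) :
    Ph σ (MvPolynomial.C p) = Polynomial.aeval (MvPolynomial.X none) p := by
  have h : Ph σ (MvPolynomial.C p) = (MvPolynomial.optionEquivRight ℂ σ).symm
      (MvPolynomial.map (Polynomial.mapRingHom (algebraMap ℚ ℂ)) (MvPolynomial.C p)) := rfl
  rw [h, MvPolynomial.map_C, AlgEquiv.symm_apply_eq]
  have h2 : ∀ q : MvPolynomial (Option σ) ℂ, MvPolynomial.optionEquivRight ℂ σ q =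
    ((MvPolynomial.optionEquivRight ℂ σ).restrictScalars ℚ) q := fun _ => rfl
  rw [h2, ← Polynomial.aeval_algHom_apply]
  change _ = Polynomial.aeval (MvPolynomial.optionEquivRight ℂ σ (MvPolynomial.X none)) p
  rw [MvPolynomial.optionEquivRight_X_none]
  clear h h2
  induction p using Polynomial.induction_on' with
  | add p q hp hq => rw [map_add, map_add, map_add, hp, hq]
  | monomial n a =>
    rw [Polynomial.coe_mapRingHom, Polynomial.map_monomial, Polynomial.aeval_monomial,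
      ← Polynomial.C_mul_X_pow_eq_monomial, map_mul, map_pow]
    rfl

/-- the values -/
theorem eval_Ph {σ : Type} (f : σ → ℂ) (x : ℂ) (Q : MvPolynomial σ ℚ[X]) :
    MvPolynomial.eval (fun o : Option σ => o.elim x f) (Ph σ Q) =
      MvPolynomial.eval₂ (Polynomial.aeval x : ℚ[X] →ₐ[ℚ] ℂ).toRingHom f Q := by
  induction Q using MvPolynomial.induction_on with
  | C p =>
    rw [Ph_C, MvPolynomial.eval₂_C]
    have h : ∀ q : MvPolynomial (Option σ) ℂ,
        MvPolynomial.eval (fun o : Option σ => o.elim x f) q =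
        ((MvPolynomial.aeval (fun o : Option σ => o.elim x f) :
          MvPolynomial (Option σ) ℂ →ₐ[ℂ] ℂ).restrictScalars ℚ) q := fun q => by
      rw [AlgHom.restrictScalars_apply, MvPolynomial.aeval_eq_eval]
    rw [h, ← Polynomial.aeval_algHom_apply, ← h, MvPolynomial.eval_X]
    rfl
  | add p q hp hq =>
    rw [map_add, map_add, hp, hq, MvPolynomial.eval₂_add]
  | mul_X p i hp =>
    rw [map_mul, map_mul, hp, Ph_X, MvPolynomial.eval_X, MvPolynomial.eval₂_mul,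
      MvPolynomial.eval₂_X]
    rfl

theorem bound {μ : Type} {u : μ → ℚ⟦X⟧} (hu : IsG u) :
    ∃ C : ℕ, ∀ i n, |PowerSeries.coeff n (u i)| ≤ (C : ℚ) ^ (n + 1) := by
  obtain ⟨C, hC⟩ := hu
  refine ⟨C, fun i n => ?_⟩
  obtain ⟨q, -, -, -, hq⟩ := hC n
  exact hq i

theorem ev_le (c : ℝ) (hc : 0 < c) : ∀ᶠ z : ℂ in 𝓝 0, ‖z‖ ≤ c := by
  rw [Metric.eventually_nhds_iff]
  exact ⟨c, hc, fun y hy => by rw [dist_zero_right] at hy; exact hy.le⟩

/-- absolute convergence near `0` -/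
theorem sm_ev {μ : Type} {u : μ → ℚ⟦X⟧} (hu : IsG u) :
    ∀ᶠ z : ℂ in 𝓝 0, ∀ i, Sm (u i) z := by
  obtain ⟨C, hC⟩ := bound hu
  filter_upwards [ev_le (1 / (2 * C + 1)) (by positivity)] with z hz i
  refine specEval.1 _ C _ (fun n => hC i n) ?_
  rw [le_div_iff₀ (by positivity)] at hz
  nlinarith [norm_nonneg z]

/-- the values of the translates -/
theorem trf_ev {μ : Type} {u : μ → ℚ⟦X⟧} (hu : IsG u) (m : ℕ) :
    ∀ᶠ z : ℂ in 𝓝 0, ∀ i, pval (trf m (u i)) z = pval (u i) (z / (1 + m * z)) := by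
  obtain ⟨C, hC⟩ := bound hu
  filter_upwards [ev_le ((1 / ((C : ℝ) + 2)) ^ 2 / (m + 1)) (by positivity)] with z hz i
  rw [le_div_iff₀ (by positivity)] at hz
  refine Pool.Agent.Lib.MPf11a48.CG.TrfM.pval_trf m C (u i) (fun n => hC i n) z
    (1 / ((C : ℝ) + 2)) (by positivity) ?_ ?_ (by linarith)
  · rw [div_lt_one (by positivity)]
    have : (0 : ℝ) ≤ C := Nat.cast_nonneg C
    linarith
  · rw [mul_one_div, div_lt_one (by positivity)]
    linarith

/-- `x / (1 + m x)` tends to `0` -/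
theorem tendsto_xm (m : ℕ) : Tendsto (xm m) (𝓝 0) (𝓝 0) := by
  have h1 : ContinuousAt (xm m) 0 := by
    unfold xm
    refine ContinuousAt.div continuousAt_id ?_ (by simp)
    fun_prop
  have h2 : xm m 0 = 0 := by unfold xm; simp
  have h3 := h1.tendsto
  rwa [h2] at h3

theorem N_sq : Ns * Ns = 0 := by
  ext i j
  fin_cases i <;> fin_cases j <;> simp [Ns]

theorem N_nil : IsNilpotent Ns := ⟨2, by rw [pow_two]; exact N_sq⟩

theorem exp_N (l : ℂ) : NormedSpace.exp (-l • cx Ns) = !![1, 0; -l, 1] := by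
  have h0 : cx Ns = !![0, 0; 1, 0] := by
    ext i j
    fin_cases i <;> fin_cases j <;> simp [Ns, cx]
  have h1 : (cx Ns) ^ 2 = 0 := by
    rw [h0, pow_two]
    ext i j
    fin_cases i <;> fin_cases j <;> simp
  rw [Pool.Agent.Lib.MPf11a48.CG.ExqM.exp_nil h1, h0]
  ext i j
  fin_cases i <;> fin_cases j <;> simp [Finset.sum_range_succ]

theorem sm_matmul {A B : Matrix (Fin 2) (Fin 2) ℚ⟦X⟧} {z : ℂ}
    (hA : ∀ p : Fin 2 × Fin 2, Sm (A p.1 p.2) z) (hB : ∀ p : Fin 2 × Fin 2, Sm (B p.1 p.2) z)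
    (p : Fin 2 × Fin 2) : Sm ((A * B) p.1 p.2) z := by
  rw [Matrix.mul_apply]
  exact Sm.sum _ fun k _ => (specEval.2.1 _ _ _ (hA (p.1, k)) (hB (k, p.2))).2.2

theorem trm_ev (hInt : SpecInt) (m : ℕ) : ∀ᶠ x : ℂ in 𝓝 0,
    (∀ p : Fin 2 × Fin 2, Sm (trm m Ns Ys p.1 p.2) x) ∧
    vm (trm m Ns Ys) x = !![1, 0; -(Complex.log (1 + m * x)), 1] * vm Ys (xm m x) := by
  obtain ⟨hP1, hP2⟩ := (specPnm specBnm (Fin 2) m Ns).2.2.2.2.2 N_nil
  have hT := Pool.Agent.Lib.MPf11a48.CG.TrfM.isG_trf m _ _ hInt.Y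
  filter_upwards [sm_ev hP1, sm_ev hT, trf_ev hInt.Y m, ev_le (1 / (m + 1)) (by positivity)]
    with x h1 h2 h3 h4
  have hA : ∀ p : Fin 2 × Fin 2, Sm (pm m Ns p.1 p.2) x := fun p => h1 p
  have hB : ∀ p : Fin 2 × Fin 2, Sm ((Ys.map (trf m)) p.1 p.2) x := fun p => h2 p
  refine ⟨fun p => sm_matmul hA hB p, ?_⟩
  unfold trm
  rw [Pool.Agent.Lib.MPf11a48.CG.ValM.vm_mul hA hB, hP2 x ?_, exp_N]
  · congr 1
    ext i j
    exact h3 (i, j)
  · rw [le_div_iff₀ (by positivity)] at h4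
    rcases eq_or_ne x 0 with rfl | hx
    · simp
    · have : 0 < ‖x‖ := norm_pos_iff.2 hx
      nlinarith

/-- the values of the entries -/
theorem ent_ev (hInt : SpecInt) (m : ℕ) : ∀ᶠ x : ℂ in 𝓝 0, ∀ k : Fin 3,
    Sm (e3 (trm m Ns Ys) k) x ∧ pval (e3 (trm m Ns Ys) k) x = ent m x k := by
  filter_upwards [trm_ev hInt m, (tendsto_xm m).eventually (sm_ev hInt.five)] with x h1 h2
  have sF : Sm Fs (xm m x) := h2 0
  have sF1 : Sm (th Fs) (xm m x) := h2 1
  have sG : Sm Gs (xm m x) := h2 2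
  have su : Sm us (xm m x) := h2 4
  have e00 : vm Ys (xm m x) 0 0 = pval us (xm m x) * pval Fs (xm m x) :=
    (specEval.2.1 _ _ _ su sF).2.1
  have e01 : vm Ys (xm m x) 0 1 = pval us (xm m x) * pval (th Fs) (xm m x) :=
    (specEval.2.1 _ _ _ su sF1).2.1
  have e10 : vm Ys (xm m x) 1 0 = pval us (xm m x) * pval Gs (xm m x) :=
    (specEval.2.1 _ _ _ su sG).2.1
  have f : ∀ i j, pval (trm m Ns Ys i j) x =
      (!![1, 0; -(Complex.log (1 + m * x)), 1] * vm Ys (xm m x)) i j := by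
    intro i j
    rw [← h1.2]
    rfl
  intro k
  fin_cases k
  · refine ⟨h1.1 (0, 0), ?_⟩
    change pval (trm m Ns Ys 0 0) x = pval us (xm m x) * pval Fs (xm m x)
    rw [f, Matrix.mul_apply, Fin.sum_univ_two, e00]
    simp
  · refine ⟨h1.1 (0, 1), ?_⟩
    change pval (trm m Ns Ys 0 1) x = pval us (xm m x) * pval (th Fs) (xm m x)
    rw [f, Matrix.mul_apply, Fin.sum_univ_two, e01]
    simp
  · refine ⟨h1.1 (1, 0), ?_⟩
    change pval (trm m Ns Ys 1 0) x = pval us (xm m x) * pval Gs (xm m x) -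
      Complex.log (1 + m * x) * (pval us (xm m x) * pval Fs (xm m x))
    rw [f, Matrix.mul_apply, Fin.sum_univ_two, e00, e10]
    simp
    ring

end FRMM

open FRMM in
theorem specFrm (hInt : SpecInt) (hInd : SpecInd) : SpecFrm := by
  intro n m hm Q hQ
  apply Ph_inj (Fin n × Fin 3)
  rw [map_zero]
  apply hInd n m hm
  have h1 : ∀ᶠ x : ℂ in 𝓝 0, ∀ i : Fin n, ∀ k : Fin 3,
      Sm (e3 (trm (m i) Ns Ys) k) x ∧ pval (e3 (trm (m i) Ns Ys) k) x = ent (m i) x k :=
    eventually_all.2 fun i => ent_ev hInt (m i)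
  rw [Metric.eventually_nhds_iff] at h1
  obtain ⟨ρ, hρ, h1⟩ := h1
  refine ⟨ρ, hρ, fun x _ hx => ?_⟩
  have h2 := h1 (y := x) (by rw [dist_zero_right]; exact hx)
  have h3 := (pval_peval (fun v : Fin n × Fin 3 => e3 (trm (m v.1) Ns Ys) v.2) x
    (fun v => (h2 v.1 v.2).1) Q).2
  rw [hQ, pval_zero] at h3
  have h4 : (fun v : Fin n × Fin 3 => pval (e3 (trm (m v.1) Ns Ys) v.2) x) =
      fun v => ent (m v.1) x v.2 := funext fun v => (h2 v.1 v.2).2
  rw [h4] at h3
  rw [eval_Ph]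
  exact h3.symm

end Pool.Agent.Lib.MP_47914d_nt.BD
end

section
/-!
# Module INT: the entries of `Y` are G-functions
-/
set_option autoImplicit false

namespace Pool.Agent.Lib.MP_47914d_nt.BD

open scoped PowerSeries
open Pool.Agent.Lib.MPf11a48.GF (zq IsG pval peval)
open Pool.Agent.Lib.MPf11a48.GF
open Pool.Agent.Lib.MPf11a48.CG

namespace INTM

theorem coeff_th (f : ℚ⟦X⟧) (n : ℕ) :
    PowerSeries.coeff n (th f) = n * PowerSeries.coeff n f := by
  unfold th
  cases n with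
  | zero => simp
  | succ n =>
    rw [PowerSeries.coeff_succ_X_mul, PowerSeries.coeff_derivative]
    push_cast
    ring

theorem coeff_F (n : ℕ) : PowerSeries.coeff n Fs = aq n := PowerSeries.coeff_mk _ _

theorem coeff_G (n : ℕ) : PowerSeries.coeff n Gs = aq n * hq n := PowerSeries.coeff_mk _ _

theorem coeff_u (n : ℕ) : PowerSeries.coeff n us = uq n := PowerSeries.coeff_mk _ _

theorem prod_fact (n : ℕ) : ∏ k ∈ Finset.range n, ((k : ℚ) + 1) = (n.factorial : ℚ) := by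
  rw [← Finset.prod_range_add_one_eq_factorial]
  push_cast
  rfl

theorem aq_fact (n : ℕ) : aq n * (n.factorial : ℚ) ^ 2 =
    12 ^ n * (∏ k ∈ Finset.range n, (12 * (k : ℚ) + 1)) *
      ∏ k ∈ Finset.range n, (12 * (k : ℚ) + 5) := by
  unfold aq
  rw [← prod_fact, ← Finset.prod_pow, ← Finset.prod_mul_distrib, ← Finset.card_range n,
    ← Finset.prod_const, Finset.card_range, ← Finset.prod_mul_distrib, ← Finset.prod_mul_distrib]
  refine Finset.prod_congr rfl fun k _ => ?_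
  have : ((k : ℚ) + 1) ≠ 0 := by positivity
  field_simp

theorem uq_fact (n : ℕ) : uq n * (n.factorial : ℚ) =
    12 ^ n * (12 ^ n * ∏ k ∈ Finset.range n, (12 * (k : ℚ) + ((-3 : ℤ) : ℚ))) := by
  unfold uq
  rw [← prod_fact, ← Finset.prod_mul_distrib]
  have h1 : (12 : ℚ) ^ n = ∏ _k ∈ Finset.range n, (12 : ℚ) := by
    rw [Finset.prod_const, Finset.card_range]
  rw [h1, ← Finset.prod_mul_distrib, ← Finset.prod_mul_distrib]
  refine Finset.prod_congr rfl fun k _ => ?_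
  have : ((k : ℚ) + 1) ≠ 0 := by positivity
  field_simp
  push_cast
  ring

theorem int_a (hFac : SpecFac) (n : ℕ) : ∃ z : ℤ, (12 : ℚ) ^ n * aq n = z := by
  obtain ⟨z1, h1⟩ := hFac 1 n
  obtain ⟨z2, h2⟩ := hFac 5 n
  refine ⟨z1 * z2, ?_⟩
  have hn : (n.factorial : ℚ) ≠ 0 := by
    exact_mod_cast n.factorial_ne_zero
  have e1 : (12 : ℚ) ^ n * ∏ k ∈ Finset.range n, (12 * (k : ℚ) + 1) = n.factorial * z1 := by
    exact_mod_cast h1
  have e2 : (12 : ℚ) ^ n * ∏ k ∈ Finset.range n, (12 * (k : ℚ) + 5) = n.factorial * z2 := by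
    exact_mod_cast h2
  have e3 : (12 : ℚ) ^ n * aq n * (n.factorial : ℚ) ^ 2 =
      (z1 * z2) * (n.factorial : ℚ) ^ 2 := by
    calc (12 : ℚ) ^ n * aq n * (n.factorial : ℚ) ^ 2
        = 12 ^ n * (aq n * (n.factorial : ℚ) ^ 2) := by ring
      _ = ((12 : ℚ) ^ n * ∏ k ∈ Finset.range n, (12 * (k : ℚ) + 1)) *
          ((12 : ℚ) ^ n * ∏ k ∈ Finset.range n, (12 * (k : ℚ) + 5)) := by
          rw [aq_fact]; ring
      _ = _ := by rw [e1, e2]; ring
  have e4 := mul_right_cancel₀ (pow_ne_zero 2 hn) e3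
  rw [e4]
  push_cast
  ring

theorem int_u (hFac : SpecFac) (n : ℕ) : ∃ z : ℤ, uq n = z := by
  obtain ⟨z1, h1⟩ := hFac (-3) n
  refine ⟨12 ^ n * z1, ?_⟩
  have hn : (n.factorial : ℚ) ≠ 0 := by
    exact_mod_cast n.factorial_ne_zero
  have e1 : (12 : ℚ) ^ n * ∏ k ∈ Finset.range n, (12 * (k : ℚ) + ((-3 : ℤ) : ℚ)) =
      n.factorial * z1 := by
    exact_mod_cast h1
  have e3 : uq n * (n.factorial : ℚ) = (12 ^ n * z1) * (n.factorial : ℚ) := by
    rw [uq_fact, e1]
    ring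
  have e4 := mul_right_cancel₀ hn e3
  rw [e4]
  push_cast
  ring

theorem int_div {q : ℕ} {d : ℕ} (hd : 1 ≤ d) (h : d ∣ q) (c : ℤ) :
    ∃ z : ℤ, (q : ℚ) * (c / d) = z := by
  obtain ⟨e, rfl⟩ := h
  refine ⟨e * c, ?_⟩
  have : (d : ℚ) ≠ 0 := by
    exact_mod_cast (by omega : d ≠ 0)
  push_cast
  field_simp

theorem int_h {n q : ℕ} (hq' : ∀ k, 1 ≤ k → k ≤ 12 * n → k ∣ q) {m : ℕ} (hm : m ≤ n) :
    ∃ z : ℤ, (q : ℚ) * hq m = z := by
  induction m with
  | zero => exact ⟨0, by simp [hq]⟩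
  | succ m ih =>
    obtain ⟨z, hz⟩ := ih (by omega)
    obtain ⟨z1, h1⟩ := int_div (q := q) (d := 12 * m + 1) (by omega) (hq' _ (by omega) (by omega)) 12
    obtain ⟨z2, h2⟩ := int_div (q := q) (d := 12 * m + 5) (by omega) (hq' _ (by omega) (by omega)) 12
    obtain ⟨z3, h3⟩ := int_div (q := q) (d := m + 1) (by omega) (hq' _ (by omega) (by omega)) 2
    refine ⟨z + z1 + z2 - z3, ?_⟩
    have h4 : hq (m + 1) = hq m +
        (12 / (12 * (m : ℚ) + 1) + 12 / (12 * m + 5) - 2 / (m + 1)) := by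
      unfold hq
      rw [Finset.sum_range_succ]
    push_cast at h1 h2 h3 ⊢
    rw [h4, ← hz, ← h1, ← h2, ← h3]
    ring

theorem abs_a (n : ℕ) : |aq n| ≤ 1728 ^ n := by
  unfold aq
  rw [Finset.abs_prod]
  calc ∏ k ∈ Finset.range n, |12 * (12 * (k : ℚ) + 1) * (12 * k + 5) / (k + 1) ^ 2|
      ≤ ∏ _k ∈ Finset.range n, (1728 : ℚ) := by
        refine Finset.prod_le_prod (fun _ _ => abs_nonneg _) fun k _ => ?_
        have hk : (0 : ℚ) ≤ k := Nat.cast_nonneg k
        rw [abs_of_nonneg (by positivity), div_le_iff₀ (by positivity)]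
        nlinarith
    _ = 1728 ^ n := by rw [Finset.prod_const, Finset.card_range]

theorem abs_u (n : ℕ) : |uq n| ≤ 1728 ^ n := by
  unfold uq
  rw [Finset.abs_prod]
  calc ∏ k ∈ Finset.range n, |432 * (4 * (k : ℚ) - 1) / (k + 1)|
      ≤ ∏ _k ∈ Finset.range n, (1728 : ℚ) := by
        refine Finset.prod_le_prod (fun _ _ => abs_nonneg _) fun k _ => ?_
        have hk : (0 : ℚ) ≤ k := Nat.cast_nonneg k
        have hk1 : (0 : ℚ) < k + 1 := by positivity
        rw [abs_le, le_div_iff₀ hk1, div_le_iff₀ hk1]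
        constructor <;> linarith
    _ = 1728 ^ n := by rw [Finset.prod_const, Finset.card_range]

theorem abs_h (n : ℕ) : |hq n| ≤ 26 * n := by
  unfold hq
  calc |∑ k ∈ Finset.range n, (12 / (12 * (k : ℚ) + 1) + 12 / (12 * k + 5) - 2 / (k + 1))|
      ≤ ∑ k ∈ Finset.range n, |12 / (12 * (k : ℚ) + 1) + 12 / (12 * k + 5) - 2 / (k + 1)| :=
        Finset.abs_sum_le_sum_abs _ _
    _ ≤ ∑ _k ∈ Finset.range n, (26 : ℚ) := by
        refine Finset.sum_le_sum fun k _ => ?_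
        have hk : (0 : ℚ) ≤ k := Nat.cast_nonneg k
        have h1 : 12 / (12 * (k : ℚ) + 1) ≤ 12 := by
          rw [div_le_iff₀ (by positivity)]
          nlinarith
        have h2 : 12 / (12 * (k : ℚ) + 5) ≤ 12 := by
          rw [div_le_iff₀ (by positivity)]
          nlinarith
        have h3 : 2 / ((k : ℚ) + 1) ≤ 2 := by
          rw [div_le_iff₀ (by positivity)]
          nlinarith
        have h1' : 0 ≤ 12 / (12 * (k : ℚ) + 1) := by positivity
        have h2' : 0 ≤ 12 / (12 * (k : ℚ) + 5) := by positivity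
        have h3' : 0 ≤ 2 / ((k : ℚ) + 1) := by positivity
        rw [abs_le]
        constructor <;> linarith
    _ = 26 * n := by
        rw [Finset.sum_const, Finset.card_range, nsmul_eq_mul]
        ring

theorem two_pow (n : ℕ) : (n : ℚ) ≤ 2 ^ n := by
  exact_mod_cast (Nat.lt_two_pow_self (n := n)).le

/-- all coefficients are bounded by `26 * (4 * 1728) ^ n` -/
theorem bound {x y : ℚ} {n : ℕ} (hx : |x| ≤ 1728 ^ n) (hy : |y| ≤ 26 * n ∨ |y| ≤ 26)
    {z : ℚ} (hz : |z| ≤ n ∨ |z| ≤ 1) {C : ℕ} (hC : 1728 * 4 * 26 ≤ C) :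
    |z * (x * y)| ≤ (C : ℚ) ^ (n + 1) := by
  have h2 := two_pow n
  have h1 : (1 : ℚ) ≤ 2 ^ n := one_le_pow₀ (by norm_num)
  have hy' : |y| ≤ 26 * 2 ^ n := by
    rcases hy with h | h
    · exact h.trans (by linarith)
    · exact h.trans (by linarith)
  have hz' : |z| ≤ 2 ^ n := by
    rcases hz with h | h
    · exact h.trans h2
    · exact h.trans h1
  rw [abs_mul, abs_mul]
  calc |z| * (|x| * |y|) ≤ 2 ^ n * (1728 ^ n * (26 * 2 ^ n)) := by
        refine mul_le_mul hz' (mul_le_mul hx hy' (abs_nonneg _) (by positivity)) (by positivity)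
          (by positivity)
    _ = (1728 * 4) ^ n * 26 := by
        rw [mul_pow, show (4 : ℚ) = 2 * 2 by norm_num, mul_pow]
        ring
    _ ≤ (1728 * 4 * 26) ^ n * (1728 * 4 * 26) := by
        refine mul_le_mul (pow_le_pow_left₀ (by norm_num) (by norm_num) n) (by norm_num)
          (by norm_num) (by positivity)
    _ = (1728 * 4 * 26) ^ (n + 1) := (pow_succ _ _).symm
    _ ≤ (C : ℚ) ^ (n + 1) := by
        refine pow_le_pow_left₀ (by norm_num) ?_ _
        exact_mod_cast hC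

theorem five (hFac : SpecFac) (hLcm : SpecLcm) :
    IsG (![Fs, th Fs, Gs, th Gs, us] : Fin 5 → ℚ⟦X⟧) := by
  obtain ⟨C0, hC0⟩ := hLcm
  have hC01 : 1 ≤ C0 := by
    obtain ⟨q, h1, h2, _⟩ := hC0 0
    rw [zero_add, pow_one] at h2
    omega
  refine ⟨12 * C0 + 1728 * 4 * 26, fun n => ?_⟩
  obtain ⟨q, h1, h2, h3⟩ := hC0 n
  refine ⟨12 ^ n * q, by positivity, ?_, ?_, ?_⟩
  · calc 12 ^ n * q ≤ 12 ^ (n + 1) * C0 ^ (n + 1) :=
          Nat.mul_le_mul (Nat.pow_le_pow_right (by norm_num) (Nat.le_succ n)) h2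
      _ = (12 * C0) ^ (n + 1) := (Nat.mul_pow _ _ _).symm
      _ ≤ _ := Nat.pow_le_pow_left (Nat.le_add_right _ _) _
  · have ha : ∀ k ≤ n, ∃ z : ℤ, (12 : ℚ) ^ n * aq k = z := by
      intro k hk
      obtain ⟨z, hz⟩ := int_a hFac k
      refine ⟨12 ^ (n - k) * z, ?_⟩
      push_cast
      rw [← hz, ← mul_assoc, ← pow_add, Nat.sub_add_cancel hk]
    intro i k hk
    obtain ⟨z, hz⟩ := ha k hk
    obtain ⟨w, hw⟩ := int_h h3 hk
    obtain ⟨v, hv⟩ := int_u hFac k
    fin_cases i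
    · refine ⟨q * z, ?_⟩
      change ((12 ^ n * q : ℕ) : ℚ) * PowerSeries.coeff k Fs = _
      rw [coeff_F]
      push_cast
      rw [← hz]
      ring
    · refine ⟨q * z * k, ?_⟩
      change ((12 ^ n * q : ℕ) : ℚ) * PowerSeries.coeff k (th Fs) = _
      rw [coeff_th, coeff_F]
      push_cast
      rw [← hz]
      ring
    · refine ⟨z * w, ?_⟩
      change ((12 ^ n * q : ℕ) : ℚ) * PowerSeries.coeff k Gs = _
      rw [coeff_G]
      push_cast
      rw [← hz, ← hw]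
      ring
    · refine ⟨z * w * k, ?_⟩
      change ((12 ^ n * q : ℕ) : ℚ) * PowerSeries.coeff k (th Gs) = _
      rw [coeff_th, coeff_G]
      push_cast
      rw [← hz, ← hw]
      ring
    · refine ⟨12 ^ n * q * v, ?_⟩
      change ((12 ^ n * q : ℕ) : ℚ) * PowerSeries.coeff k us = _
      rw [coeff_u, hv]
      push_cast
      ring
  · intro i
    have hC : 1728 * 4 * 26 ≤ 12 * C0 + 1728 * 4 * 26 := Nat.le_add_left _ _
    have hn : |(n : ℚ)| ≤ n := by rw [abs_of_nonneg (Nat.cast_nonneg n)]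
    fin_cases i
    · change |PowerSeries.coeff n Fs| ≤ _
      rw [coeff_F]
      have := bound (abs_a n) (y := 1) (Or.inr (by norm_num)) (z := 1) (Or.inr (by norm_num)) hC
      rwa [one_mul, mul_one] at this
    · change |PowerSeries.coeff n (th Fs)| ≤ _
      rw [coeff_th, coeff_F]
      have := bound (abs_a n) (y := 1) (Or.inr (by norm_num)) (z := n) (Or.inl hn) hC
      rwa [mul_one] at this
    · change |PowerSeries.coeff n Gs| ≤ _
      rw [coeff_G]
      have := bound (abs_a n) (Or.inl (abs_h n)) (z := 1) (Or.inr (by norm_num)) hC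
      rwa [one_mul] at this
    · change |PowerSeries.coeff n (th Gs)| ≤ _
      rw [coeff_th, coeff_G]
      exact bound (abs_a n) (Or.inl (abs_h n)) (z := n) (Or.inl hn) hC
    · change |PowerSeries.coeff n us| ≤ _
      rw [coeff_u]
      have := bound (abs_u n) (y := 1) (Or.inr (by norm_num)) (z := 1) (Or.inr (by norm_num)) hC
      rwa [one_mul, mul_one] at this

theorem entries (h : IsG (![Fs, th Fs, Gs, th Gs, us] : Fin 5 → ℚ⟦X⟧)) :
    IsG fun v : Fin 2 × Fin 2 => Ys v.1 v.2 := by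
  have h1 : IsG fun x : Fin 5 => us * (![Fs, th Fs, Gs, th Gs, us] : Fin 5 → ℚ⟦X⟧) x :=
    SymM.isG_mul (μ := Fin 5) (![Fs, th Fs, Gs, th Gs, us] : Fin 5 → ℚ⟦X⟧)
      (![Fs, th Fs, Gs, th Gs, us] : Fin 5 → ℚ⟦X⟧) h h (fun _ => 4) (fun x => x)
  have h2 : IsG fun x : Fin 2 × Fin 2 × Fin 2 =>
      (if x.1 = 0 then us * !![Fs, th Fs; Gs, th Gs] x.2.1 x.2.2
        else (if x.2 = (1, 1) then us * Fs else 0) : ℚ⟦X⟧) := by
    refine BlkM.isG_zero h1 fun x => ?_
    obtain ⟨a, b, c⟩ := x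
    fin_cases a
    · right
      fin_cases b <;> fin_cases c
      · exact ⟨0, rfl⟩
      · exact ⟨1, rfl⟩
      · exact ⟨2, rfl⟩
      · exact ⟨3, rfl⟩
    · fin_cases b <;> fin_cases c
      · left; rfl
      · left; rfl
      · left; rfl
      · right; exact ⟨0, rfl⟩
  have h3 := TrqM.isG_sum (κ := Fin 2) (μ := Fin 2 × Fin 2) _ h2
  refine (iff_of_eq ?_).1 h3
  congr 1
  funext v
  obtain ⟨b, c⟩ := v
  rw [Fin.sum_univ_two]
  fin_cases b <;> fin_cases c
  · simp [Ys]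
  · simp [Ys]
  · simp [Ys]
  · simp [Ys, mul_add]

end INTM

theorem specInt (hFac : SpecFac) (hLcm : SpecLcm) : SpecInt :=
  ⟨INTM.five hFac hLcm, INTM.entries (INTM.five hFac hLcm)⟩

end Pool.Agent.Lib.MP_47914d_nt.BD
end

section
/-!
# Modular Schanuel in bounded degree, module MON: the condition `mon` for `SL₂`
-/
set_option autoImplicit false

namespace Pool.Agent.Lib.MP_47914d_nt.BD

open Polynomial Matrix
open scoped PowerSeries
open Pool.Agent.Lib.MPf11a48.GF (zq IsG pval peval)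
open Pool.Agent.Lib.MPf11a48.CG (trf pm trm pevalC gY)

namespace MONM

/-- Elimination of the entries `(1, 1)` of matrices of determinant `1`. -/
theorem elim {R : Type} [CommRing R] {r : ℕ} (F : MvPolynomial (Fin r × Fin 2 × Fin 2) R) :
    ∃ (e : ℕ) (Q : MvPolynomial (Fin r × Fin 3) R), ∀ (A : Type) [CommRing A] (φ : R →+* A)
      (W : Fin r → Matrix (Fin 2) (Fin 2) A), (∀ a, (W a).det = 1) →
      (∏ a, W a 0 0) ^ e * MvPolynomial.eval₂ φ (fun p => W p.1 p.2.1 p.2.2) F =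
        MvPolynomial.eval₂ φ (fun v => e3 (W v.1) v.2) Q := by
  classical
  induction F using MvPolynomial.induction_on with
  | C c =>
    refine ⟨0, MvPolynomial.C c, fun A _ φ W _ => ?_⟩
    rw [pow_zero, one_mul, MvPolynomial.eval₂_C, MvPolynomial.eval₂_C]
  | add F G hF hG =>
    obtain ⟨e, Q, h⟩ := hF
    obtain ⟨e', Q', h'⟩ := hG
    refine ⟨e + e', (∏ a, MvPolynomial.X (a, 0)) ^ e' * Q + (∏ a, MvPolynomial.X (a, 0)) ^ e * Q',
      fun A _ φ W hW => ?_⟩
    have h1 := h A φ W hW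
    have h2 := h' A φ W hW
    rw [MvPolynomial.eval₂_add, MvPolynomial.eval₂_add, MvPolynomial.eval₂_mul,
      MvPolynomial.eval₂_mul, ← h1, ← h2, MvPolynomial.eval₂_pow, MvPolynomial.eval₂_pow,
      MvPolynomial.eval₂_prod]
    have h3 : ∀ a : Fin r, MvPolynomial.eval₂ φ (fun v : Fin r × Fin 3 => e3 (W v.1) v.2)
        (MvPolynomial.X (a, 0)) = W a 0 0 := fun a => by
      rw [MvPolynomial.eval₂_X]
      rfl
    rw [Finset.prod_congr rfl fun a _ => h3 a]
    ring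
  | mul_X F p hF =>
    obtain ⟨e, Q, h⟩ := hF
    obtain ⟨a, i, j⟩ := p
    have key : ∃ S : MvPolynomial (Fin r × Fin 3) R, ∀ (A : Type) [CommRing A] (φ : R →+* A)
        (W : Fin r → Matrix (Fin 2) (Fin 2) A), (∀ a, (W a).det = 1) →
        (∏ a, W a 0 0) * W a i j = MvPolynomial.eval₂ φ (fun v => e3 (W v.1) v.2) S := by
      have h3 : ∀ (A : Type) [CommRing A] (φ : R →+* A) (W : Fin r → Matrix (Fin 2) (Fin 2) A)
          (a : Fin r), MvPolynomial.eval₂ φ (fun v : Fin r × Fin 3 => e3 (W v.1) v.2)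
          (MvPolynomial.X (a, 0)) = W a 0 0 := fun A _ φ W a => by
        rw [MvPolynomial.eval₂_X]
        rfl
      have h4 : ∀ (A : Type) [CommRing A] (φ : R →+* A) (W : Fin r → Matrix (Fin 2) (Fin 2) A)
          (a : Fin r), MvPolynomial.eval₂ φ (fun v : Fin r × Fin 3 => e3 (W v.1) v.2)
          (MvPolynomial.X (a, 1)) = W a 0 1 := fun A _ φ W a => by
        rw [MvPolynomial.eval₂_X]
        rfl
      have h5 : ∀ (A : Type) [CommRing A] (φ : R →+* A) (W : Fin r → Matrix (Fin 2) (Fin 2) A)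
          (a : Fin r), MvPolynomial.eval₂ φ (fun v : Fin r × Fin 3 => e3 (W v.1) v.2)
          (MvPolynomial.X (a, 2)) = W a 1 0 := fun A _ φ W a => by
        rw [MvPolynomial.eval₂_X]
        rfl
      fin_cases i <;> fin_cases j
      · refine ⟨(∏ b, MvPolynomial.X (b, 0)) * MvPolynomial.X (a, 0), fun A _ φ W hW => ?_⟩
        rw [MvPolynomial.eval₂_mul, MvPolynomial.eval₂_prod,
          Finset.prod_congr rfl fun b _ => h3 A φ W b, h3]
        rfl
      · refine ⟨(∏ b, MvPolynomial.X (b, 0)) * MvPolynomial.X (a, 1), fun A _ φ W hW => ?_⟩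
        rw [MvPolynomial.eval₂_mul, MvPolynomial.eval₂_prod,
          Finset.prod_congr rfl fun b _ => h3 A φ W b, h4]
        rfl
      · refine ⟨(∏ b, MvPolynomial.X (b, 0)) * MvPolynomial.X (a, 2), fun A _ φ W hW => ?_⟩
        rw [MvPolynomial.eval₂_mul, MvPolynomial.eval₂_prod,
          Finset.prod_congr rfl fun b _ => h3 A φ W b, h5]
        rfl
      · refine ⟨(∏ b ∈ Finset.univ.erase a, MvPolynomial.X (b, 0)) *
          (1 + MvPolynomial.X (a, 1) * MvPolynomial.X (a, 2)), fun A _ φ W hW => ?_⟩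
        rw [MvPolynomial.eval₂_mul, MvPolynomial.eval₂_prod,
          Finset.prod_congr rfl fun b _ => h3 A φ W b, MvPolynomial.eval₂_add,
          MvPolynomial.eval₂_one, MvPolynomial.eval₂_mul, h4, h5,
          ← Finset.mul_prod_erase Finset.univ (fun b => W b 0 0) (Finset.mem_univ a)]
        have h6 := hW a
        rw [Matrix.det_fin_two] at h6
        change W a 0 0 * (∏ b ∈ Finset.univ.erase a, W b 0 0) * W a 1 1 = _
        linear_combination (∏ b ∈ Finset.univ.erase a, W b 0 0) * h6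
    obtain ⟨S, hS⟩ := key
    refine ⟨e + 1, Q * S, fun A _ φ W hW => ?_⟩
    have h1 := h A φ W hW
    have h2 := hS A φ W hW
    rw [MvPolynomial.eval₂_mul, MvPolynomial.eval₂_mul, ← h1, ← h2, MvPolynomial.eval₂_X]
    ring

/-- `trf m` as a ring homomorphism -/
noncomputable def trfHom (m : ℕ) : ℚ⟦X⟧ →+* ℚ⟦X⟧ where
  toFun := trf m
  map_one' := by
    have h := (Pool.Agent.Lib.MPf11a48.CG.specTrf m).2.1 1
    rwa [map_one] at h
  map_mul' f g := ((Pool.Agent.Lib.MPf11a48.CG.specTrf m).1 f g).2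
  map_zero' := by
    have h := (Pool.Agent.Lib.MPf11a48.CG.specTrf m).2.1 0
    rwa [map_zero] at h
  map_add' f g := ((Pool.Agent.Lib.MPf11a48.CG.specTrf m).1 f g).1

theorem const_trf (m : ℕ) (f : ℚ⟦X⟧) :
    PowerSeries.constantCoeff (trf m f) = PowerSeries.constantCoeff f := by
  obtain ⟨h1, h2, h3, -⟩ := Pool.Agent.Lib.MPf11a48.CG.specTrf m
  have hX : PowerSeries.constantCoeff (trf m PowerSeries.X) = 0 := by
    have := congrArg PowerSeries.constantCoeff h3
    simpa using this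
  have hf := PowerSeries.eq_X_mul_shift_add_const f
  conv_lhs => rw [hf]
  rw [(h1 _ _).1, (h1 _ _).2, h2, map_add, map_mul, hX, zero_mul, zero_add,
    PowerSeries.constantCoeff_C]

theorem det_pm (m : ℕ) : (pm m Ns).det = 1 := by
  have h := (Pool.Agent.Lib.MPf11a48.CG.specPnm Pool.Agent.Lib.MPf11a48.CG.specBnm
    (Fin 2) m Ns).2.2.1 ps (by
    ext i j
    fin_cases i <;> fin_cases j <;> simp [Ns, ps, Matrix.mul_apply, Fin.sum_univ_two])
  have h1 := congrFun (congrFun h 0) 1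
  rw [Matrix.det_fin_two]
  simp [ps, Matrix.mul_apply, Fin.sum_univ_two] at h1
  linear_combination h1

theorem det_trm (hSys : SpecSys) (m : ℕ) : (trm m Ns Ys).det = 1 := by
  have h1 : (Ys.map (trf m)).det = 1 := by
    have h2 := RingHom.map_det (trfHom m) Ys
    rw [hSys.det, map_one] at h2
    exact h2.symm
  rw [trm, Matrix.det_mul, det_pm, h1, one_mul]

theorem const_pm (m : ℕ) (i j : Fin 2) : PowerSeries.constantCoeff (pm m Ns i j) =
    (1 : Matrix (Fin 2) (Fin 2) ℚ) i j := by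
  rw [← PowerSeries.coeff_zero_eq_constantCoeff_apply, pm, PowerSeries.coeff_mk, pow_zero, mul_one]
  rfl

theorem const_trm (m : ℕ) (i j : Fin 2) : PowerSeries.constantCoeff (trm m Ns Ys i j) =
    PowerSeries.constantCoeff (Ys i j) := by
  rw [trm, Matrix.mul_apply, map_sum]
  simp_rw [map_mul, const_pm, Matrix.map_apply, const_trf]
  simp [Matrix.one_apply]

theorem const_Y00 : PowerSeries.constantCoeff (Ys 0 0) = 1 := by
  change PowerSeries.constantCoeff (us * Fs) = 1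
  rw [map_mul, ← PowerSeries.coeff_zero_eq_constantCoeff_apply,
    ← PowerSeries.coeff_zero_eq_constantCoeff_apply, us, Fs, PowerSeries.coeff_mk,
    PowerSeries.coeff_mk, uq, aq]
  simp

theorem const_Y10 : PowerSeries.constantCoeff (Ys 1 0) = 0 := by
  change PowerSeries.constantCoeff (us * Gs) = 0
  rw [map_mul, ← PowerSeries.coeff_zero_eq_constantCoeff_apply (φ := Gs), Gs, PowerSeries.coeff_mk,
    hq]
  simp

end MONM

open MONM

/-- MON -/
theorem specMon (hSys : SpecSys) (hFrm : SpecFrm) : SpecMon := by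
  intro r m hm F hF g hg
  obtain ⟨e, Q, hQ⟩ := elim F
  have h1 := hQ ℚ⟦X⟧ (Polynomial.coeToPowerSeries.ringHom (R := ℚ)) (fun a => trm (m a) Ns Ys)
    (fun a => det_trm hSys (m a))
  have h2 : MvPolynomial.eval₂ (Polynomial.coeToPowerSeries.ringHom (R := ℚ))
      (fun p : Fin r × Fin 2 × Fin 2 => trm (m p.1) Ns Ys p.2.1 p.2.2) F = 0 := hF
  rw [h2, mul_zero] at h1
  have hQ0 : Q = 0 := hFrm r m hm Q h1.symm
  set φ : ℚ[X] →+* ℂ⟦X⟧ := (PowerSeries.map (algebraMap ℚ ℂ)).comp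
    (Polynomial.coeToPowerSeries.ringHom (R := ℚ)) with hφ
  have hdet : ∀ a, (gY (g a).1 (trm (m a) Ns Ys)).det = 1 := by
    intro a
    have h3 : ((g a).1.map (PowerSeries.C : ℂ →+* ℂ⟦X⟧)).det = 1 := by
      have h4 := RingHom.map_det (PowerSeries.C : ℂ →+* ℂ⟦X⟧) (g a).1
      have h5 : (g a).1.det = 1 := hg a
      rw [h5, map_one] at h4
      exact h4.symm
    have h6 : ((trm (m a) Ns Ys).map (PowerSeries.map (algebraMap ℚ ℂ))).det = 1 := by
      have h4 := RingHom.map_det (PowerSeries.map (algebraMap ℚ ℂ)) (trm (m a) Ns Ys)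
      rw [det_trm hSys, map_one] at h4
      exact h4.symm
    rw [gY, Matrix.det_mul, h3, h6, one_mul]
  have h3 := hQ ℂ⟦X⟧ φ (fun a => gY (g a).1 (trm (m a) Ns Ys)) hdet
  rw [hQ0, MvPolynomial.eval₂_zero] at h3
  rcases mul_eq_zero.1 h3 with h4 | h4
  · exfalso
    have he : e ≠ 0 := fun h0 => by
      rw [h0, pow_zero] at h4
      exact one_ne_zero h4
    have h5 := (pow_eq_zero_iff he).1 h4
    obtain ⟨a, -, h6⟩ := Finset.prod_eq_zero_iff.1 h5
    have h7 : gY (g a).1 (trm (m a) Ns Ys) 0 0 =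
        PowerSeries.C ((g a).1 0 0) * PowerSeries.map (algebraMap ℚ ℂ) (trm (m a) Ns Ys 0 0) +
        PowerSeries.C ((g a).1 0 1) * PowerSeries.map (algebraMap ℚ ℂ) (trm (m a) Ns Ys 1 0) := by
      rw [gY, Matrix.mul_apply, Fin.sum_univ_two]
      rfl
    rw [h7] at h6
    have h8 := congrArg PowerSeries.constantCoeff h6
    rw [map_add, map_mul, map_mul, PowerSeries.constantCoeff_C, PowerSeries.constantCoeff_C,
      ← PowerSeries.coeff_zero_eq_constantCoeff_apply, ← PowerSeries.coeff_zero_eq_constantCoeff_apply,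
      PowerSeries.coeff_map, PowerSeries.coeff_map, PowerSeries.coeff_zero_eq_constantCoeff_apply,
      PowerSeries.coeff_zero_eq_constantCoeff_apply, const_trm, const_trm, const_Y00, const_Y10,
      map_one, map_zero, mul_one, mul_zero, add_zero, map_zero] at h8
    rw [h8, map_zero, zero_mul, zero_add] at h6
    have h9 : (g a).1 0 1 ≠ 0 := by
      intro h0
      have h5 : (g a).1.det = 1 := hg a
      rw [Matrix.det_fin_two, h8, h0, zero_mul, zero_mul, sub_zero] at h5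
      exact zero_ne_one h5
    rcases mul_eq_zero.1 h6 with h10 | h10
    · exact h9 (PowerSeries.C_injective (by rw [h10, map_zero]))
    · have h11 : trm (m a) Ns Ys 1 0 = 0 :=
        PowerSeries.map_injective (algebraMap ℚ ℂ) (algebraMap ℚ ℂ).injective
          (by rw [h10, map_zero])
      have h12 := hFrm r m hm (MvPolynomial.X (a, 2)) (by
        rw [peval, MvPolynomial.eval₂_X]
        exact h11)
      exact MvPolynomial.X_ne_zero _ h12
  · exact h4

end Pool.Agent.Lib.MP_47914d_nt.BD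
end

section
/-!
# Module SYS: the differential system
-/
set_option autoImplicit false

namespace Pool.Agent.Lib.MP_47914d_nt.BD

open Polynomial Matrix
open scoped PowerSeries
open Pool.Agent.Lib.MPf11a48.GF (zq IsG pval peval)

namespace SYSM

theorem th_mul (f g : ℚ⟦X⟧) : th (f * g) = th f * g + f * th g := by
  unfold th
  rw [Derivation.leibniz, smul_eq_mul, smul_eq_mul]
  ring

theorem th_add (f g : ℚ⟦X⟧) : th (f + g) = th f + th g := by
  unfold th
  rw [map_add]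
  ring

theorem coe_num (n : ℕ) [n.AtLeastTwo] :
    ((OfNat.ofNat n : ℚ[X]) : ℚ⟦X⟧) = OfNat.ofNat n :=
  map_ofNat (Polynomial.coeToPowerSeries.ringHom (R := ℚ)) n

theorem coeT : ((zq Ts : ℚ[X]) : ℚ⟦X⟧) =
    PowerSeries.X * (1 - 1728 * PowerSeries.X) := by
  unfold Ts
  simp [Polynomial.coe_sub, Polynomial.coe_mul]
  exact coe_num 1728

theorem coeXT : ((X * zq Ts : ℚ[X]) : ℚ⟦X⟧) =
    PowerSeries.X * (PowerSeries.X * (1 - 1728 * PowerSeries.X)) := by
  rw [Polynomial.coe_mul, coeT, Polynomial.coe_X]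

theorem coeB (i j : Fin 2) : ((X * zq (Bs i j) : ℚ[X]) : ℚ⟦X⟧) =
    PowerSeries.X * (!![-(432 * PowerSeries.X), 1 - 1728 * PowerSeries.X;
      60 * PowerSeries.X, 432 * PowerSeries.X] : Matrix (Fin 2) (Fin 2) ℚ⟦X⟧) i j := by
  rw [Polynomial.coe_mul, Polynomial.coe_X]
  congr 1
  fin_cases i <;> fin_cases j <;>
    simp [Bs, Polynomial.coe_sub, Polynomial.coe_mul, Polynomial.coe_neg] <;> exact coe_num _

theorem NY (i j : Fin 2) : (Ns.map (PowerSeries.C : ℚ →+* ℚ⟦X⟧) * Ys) i j =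
    if i = 0 then 0 else Ys 0 j := by
  rw [Matrix.mul_apply, Fin.sum_univ_two]
  fin_cases i <;> simp [Ns]

theorem sol (h : SpecHyp) (i j : Fin 2) :
    ((X * zq Ts : ℚ[X]) : ℚ⟦X⟧) * PowerSeries.derivative ℚ (Ys i j) =
    ∑ k, ((X * zq (Bs j k) : ℚ[X]) : ℚ⟦X⟧) * Ys i k -
      ((zq Ts : ℚ[X]) : ℚ⟦X⟧) * (Ns.map (PowerSeries.C : ℚ →+* ℚ⟦X⟧) * Ys) i j := by
  have h1 : ((X * zq Ts : ℚ[X]) : ℚ⟦X⟧) * PowerSeries.derivative ℚ (Ys i j) =
      (PowerSeries.X * (1 - 1728 * PowerSeries.X)) * th (Ys i j) := by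
    rw [coeXT, th]
    ring
  rw [h1, NY, coeT, Fin.sum_univ_two, coeB, coeB]
  have hF := h.odeF
  have hG := h.odeG
  have hU := h.odeU
  fin_cases i <;> fin_cases j
  · simp only [Ys, Fin.zero_eta, Fin.isValue, Matrix.of_apply, Matrix.cons_val', Matrix.cons_val_zero,
      Matrix.cons_val_one, if_true, mul_zero, sub_zero, Matrix.cons_val_fin_one]
    rw [th_mul]
    linear_combination (PowerSeries.X * Fs) * hU
  · simp only [Ys, Fin.zero_eta, Fin.mk_one, Fin.isValue, Matrix.of_apply, Matrix.cons_val',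
      Matrix.cons_val_zero, Matrix.cons_val_one, if_true, mul_zero, sub_zero,
      Matrix.cons_val_fin_one]
    rw [th_mul]
    linear_combination (PowerSeries.X * th Fs) * hU + (PowerSeries.X * us) * hF
  · simp only [Ys, Fin.zero_eta, Fin.mk_one, Fin.isValue, Matrix.of_apply, Matrix.cons_val',
      Matrix.cons_val_zero, Matrix.cons_val_one, one_ne_zero, if_false, Matrix.cons_val_fin_one]
    rw [th_mul]
    linear_combination (PowerSeries.X * Gs) * hU
  · simp only [Ys, Fin.mk_one, Fin.isValue, Matrix.of_apply, Matrix.cons_val',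
      Matrix.cons_val_zero, Matrix.cons_val_one, one_ne_zero, if_false, Matrix.cons_val_fin_one]
    rw [th_mul, th_add]
    linear_combination (PowerSeries.X * (th Gs + Fs)) * hU + (PowerSeries.X * us) * hG

theorem det (h : SpecHyp) : Ys.det = 1 := by
  rw [Matrix.det_fin_two]
  simp only [Ys, Matrix.of_apply, Matrix.cons_val', Matrix.cons_val_zero, Matrix.cons_val_one,
    Matrix.cons_val_fin_one]
  linear_combination h.wr

theorem pol (h : SpecHyp) (i j : Fin 2) :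
    (Ysᵀ * ps.map (PowerSeries.C : ℚ →+* ℚ⟦X⟧) * Ys) i j = PowerSeries.C (ps i j) := by
  have hd := det h
  rw [Matrix.det_fin_two] at hd
  rw [Matrix.mul_apply, Fin.sum_univ_two, Matrix.mul_apply, Matrix.mul_apply, Fin.sum_univ_two,
    Fin.sum_univ_two]
  fin_cases i <;> fin_cases j
  · simp [ps]
    ring
  · simp [ps]
    linear_combination hd
  · simp [ps]
    linear_combination -hd
  · simp [ps]
    ring

theorem ne : Ts ≠ 0 := by
  intro h
  have h1 := congrArg (Polynomial.eval 1) h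
  unfold Ts at h1
  simp at h1

end SYSM

theorem specSys (hHyp : SpecHyp) (hInt : SpecInt) : SpecSys where
  ne := SYSM.ne
  sol := SYSM.sol hHyp
  g := hInt.Y
  pol := ⟨1, one_ne_zero, fun i j => ⟨Polynomial.C (ps i j), by
    rw [Polynomial.coe_one, one_mul, SYSM.pol hHyp, Polynomial.coe_C]⟩⟩
  det := SYSM.det hHyp

end Pool.Agent.Lib.MP_47914d_nt.BD
end
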