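import Pool.Agent.Lib.MP_47914d_nt.BD.Spec
import Pool.Agent.Lib.MP_47914d_nt.Liouville2
import Pool.Agent.Lib.MP_47914d_nt.InjFull
import Pool.Agent.Lib.MP_47914d_nt.JFormula
import Pool.Agent.Lib.MP_f11a48_ag.helper92.Sl2
import Pool.Agent.Lib.MP_f11a48_ag.CG.AllJ
import Pool.Agent.Lib.MP_47914d_nt.All4
import Pool.Agent.Lib.MP_47914d_nt.BD.LCM
import Pool.Agent.Lib.MP_47914d_nt.BD.SYS
import Pool.Agent.Lib.MP_47914d_nt.BD.HOM2
import Pool.Agent.Lib.MP_47914d_nt.BD.NUM

section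
/-!
# Module LIM: limits at `i ∞`
-/
set_option autoImplicit false

namespace Pool.Agent.Lib.MP_47914d_nt.BD

open Filter Topology

namespace LIMM

/-- from the upper half plane to `ℂ` -/
theorem lift {f : UpperHalfPlane → ℂ} {g : ℂ → ℂ} {c : ℂ}
    (h : ∀ (w : ℂ) (hw : 0 < w.im), g w = f ⟨w, hw⟩)
    (hf : Tendsto f UpperHalfPlane.atImInfty (𝓝 c)) :
    Tendsto g (comap Complex.im atTop) (𝓝 c) := by
  intro s hs
  have h1 := hf hs
  rw [mem_map, UpperHalfPlane.atImInfty_mem] at h1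
  obtain ⟨A, hA⟩ := h1
  rw [mem_map, mem_comap]
  refine ⟨Set.Ici (max A 1), Ici_mem_atTop _, fun w hw => ?_⟩
  have hw' : max A 1 ≤ w.im := hw
  have h0 : 0 < w.im := lt_of_lt_of_le zero_lt_one ((le_max_right _ _).trans hw')
  have h2 := hA ⟨w, h0⟩ ((le_max_left _ _).trans hw')
  change g w ∈ s
  rw [h w h0]
  exact h2

theorem exp_tendsto : Tendsto (fun z : ℂ => Complex.exp (2 * Real.pi * Complex.I * z))
    (comap Complex.im atTop) (𝓝 0) := by
  rw [tendsto_zero_iff_norm_tendsto_zero]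
  have h1 : (fun z : ℂ => ‖Complex.exp (2 * Real.pi * Complex.I * z)‖) =
      fun z : ℂ => Real.exp (-(2 * Real.pi * z.im)) := by
    funext z
    rw [Complex.norm_exp]
    congr 1
    simp
  rw [h1]
  have h2 : Tendsto (fun y : ℝ => Real.exp (-(2 * Real.pi * y))) atTop (𝓝 0) :=
    Real.tendsto_exp_neg_atTop_nhds_zero.comp
      (tendsto_id.const_mul_atTop (by positivity))
  exact h2.comp tendsto_comap

theorem im_ge (A : ℝ) : ∀ᶠ z : ℂ in comap Complex.im atTop, A ≤ z.im :=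
  tendsto_comap.eventually (eventually_ge_atTop A)

end LIMM

open LIMM in
theorem specLim : SpecLim := by
  have hU : Tendsto (fun z => Jc z * Complex.exp (2 * Real.pi * Complex.I * z))
      (comap Complex.im atTop) (𝓝 1) := by
    obtain ⟨C, hC⟩ := specJ.growth
    have h1 : Tendsto (fun z => Jc z * Complex.exp (2 * Real.pi * Complex.I * z) - 1)
        (comap Complex.im atTop) (𝓝 0) := by
      have h2 : Tendsto (fun z : ℂ => C * ‖Complex.exp (2 * Real.pi * Complex.I * z)‖)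
          (comap Complex.im atTop) (𝓝 0) := by
        have := (tendsto_zero_iff_norm_tendsto_zero.1 exp_tendsto).const_mul C
        rwa [mul_zero] at this
      refine squeeze_zero_norm' ?_ h2
      filter_upwards [im_ge 1] with z hz
      have h3 : Jc z * Complex.exp (2 * Real.pi * Complex.I * z) - 1 =
          (Jc z - Complex.exp (-(2 * Real.pi * Complex.I * z))) *
            Complex.exp (2 * Real.pi * Complex.I * z) := by
        rw [sub_mul, ← Complex.exp_add, neg_add_cancel, Complex.exp_zero]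
      rw [h3, norm_mul]
      exact mul_le_mul_of_nonneg_right (hC z hz) (norm_nonneg _)
    have h4 := h1.add_const 1
    simpa using h4
  refine ⟨?_, ?_, ?_, hU, ?_⟩
  · refine lift (f := fun z => (Real.pi * Complex.I / 6) * EisensteinSeries.E2 z)
      (fun w hw => Ram.Pc_eq hw) ?_
    have := Ram.E2_tendsto.const_mul ((Real.pi : ℂ) * Complex.I / 6)
    rwa [mul_one] at this
  · refine lift (f := fun z => (Real.pi * Complex.I / 6) ^ 2 * ModularForm.E₄ z)
      (fun w hw => Ram.Qc_eq hw) ?_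
    have := Ram.E4_tendsto.const_mul (((Real.pi : ℂ) * Complex.I / 6) ^ 2)
    rwa [mul_one] at this
  · refine lift (f := fun z => (Real.pi * Complex.I / 6) ^ 3 * ModularForm.E₆ z)
      (fun w hw => Ram.Rc_eq hw) ?_
    have := Ram.E6_tendsto.const_mul (((Real.pi : ℂ) * Complex.I / 6) ^ 3)
    rwa [mul_one] at this
  · have h1 : (fun z => (Jc z)⁻¹) = fun z => Complex.exp (2 * Real.pi * Complex.I * z) *
        (Jc z * Complex.exp (2 * Real.pi * Complex.I * z))⁻¹ := by
      funext z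
      rw [mul_inv, mul_comm (Jc z)⁻¹, ← mul_assoc, mul_inv_cancel₀ (Complex.exp_ne_zero _), one_mul]
    rw [h1]
    have h2 := exp_tendsto.mul (hU.inv₀ one_ne_zero)
    rwa [zero_mul] at h2

end Pool.Agent.Lib.MP_47914d_nt.BD
end

section
/-!
# Module LNA: the period functions in terms of `z`
-/
set_option autoImplicit false

namespace Pool.Agent.Lib.MP_47914d_nt.BD

open Filter Topology
open Pool.Agent.Lib.MPf11a48.GF (pval)

namespace LNAM

/-- a function with derivative `0` and a limit at `i ∞` is constant -/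
theorem const_of {φ : ℂ → ℂ} {Y : ℝ} {c : ℂ} (h : ∀ w : ℂ, Y < w.im → HasDerivAt φ 0 w)
    (ht : Tendsto φ (comap Complex.im atTop) (𝓝 c)) {z : ℂ} (hz : Y < z.im) : φ z = c := by
  have hopen : IsOpen {w : ℂ | Y < w.im} := isOpen_lt continuous_const Complex.continuous_im
  have hconv : Convex ℝ {w : ℂ | Y < w.im} := convex_halfSpace_im_gt Y
  have hcst : ∀ w : ℂ, Y < w.im → φ w = φ z := by
    intro w hw
    refine hopen.is_const_of_deriv_eq_zero hconv.isPreconnected
      (fun x hx => (h x hx).differentiableAt.differentiableWithinAt)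
      (fun x hx => (h x hx).deriv) hw hz
  have hne : (comap Complex.im atTop).NeBot := NeBot.comap_of_surj inferInstance Complex.im_surjective
  have ht2 : Tendsto φ (comap Complex.im atTop) (𝓝 (φ z)) := by
    refine tendsto_const_nhds.congr' ?_
    filter_upwards [tendsto_comap.eventually (eventually_gt_atTop Y)] with w hw
    exact (hcst w hw).symm
  exact tendsto_nhds_unique ht2 ht

/-- the derivative of `j` -/
theorem derivJ (hR : SpecRam) (hJ : SpecJ) {z : ℂ} (hz : 0 < z.im) (hQ : Qc z ≠ 0) :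
    HasDerivAt Jc (-12 * (Rc z / Qc z) * Jc z) z := by
  have hopen : IsOpen {w : ℂ | 0 < w.im} := isOpen_lt continuous_const Complex.continuous_im
  have h1 : HasDerivAt Jc (deriv Jc z) z :=
    ((hJ.holo).differentiableAt (hopen.mem_nhds hz)).hasDerivAt
  have hq := hR.derivQ z hz
  have hr := hR.derivR z hz
  have e1 : HasDerivAt (fun w => Jc w * (Qc w ^ 3 - Rc w ^ 2))
      (deriv Jc z * (Qc z ^ 3 - Rc z ^ 2) + Jc z *
        ((3 : ℕ) * Qc z ^ 2 * (4 * (Pc z * Qc z - Rc z)) -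
          (2 : ℕ) * Rc z ^ 1 * (6 * (Pc z * Rc z - Qc z ^ 2)))) z :=
    h1.mul ((hq.pow 3).sub (hr.pow 2))
  have e2 : HasDerivAt (fun w => 1728 * Qc w ^ 3)
      (1728 * ((3 : ℕ) * Qc z ^ 2 * (4 * (Pc z * Qc z - Rc z)))) z := (hq.pow 3).const_mul 1728
  have e3 : HasDerivAt (fun w => Jc w * (Qc w ^ 3 - Rc w ^ 2))
      (1728 * ((3 : ℕ) * Qc z ^ 2 * (4 * (Pc z * Qc z - Rc z)))) z := by
    refine e2.congr_of_eventuallyEq ?_
    filter_upwards [hopen.mem_nhds hz] with w hw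
    exact hR.jinv w hw
  have e4 := e1.unique e3
  have e5 := hR.jinv z hz
  have e6 := hR.disc z hz
  have e7 : deriv Jc z = -12 * (Rc z / Qc z) * Jc z := by
    apply mul_right_cancel₀ e6
    have e8 : Rc z / Qc z * Qc z = Rc z := div_mul_cancel₀ _ hQ
    have e9 : -12 * (Rc z / Qc z) * Jc z * (Qc z ^ 3 - Rc z ^ 2) =
        -12 * 1728 * (Rc z * Qc z ^ 2) := by
      rw [mul_assoc, e5]
      linear_combination (-12 * 1728 * Qc z ^ 2) * e8
    rw [e9]
    push_cast at e4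
    linear_combination e4 - 12 * Pc z * e5
  rw [← e7]
  exact h1

theorem specLna (hR : SpecRam) (hJ : SpecJ) (hLim : SpecLim) (hNum : SpecNum) : SpecLna := by
  obtain ⟨ρ, hN⟩ := hNum
  set κ : ℂ := Real.pi * Complex.I / 6 with hκ
  have hκ0 : κ ≠ 0 := by
    rw [hκ]
    have h1 : (Real.pi : ℂ) ≠ 0 := by exact_mod_cast Real.pi_ne_zero
    exact div_ne_zero (mul_ne_zero h1 Complex.I_ne_zero) (by norm_num)
  set l : Filter ℂ := comap Complex.im atTop with hl
  have h0ρ : ‖(0 : ℂ)‖ < ρ := by rw [norm_zero]; exact hN.pos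
  -- limits of the values
  have lim : ∀ {s : PowerSeries ℚ} {f' : ℂ}, HasDerivAt (pval s) f' 0 →
      Tendsto (fun z => pval s (Jc z)⁻¹) l (𝓝 (pval s 0)) := fun hs =>
    hs.continuousAt.tendsto.comp hLim.x
  obtain ⟨_, hF0, -⟩ := hN.F0 0 h0ρ
  obtain ⟨_, hF1, -⟩ := hN.F1 0 h0ρ
  obtain ⟨_, hG0, -⟩ := hN.G0 0 h0ρ
  obtain ⟨_, hU0, -⟩ := hN.U0 0 h0ρ
  obtain ⟨z1, z2, z3, z4, z5⟩ := hN.zero
  have limF : Tendsto (fun z => pval Fs (Jc z)⁻¹) l (𝓝 1) := z1 ▸ lim hF0
  have limF1 : Tendsto (fun z => pval (th Fs) (Jc z)⁻¹) l (𝓝 0) := z2 ▸ lim hF1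
  have limG : Tendsto (fun z => pval Gs (Jc z)⁻¹) l (𝓝 0) := z3 ▸ lim hG0
  have limU : Tendsto (fun z => pval us (Jc z)⁻¹) l (𝓝 1) := z5 ▸ lim hU0
  have limRQ : Tendsto (fun z => Rc z / Qc z) l (𝓝 κ) := by
    have h := hLim.R.div hLim.Q (pow_ne_zero 2 hκ0)
    have e : κ ^ 3 / κ ^ 2 = κ := by field_simp
    rw [e] at h
    exact h
  have limS : Tendsto (fun z => (pval us (Jc z)⁻¹) ^ 2 * (pval Fs (Jc z)⁻¹) ^ 2 *
      (κ * Qc z / Rc z)) l (𝓝 1) := by
    have h1 : Tendsto (fun z => κ * Qc z / Rc z) l (𝓝 (κ * κ ^ 2 / κ ^ 3)) :=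
      (hLim.Q.const_mul κ).div hLim.R (pow_ne_zero 3 hκ0)
    have e : κ * κ ^ 2 / κ ^ 3 = 1 := by field_simp
    rw [e] at h1
    have h2 := ((limU.pow 2).mul (limF.pow 2)).mul h1
    simpa using h2
  -- the choice of `Y`
  have ev : ∀ᶠ z in l, (1 : ℝ) ≤ z.im ∧ Qc z ≠ 0 ∧ Rc z ≠ 0 ∧
      ‖Jc z * Complex.exp (2 * Real.pi * Complex.I * z) - 1‖ < 1 ∧ ‖(Jc z)⁻¹‖ < ρ ∧
      ‖(pval us (Jc z)⁻¹) ^ 2 * (pval Fs (Jc z)⁻¹) ^ 2 * (κ * Qc z / Rc z) - 1‖ < 1 := by
    have a1 : ∀ᶠ z in l, (1 : ℝ) ≤ z.im := tendsto_comap.eventually (eventually_ge_atTop 1)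
    have a2 : ∀ᶠ z in l, Qc z ≠ 0 := hLim.Q.eventually_ne (pow_ne_zero 2 hκ0)
    have a3 : ∀ᶠ z in l, Rc z ≠ 0 := hLim.R.eventually_ne (pow_ne_zero 3 hκ0)
    have a4 : ∀ᶠ z in l, ‖Jc z * Complex.exp (2 * Real.pi * Complex.I * z) - 1‖ < 1 := by
      have h := (hLim.U.sub_const 1).norm
      rw [sub_self, norm_zero] at h
      exact h.eventually_lt_const one_pos
    have a5 : ∀ᶠ z in l, ‖(Jc z)⁻¹‖ < ρ := by
      have h := hLim.x.norm
      rw [norm_zero] at h
      exact h.eventually_lt_const hN.pos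
    have a6 : ∀ᶠ z in l,
        ‖(pval us (Jc z)⁻¹) ^ 2 * (pval Fs (Jc z)⁻¹) ^ 2 * (κ * Qc z / Rc z) - 1‖ < 1 := by
      have h := (limS.sub_const 1).norm
      rw [sub_self, norm_zero] at h
      exact h.eventually_lt_const one_pos
    filter_upwards [a1, a2, a3, a4, a5, a6] with z b1 b2 b3 b4 b5 b6
    exact ⟨b1, b2, b3, b4, b5, b6⟩
  rw [hl, eventually_comap] at ev
  obtain ⟨Y₀, hY₀⟩ := eventually_atTop.1 ev
  set Y := max 1 Y₀ with hY
  have hall : ∀ z : ℂ, Y < z.im → Qc z ≠ 0 ∧ Rc z ≠ 0 ∧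
      ‖Jc z * Complex.exp (2 * Real.pi * Complex.I * z) - 1‖ < 1 ∧ ‖(Jc z)⁻¹‖ < ρ ∧
      ‖(pval us (Jc z)⁻¹) ^ 2 * (pval Fs (Jc z)⁻¹) ^ 2 * (κ * Qc z / Rc z) - 1‖ < 1 := by
    intro z hz
    exact (hY₀ z.im ((le_max_right _ _).trans hz.le) z rfl).2
  have hpos : ∀ z : ℂ, Y < z.im → 0 < z.im := fun z hz =>
    (one_pos.trans_le (le_max_left _ _)).trans hz
  have hslit : ∀ z : ℂ, Y < z.im →
      Jc z * Complex.exp (2 * Real.pi * Complex.I * z) ∈ Complex.slitPlane := by
    intro z hz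
    obtain ⟨-, -, h, -, -⟩ := hall z hz
    left
    have h1 := Complex.abs_re_le_norm (Jc z * Complex.exp (2 * Real.pi * Complex.I * z) - 1)
    rw [Complex.sub_re, Complex.one_re] at h1
    have h2 := (abs_lt.1 (h1.trans_lt h)).1
    linarith
  have hJ0 : ∀ z : ℂ, Y < z.im → Jc z ≠ 0 := by
    intro z hz h
    have h1 := Complex.slitPlane_ne_zero (hslit z hz)
    rw [h, zero_mul] at h1
    exact h1 rfl
  -- the derivative of `x`
  have hxd : ∀ z : ℂ, Y < z.im →
      HasDerivAt (fun w => (Jc w)⁻¹) (12 * (Rc z / Qc z) * (Jc z)⁻¹) z := by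
    intro z hz
    have h1 := (derivJ hR hJ (hpos z hz) (hall z hz).1).inv (hJ0 z hz)
    have h2 := hJ0 z hz
    have e : -(-12 * (Rc z / Qc z) * Jc z) / Jc z ^ 2 = 12 * (Rc z / Qc z) * (Jc z)⁻¹ := by
      field_simp
    rw [e] at h1
    exact h1
  have hx1728 : ∀ z : ℂ, Y < z.im → (1 - 1728 * (Jc z)⁻¹) * Qc z ^ 3 = Rc z ^ 2 := by
    intro z hz
    have h1 := hR.jinv z (hpos z hz)
    have h2 := hJ0 z hz
    have h3 : (Jc z)⁻¹ * Jc z = 1 := inv_mul_cancel₀ h2
    linear_combination (Rc z ^ 2 - Qc z ^ 3) * h3 + (Jc z)⁻¹ * h1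
  have chain : ∀ {s : PowerSeries ℚ} {f' z : ℂ}, Y < z.im → HasDerivAt (pval s) f' (Jc z)⁻¹ →
      HasDerivAt (fun w => pval s (Jc w)⁻¹) (12 * (Rc z / Qc z) * ((Jc z)⁻¹ * f')) z := by
    intro s f' z hz hs
    have h1 := HasDerivAt.comp z hs (hxd z hz)
    have e : f' * (12 * (Rc z / Qc z) * (Jc z)⁻¹) = 12 * (Rc z / Qc z) * ((Jc z)⁻¹ * f') := by ring
    rw [e] at h1
    exact h1
  have dF : ∀ z : ℂ, Y < z.im → HasDerivAt (fun w => pval Fs (Jc w)⁻¹)
      (12 * (Rc z / Qc z) * pval (th Fs) (Jc z)⁻¹) z := by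
    intro z hz
    obtain ⟨f', h1, h2⟩ := hN.F0 _ (hall z hz).2.2.2.1
    have h3 := chain hz h1
    rw [h2] at h3
    exact h3
  have dG : ∀ z : ℂ, Y < z.im → HasDerivAt (fun w => pval Gs (Jc w)⁻¹)
      (12 * (Rc z / Qc z) * pval (th Gs) (Jc z)⁻¹) z := by
    intro z hz
    obtain ⟨f', h1, h2⟩ := hN.G0 _ (hall z hz).2.2.2.1
    have h3 := chain hz h1
    rw [h2] at h3
    exact h3
  have dF1 : ∀ z : ℂ, Y < z.im → ∃ e : ℂ, HasDerivAt (fun w => pval (th Fs) (Jc w)⁻¹)
      (12 * (Rc z / Qc z) * e) z ∧ (1 - 1728 * (Jc z)⁻¹) * e =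
        864 * (Jc z)⁻¹ * pval (th Fs) (Jc z)⁻¹ + 60 * (Jc z)⁻¹ * pval Fs (Jc z)⁻¹ := by
    intro z hz
    obtain ⟨f', h1, h2⟩ := hN.F1 _ (hall z hz).2.2.2.1
    exact ⟨_, chain hz h1, h2⟩
  have dRQ : ∀ z : ℂ, Y < z.im → HasDerivAt (fun w => Rc w / Qc w)
      ((6 * (Pc z * Rc z - Qc z ^ 2) * Qc z - Rc z * (4 * (Pc z * Qc z - Rc z))) / Qc z ^ 2) z :=
    fun z hz => (hR.derivR z (hpos z hz)).div (hR.derivQ z (hpos z hz)) (hall z hz).1
  -- step 2
  set h₀ : ℂ → ℂ := fun z => 12 * (Rc z / Qc z) * pval (th Fs) (Jc z)⁻¹ -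
    (Pc z - Rc z / Qc z) * pval Fs (Jc z)⁻¹ with hh₀
  have dh : ∀ z : ℂ, Y < z.im → HasDerivAt h₀ ((Pc z - Rc z / Qc z) * h₀ z) z := by
    intro z hz
    obtain ⟨e, he, he2⟩ := dF1 z hz
    have h1 := ((dRQ z hz).const_mul 12).mul he
    have h2 := ((hR.derivP z (hpos z hz)).sub (dRQ z hz)).mul (dF z hz)
    have h3 := h1.sub h2
    have hQ := (hall z hz).1
    have hRn := (hall z hz).2.1
    have hJn := hJ0 z hz
    have hx := hx1728 z hz
    have e3 : (12 * ((6 * (Pc z * Rc z - Qc z ^ 2) * Qc z - Rc z * (4 * (Pc z * Qc z - Rc z))) /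
          Qc z ^ 2) * pval (th Fs) (Jc z)⁻¹ + 12 * (Rc z / Qc z) * (12 * (Rc z / Qc z) * e)) -
        ((Pc z ^ 2 - Qc z - (6 * (Pc z * Rc z - Qc z ^ 2) * Qc z -
          Rc z * (4 * (Pc z * Qc z - Rc z))) / Qc z ^ 2) * pval Fs (Jc z)⁻¹ +
          (Pc z - Rc z / Qc z) * (12 * (Rc z / Qc z) * pval (th Fs) (Jc z)⁻¹)) =
        (Pc z - Rc z / Qc z) * h₀ z := by
      -- `R² e = Q³ (1 - 1728 x) e`
      have e4 : Rc z ^ 2 * e = Qc z ^ 3 * (864 * (Jc z)⁻¹ * pval (th Fs) (Jc z)⁻¹ +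
          60 * (Jc z)⁻¹ * pval Fs (Jc z)⁻¹) := by
        linear_combination (-e) * hx + Qc z ^ 3 * he2
      have e5 : 1728 * (Jc z)⁻¹ * Qc z ^ 3 = Qc z ^ 3 - Rc z ^ 2 := by
        linear_combination -hx
      have e6 : Rc z ^ 2 * e = (Qc z ^ 3 - Rc z ^ 2) *
          (1 / 2 * pval (th Fs) (Jc z)⁻¹ + 5 / 144 * pval Fs (Jc z)⁻¹) := by
        rw [e4]
        linear_combination (1 / 2 * pval (th Fs) (Jc z)⁻¹ + 5 / 144 * pval Fs (Jc z)⁻¹) * e5
      show _ = (Pc z - Rc z / Qc z) * (12 * (Rc z / Qc z) * pval (th Fs) (Jc z)⁻¹ -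
        (Pc z - Rc z / Qc z) * pval Fs (Jc z)⁻¹)
      generalize pval (th Fs) (Jc z)⁻¹ = g at e6 ⊢
      generalize pval Fs (Jc z)⁻¹ = f at e6 ⊢
      generalize (Jc z)⁻¹ = x at hx
      have e7 : 12 * (Rc z / Qc z) * (12 * (Rc z / Qc z) * e) =
          144 * ((Qc z ^ 3 - Rc z ^ 2) * (1 / 2 * g + 5 / 144 * f)) / Qc z ^ 2 := by
        rw [← e6]
        field_simp
        ring
      rw [e7]
      field_simp
      ring
    exact h3.congr_deriv e3
  have limh : Tendsto (fun z => h₀ z ^ 4 / Qc z) l (𝓝 0) := by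
    have h1 : Tendsto h₀ l (𝓝 (12 * κ * 0 - (κ - κ) * 1)) :=
      ((limRQ.const_mul 12).mul limF1).sub ((hLim.P.sub limRQ).mul limF)
    have h2 := (h1.pow 4).div hLim.Q (pow_ne_zero 2 hκ0)
    have e : (12 * κ * 0 - (κ - κ) * 1) ^ 4 / κ ^ 2 = 0 := by simp
    rw [e] at h2
    exact h2
  have hh0 : ∀ z : ℂ, Y < z.im → h₀ z = 0 := by
    intro z hz
    have hd : ∀ w : ℂ, Y < w.im → HasDerivAt (fun z => h₀ z ^ 4 / Qc z) 0 w := by
      intro w hw
      have h1 := ((dh w hw).pow 4).div (hR.derivQ w (hpos w hw)) (hall w hw).1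
      have hQ := (hall w hw).1
      have e : (((4 : ℕ) * h₀ w ^ (4 - 1) * ((Pc w - Rc w / Qc w) * h₀ w)) * Qc w -
          h₀ w ^ 4 * (4 * (Pc w * Qc w - Rc w))) / Qc w ^ 2 = 0 := by
        push_cast
        field_simp
        ring
      exact h1.congr_deriv e
    have h1 := const_of hd limh hz
    have h2 : h₀ z ^ 4 = 0 := by
      rcases div_eq_zero_iff.1 h1 with h | h
      · exact h
      · exact absurd h (hall z hz).1
    exact pow_eq_zero_iff (by norm_num) |>.1 h2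
  have hQF : ∀ z : ℂ, Y < z.im → Qc z = κ ^ 2 * pval Fs (Jc z)⁻¹ ^ 4 := by
    intro z hz
    have hd : ∀ w : ℂ, Y < w.im → HasDerivAt (fun z => pval Fs (Jc z)⁻¹ ^ 4 / Qc z) 0 w := by
      intro w hw
      have h1 := ((dF w hw).pow 4).div (hR.derivQ w (hpos w hw)) (hall w hw).1
      have hQ := (hall w hw).1
      have h2 : 12 * (Rc w / Qc w) * pval (th Fs) (Jc w)⁻¹ =
          (Pc w - Rc w / Qc w) * pval Fs (Jc w)⁻¹ := sub_eq_zero.1 (hh0 w hw)
      have e : (((4 : ℕ) * pval Fs (Jc w)⁻¹ ^ (4 - 1) *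
          (12 * (Rc w / Qc w) * pval (th Fs) (Jc w)⁻¹)) * Qc w -
          pval Fs (Jc w)⁻¹ ^ 4 * (4 * (Pc w * Qc w - Rc w))) / Qc w ^ 2 = 0 := by
        rw [h2]
        push_cast
        field_simp
        ring
      exact h1.congr_deriv e
    have hlim := (limF.pow 4).div hLim.Q (pow_ne_zero 2 hκ0)
    have h1 := const_of hd hlim hz
    have hQ := (hall z hz).1
    rw [one_pow, div_eq_div_iff hQ (pow_ne_zero 2 hκ0)] at h1
    linear_combination -h1
  -- step 3
  have hsgn : ∀ z : ℂ, Y < z.im →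
      pval us (Jc z)⁻¹ ^ 2 * pval Fs (Jc z)⁻¹ ^ 2 * (κ * Qc z) = Rc z := by
    intro z hz
    obtain ⟨hQ, hRn, -, hx, hs⟩ := hall z hz
    have h1 := hN.u4 _ hx
    have h2 := hQF z hz
    have h3 := hx1728 z hz
    set u := pval us (Jc z)⁻¹ with hu
    set F := pval Fs (Jc z)⁻¹ with hF
    set t := u ^ 2 * F ^ 2 * (κ * Qc z / Rc z) with ht
    have h4 : t ^ 2 = 1 := by
      have h5 : u ^ 4 * F ^ 4 * κ ^ 2 * Qc z ^ 2 = Rc z ^ 2 := by
        rw [h1]
        linear_combination h3 - (1 - 1728 * (Jc z)⁻¹) * Qc z ^ 2 * h2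
      rw [ht]
      field_simp
      linear_combination h5
    have h6 : (t - 1) * (t + 1) = 0 := by linear_combination h4
    have h7 : t = 1 := by
      rcases mul_eq_zero.1 h6 with h | h
      · exact sub_eq_zero.1 h
      · exfalso
        have h8 : t = -1 := eq_neg_of_add_eq_zero_left h
        rw [h8] at hs
        norm_num at hs
    rw [ht] at h7
    field_simp at h7
    linear_combination h7
  refine ⟨Y, le_max_left _ _, fun z hz => ⟨hJ0 z hz, hQF z hz, ?_⟩⟩
  have hd : ∀ w : ℂ, Y < w.im → HasDerivAt (fun z => pval Gs (Jc z)⁻¹ / pval Fs (Jc z)⁻¹ -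
      Complex.log (Jc z * Complex.exp (2 * Real.pi * Complex.I * z))) 0 w := by
    intro w hw
    obtain ⟨hQ, hRn, -, hx, -⟩ := hall w hw
    have hF := (hN.nz _ hx).1
    have hU := (hN.nz _ hx).2
    have h1 := (dG w hw).div (dF w hw) hF
    have h2 : HasDerivAt (fun z => Complex.exp (2 * Real.pi * Complex.I * z))
        (Complex.exp (2 * Real.pi * Complex.I * w) * (2 * Real.pi * Complex.I * 1)) w :=
      ((hasDerivAt_id w).const_mul (2 * Real.pi * Complex.I)).cexp
    have h3 := ((derivJ hR hJ (hpos w hw) hQ).mul h2).clog (hslit w hw)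
    have h4 := h1.sub h3
    have hJn := hJ0 w hw
    have hwr := hN.wr _ hx
    have hs := hsgn w hw
    have hexp := Complex.exp_ne_zero (2 * Real.pi * Complex.I * w)
    have h2πi : (2 * Real.pi * Complex.I : ℂ) = 12 * κ := by rw [hκ]; ring
    have e5 : (12 * (Rc w / Qc w) * pval (th Gs) (Jc w)⁻¹ * pval Fs (Jc w)⁻¹ -
          pval Gs (Jc w)⁻¹ * (12 * (Rc w / Qc w) * pval (th Fs) (Jc w)⁻¹)) /
            pval Fs (Jc w)⁻¹ ^ 2 -
        (-12 * (Rc w / Qc w) * Jc w * Complex.exp (2 * Real.pi * Complex.I * w) +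
          Jc w * (Complex.exp (2 * Real.pi * Complex.I * w) * (2 * Real.pi * Complex.I * 1))) /
          (Jc w * Complex.exp (2 * Real.pi * Complex.I * w)) = 0 := by
      have e6 : (-12 * (Rc w / Qc w) * Jc w * Complex.exp (2 * Real.pi * Complex.I * w) +
          Jc w * (Complex.exp (2 * Real.pi * Complex.I * w) * (2 * Real.pi * Complex.I * 1))) /
          (Jc w * Complex.exp (2 * Real.pi * Complex.I * w)) = -12 * (Rc w / Qc w) + 12 * κ := by
        rw [h2πi]
        field_simp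
      rw [e6]
      generalize pval (th Gs) (Jc w)⁻¹ = g1 at hwr ⊢
      generalize pval (th Fs) (Jc w)⁻¹ = f1 at hwr ⊢
      generalize pval Gs (Jc w)⁻¹ = g at hwr ⊢
      generalize pval Fs (Jc w)⁻¹ = f at hwr hs hF ⊢
      generalize pval us (Jc w)⁻¹ = u at hwr hs hU ⊢
      -- `u² f² κ Q = R`, `u² (f (g1 + f) - g f1) = 1`
      have e7 : (Rc w) * (f * g1 - g * f1) + Rc w * f ^ 2 - κ * Qc w * f ^ 2 = 0 := by
        have h5 : u ^ 2 * ((Rc w) * (f * g1 - g * f1) + Rc w * f ^ 2 - κ * Qc w * f ^ 2) = 0 := by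
          linear_combination Rc w * hwr - hs
        rcases mul_eq_zero.1 h5 with h | h
        · exact absurd (pow_eq_zero_iff (by norm_num) |>.1 h) hU
        · exact h
      field_simp
      linear_combination 12 * e7
    exact h4.congr_deriv e5
  have hlim : Tendsto (fun z => pval Gs (Jc z)⁻¹ / pval Fs (Jc z)⁻¹ -
      Complex.log (Jc z * Complex.exp (2 * Real.pi * Complex.I * z))) l (𝓝 0) := by
    have h1 := limG.div limF one_ne_zero
    have h2 : Tendsto (fun z => Complex.log (Jc z * Complex.exp (2 * Real.pi * Complex.I * z))) l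
        (𝓝 (Complex.log 1)) := hLim.U.clog (by simp)
    have h3 := h1.sub h2
    rw [Complex.log_one, zero_div, sub_zero] at h3
    exact h3
  have h1 := const_of hd hlim hz
  have hF := (hN.nz _ (hall z hz).2.2.2.1).1
  have h2 := sub_eq_zero.1 h1
  rw [div_eq_iff hF] at h2
  exact h2

end LNAM

theorem specLNA (hR : SpecRam) (hJ : SpecJ) (hLim : SpecLim) (hNum : SpecNum) : SpecLna :=
  LNAM.specLna hR hJ hLim hNum

end Pool.Agent.Lib.MP_47914d_nt.BD
end

section
/-!
# Module LNK: the uniformisation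
-/
set_option autoImplicit false

namespace Pool.Agent.Lib.MP_47914d_nt.BD

open Filter Topology
open Pool.Agent.Lib.MPf11a48.GF (pval)

theorem specLNK (hJ : SpecJ) (hNum : SpecNum) (hLna : SpecLna) : SpecLnk := by
  obtain ⟨ρ₀, hN⟩ := hNum
  obtain ⟨Y, hY1, hY⟩ := hLna
  obtain ⟨K, hK1, hK2, hK3⟩ := CMB.exists_K hJ
  set B : ℝ := K + Real.exp (2 * Real.pi * Y) with hB
  have hB0 : 0 < B := by positivity
  refine ⟨min ρ₀ B⁻¹, lt_min hN.pos (inv_pos.2 hB0), fun x hx0 hx => ?_⟩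
  have hx1 : ‖x‖ < ρ₀ := hx.trans_le (min_le_left _ _)
  have hx2 : B < ‖1 / x‖ := by
    have h1 : ‖x‖ < B⁻¹ := hx.trans_le (min_le_right _ _)
    have h2 : 0 < ‖x‖ := norm_pos_iff.2 hx0
    rw [norm_div, norm_one, one_div]
    exact (lt_inv_comm₀ h2 hB0).1 h1
  obtain ⟨w, hw1, hw2⟩ := hJ.surj (1 / x)
  have hwY : Y < w.im := by
    by_contra hcon
    push Not at hcon
    rw [← hw2] at hx2
    rcases le_or_gt w.im 1 with h | h
    · have h1 := hK3 w hw1 h
      have h2 : 0 < Real.exp (2 * Real.pi * Y) := Real.exp_pos _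
      linarith
    · have h1 := hK2 w h.le
      have h2 : ‖Jc w‖ ≤ K + ‖Complex.exp (-(2 * Real.pi * Complex.I * w))‖ := by
        have h3 := norm_sub_norm_le (Jc w) (Complex.exp (-(2 * Real.pi * Complex.I * w)))
        linarith
      rw [Complex.norm_exp] at h2
      have h3 : (-(2 * Real.pi * Complex.I * w)).re = 2 * Real.pi * w.im := by
        simp
      rw [h3] at h2
      have h4 : Real.exp (2 * Real.pi * w.im) ≤ Real.exp (2 * Real.pi * Y) := by
        apply Real.exp_le_exp.2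
        have := Real.pi_pos
        nlinarith
      linarith
  have hπ : (2 * Real.pi * Complex.I : ℂ) ≠ 0 := Complex.two_pi_I_ne_zero
  -- the point `w`
  have hw0 : 0 < w.im := by linarith
  set U := Jc w * Complex.exp (2 * Real.pi * Complex.I * w) with hU
  have hJw0 : Jc w ≠ 0 := (hY w hwY).1
  have hU0 : U ≠ 0 := mul_ne_zero hJw0 (Complex.exp_ne_zero _)
  have hexp : Complex.exp (Complex.log x) =
      Complex.exp (2 * Real.pi * Complex.I * w - Complex.log U) := by
    rw [Complex.exp_log hx0, Complex.exp_sub, Complex.exp_log hU0, hU, hw2]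
    have := Complex.exp_ne_zero (2 * Real.pi * Complex.I * w)
    field_simp
  obtain ⟨k, hk⟩ := Complex.exp_eq_exp_iff_exists_int.1 hexp
  -- shift
  have hshift : ∀ v : ℂ, v = w + (k : ℂ) → 0 < v.im ∧ Y < v.im ∧ Jc v = 1 / x ∧
      Jc v * Complex.exp (2 * Real.pi * Complex.I * v) = U := by
    rintro v rfl
    have h1 : (w + (k : ℂ)).im = w.im := by simp
    have h2 : Jc (w + (k : ℂ)) = Jc w := CMB.Jc_add_int hJ hw0 k
    refine ⟨by rw [h1]; exact hw0, by rw [h1]; exact hwY, by rw [h2, hw2], ?_⟩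
    rw [h2, hU]
    congr 1
    rw [Complex.exp_eq_exp_iff_exists_int]
    exact ⟨k, by ring⟩
  obtain ⟨hv0, hvY, hvJ, hvU⟩ := hshift _ rfl
  set v := w + (k : ℂ) with hv
  obtain ⟨-, hq, hg⟩ := hY v hvY
  have hinv : (Jc v)⁻¹ = x := by
    rw [hvJ, one_div, inv_inv]
  rw [hinv] at hq hg
  rw [hvU] at hg
  have hF : pval Fs x ≠ 0 := (hN.nz x hx1).1
  have hz : zx x = v := by
    unfold zx
    rw [hg, mul_div_assoc, div_self hF, hk, mul_one, div_eq_iff hπ, hv]
    ring
  rw [hz]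
  exact ⟨hv0, hvJ, hq⟩

end Pool.Agent.Lib.MP_47914d_nt.BD
end

section
/-!
# LNX: no Moebius relation between two translates
-/
set_option autoImplicit false

namespace Pool.Agent.Lib.MP_47914d_nt.BD

open Polynomial Matrix Filter Topology
open Pool.Agent.Lib.MPf11a48.GF (zq IsG pval peval)

namespace LNXM

theorem re_pos {x : ℂ} (hx : 0 < x.re) (m : ℕ) : 1 ≤ (1 + m * x : ℂ).re := by
  have : (0 : ℝ) ≤ m * x.re := mul_nonneg (Nat.cast_nonneg m) hx.le
  simpa using this

theorem ne_zero {x : ℂ} (hx : 0 < x.re) (m : ℕ) : (1 + m * x : ℂ) ≠ 0 := by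
  intro h
  have := re_pos hx m
  rw [h, Complex.zero_re] at this
  linarith

theorem xm_norm {x : ℂ} (hx : 0 < x.re) (m : ℕ) : ‖xm m x‖ ≤ ‖x‖ := by
  rw [xm, norm_div]
  refine div_le_self (norm_nonneg _) ?_
  exact (re_pos hx m).trans (Complex.re_le_norm _)

theorem xm_re {x : ℂ} (hx : 0 < x.re) (m : ℕ) : 0 < (xm m x).re := by
  have h0 : 0 < Complex.normSq (1 + m * x) := Complex.normSq_pos.2 (ne_zero hx m)
  rw [xm, Complex.div_re, ← add_div]
  refine div_pos ?_ h0
  have h1 : (1 + m * x : ℂ).re = 1 + m * x.re := by simp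
  have h2 : (1 + m * x : ℂ).im = m * x.im := by simp
  rw [h1, h2]
  have h3 : (0 : ℝ) ≤ m * (x.re ^ 2 + x.im ^ 2) := by positivity
  nlinarith

theorem diff_zx {ρ : ℝ} (N : Num ρ) {y : ℂ} (h1 : 0 < y.re) (h2 : ‖y‖ < ρ) :
    DifferentiableAt ℂ zx y := by
  obtain ⟨f, hf, -⟩ := N.F0 y h2
  obtain ⟨g, hg, -⟩ := N.G0 y h2
  have hl : DifferentiableAt ℂ Complex.log y :=
    (Complex.hasDerivAt_log (Or.inl h1)).differentiableAt
  exact (hl.add (hg.differentiableAt.div hf.differentiableAt (N.nz y h2).1)).div_const _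

theorem diff_comp {ρ : ℝ} (N : Num ρ) (m : ℕ) {x : ℂ} (h1 : 0 < x.re) (h2 : ‖x‖ < ρ) :
    DifferentiableAt ℂ (fun x => zx (xm m x)) x := by
  have hz := diff_zx N (xm_re h1 m) ((xm_norm h1 m).trans_lt h2)
  have hx : DifferentiableAt ℂ (xm m) x := by
    refine DifferentiableAt.div differentiableAt_id ?_ (ne_zero h1 m)
    exact (differentiableAt_id.const_mul _).const_add _
  exact DifferentiableAt.comp x hz hx

/-- the bounded part of `2 π i zx (xm m x)`, for real `x` -/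
noncomputable def hm (m : ℕ) (x : ℝ) : ℂ :=
  -(Real.log (1 + m * x) : ℂ) + pval Gs (xm m (x : ℂ)) / pval Fs (xm m (x : ℂ))

theorem zx_eq (m : ℕ) {x : ℝ} (hx : 0 < x) :
    zx (xm m (x : ℂ)) = ((Real.log x : ℂ) + hm m x) / (2 * Real.pi * Complex.I) := by
  have h1 : (0 : ℝ) < 1 + m * x := by positivity
  have h2 : xm m (x : ℂ) = ((x / (1 + m * x) : ℝ) : ℂ) := by
    rw [xm]
    push_cast
    rfl
  have h3 : Complex.log (xm m (x : ℂ)) = (Real.log x : ℂ) - (Real.log (1 + m * x) : ℂ) := by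
    rw [h2, ← Complex.ofReal_log (div_pos hx h1).le, Real.log_div hx.ne' h1.ne',
      Complex.ofReal_sub]
  rw [zx, h3, hm]
  ring

theorem hm_tendsto {ρ : ℝ} (N : Num ρ) (m : ℕ) : Tendsto (hm m) (𝓝[>] 0) (𝓝 0) := by
  have hz : xm m ((0 : ℝ) : ℂ) = 0 := by simp [xm]
  have hxc : ContinuousAt (fun x : ℝ => xm m (x : ℂ)) 0 := by
    refine ContinuousAt.div ?_ ?_ ?_
    · exact Complex.continuous_ofReal.continuousAt
    · exact (continuous_const.add
        (continuous_const.mul Complex.continuous_ofReal)).continuousAt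
    · simp
  have hF : ContinuousAt (fun x : ℝ => pval Fs (xm m (x : ℂ))) 0 := by
    obtain ⟨f, hf, -⟩ := N.F0 0 (by simpa using N.pos)
    refine ContinuousAt.comp (g := pval Fs) ?_ hxc
    rw [hz]
    exact hf.continuousAt
  have hG : ContinuousAt (fun x : ℝ => pval Gs (xm m (x : ℂ))) 0 := by
    obtain ⟨f, hf, -⟩ := N.G0 0 (by simpa using N.pos)
    refine ContinuousAt.comp (g := pval Gs) ?_ hxc
    rw [hz]
    exact hf.continuousAt
  have hlog : ContinuousAt (fun x : ℝ => -(Real.log (1 + m * x) : ℂ)) 0 := by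
    refine ContinuousAt.neg ?_
    refine ContinuousAt.comp (g := (Complex.ofReal : ℝ → ℂ))
      Complex.continuous_ofReal.continuousAt ?_
    refine ContinuousAt.log ?_ (by simp)
    exact (continuous_const.add (continuous_const.mul continuous_id)).continuousAt
  have hc : ContinuousAt (hm m) 0 := by
    refine hlog.add (hG.div hF ?_)
    rw [hz, N.zero.1]
    exact one_ne_zero
  have h0 : hm m 0 = 0 := by
    rw [hm, hz, N.zero.2.2.1]
    simp
  have := hc.tendsto
  rw [h0] at this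
  exact this.mono_left nhdsWithin_le_nhds

end LNXM

open LNXM in
theorem specLNX (hN : SpecNum) (hL : SpecLnk) : SpecLnx := by
  obtain ⟨ρ₁, N⟩ := hN
  obtain ⟨ρ₂, hρ₂, hK⟩ := hL
  refine ⟨min ρ₁ ρ₂, lt_min N.pos hρ₂, ?_⟩
  intro m m' hmm x₀ hx₀ hsm α β γ δ hdet hev
  have hm2 : 2 * x₀ < min ρ₁ ρ₂ := by
    refine lt_of_le_of_lt ?_ hsm
    have : (0 : ℝ) ≤ (m + m') * x₀ := by positivity
    nlinarith
  have hV1 : ∀ x ∈ Metric.ball (x₀ : ℂ) x₀, 0 < x.re ∧ ‖x‖ < 2 * x₀ := by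
    intro x hx
    rw [Metric.mem_ball, dist_eq_norm] at hx
    constructor
    · have h1 := Complex.abs_re_le_norm (x - x₀)
      have h2 := neg_abs_le (x - (x₀ : ℂ)).re
      have h3 : (x - (x₀ : ℂ)).re = x.re - x₀ := by simp
      rw [h3] at h1 h2
      linarith
    · have h1 : ‖x‖ ≤ ‖x - x₀‖ + ‖(x₀ : ℂ)‖ := by
        have := norm_add_le (x - x₀) (x₀ : ℂ)
        rwa [sub_add_cancel] at this
      have h2 : ‖(x₀ : ℂ)‖ = x₀ := by
        rw [Complex.norm_real, Real.norm_of_nonneg hx₀.le]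
      linarith
  have hd : ∀ k : ℕ, DifferentiableOn ℂ (fun x => zx (xm k x)) (Metric.ball (x₀ : ℂ) x₀) := by
    intro k x hx
    obtain ⟨h1, h2⟩ := hV1 x hx
    exact (diff_comp N k h1 (h2.trans (hm2.trans_le (min_le_left _ _)))).differentiableWithinAt
  have hA1 : AnalyticOnNhd ℂ (fun x => (γ * zx (xm m x) + δ) * zx (xm m' x))
      (Metric.ball (x₀ : ℂ) x₀) :=
    ((((hd m).const_mul γ).add_const δ).mul (hd m')).analyticOnNhd Metric.isOpen_ball
  have hA2 : AnalyticOnNhd ℂ (fun x => α * zx (xm m x) + β) (Metric.ball (x₀ : ℂ) x₀) :=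
    (((hd m).const_mul α).add_const β).analyticOnNhd Metric.isOpen_ball
  have hEq := hA1.eqOn_of_preconnected_of_eventuallyEq hA2
    (convex_ball (x₀ : ℂ) x₀).isPreconnected (Metric.mem_ball_self hx₀) hev
  have hreal : ∀ x : ℝ, 0 < x → x < 2 * x₀ →
      (γ * zx (xm m (x : ℂ)) + δ) * zx (xm m' (x : ℂ)) = α * zx (xm m (x : ℂ)) + β := by
    intro x h1 h2
    refine hEq ?_
    rw [Metric.mem_ball, dist_eq_norm, ← Complex.ofReal_sub, Complex.norm_real, Real.norm_eq_abs,
      abs_lt]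
    constructor <;> linarith
  -- the limit `x → 0`
  set c : ℂ := 2 * Real.pi * Complex.I with hc
  have hc0 : c ≠ 0 := Complex.two_pi_I_ne_zero
  have hrel : ∀ᶠ x : ℝ in 𝓝[>] 0, (Real.log x : ℂ) ≠ 0 ∧
      (γ * (((Real.log x : ℂ) + hm m x) / c) + δ) * (((Real.log x : ℂ) + hm m' x) / c) =
        α * (((Real.log x : ℂ) + hm m x) / c) + β := by
    have h1 : ∀ᶠ x : ℝ in 𝓝[>] 0, x < min 1 (2 * x₀) := by
      refine nhdsWithin_le_nhds (Iio_mem_nhds ?_)
      exact lt_min one_pos (by linarith)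
    filter_upwards [h1, self_mem_nhdsWithin] with x hx hx0
    have hx0' : 0 < x := hx0
    refine ⟨?_, ?_⟩
    · have := Real.log_neg hx0' (hx.trans_le (min_le_left _ _))
      exact_mod_cast this.ne
    · have := hreal x hx0' (hx.trans_le (min_le_right _ _))
      rwa [zx_eq m hx0', zx_eq m' hx0'] at this
  have hi : Tendsto (fun x : ℝ => ((Real.log x : ℂ))⁻¹) (𝓝[>] 0) (𝓝 0) := by
    have h1 : Tendsto (fun x : ℝ => (Real.log x)⁻¹) (𝓝[>] 0) (𝓝 0) :=
      tendsto_inv_atBot_zero.comp Real.tendsto_log_nhdsGT_zero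
    have h2 := (Complex.continuous_ofReal.tendsto 0).comp h1
    simpa [Function.comp_def] using h2
  have hh := hm_tendsto N m
  have hh' := hm_tendsto N m'
  have hγ : γ = 0 := by
    have t1 : Tendsto (fun x : ℝ => (γ * (1 + hm m x * ((Real.log x : ℂ))⁻¹) +
        δ * c * ((Real.log x : ℂ))⁻¹) * (1 + hm m' x * ((Real.log x : ℂ))⁻¹)) (𝓝[>] 0)
        (𝓝 ((γ * (1 + 0 * 0) + δ * c * 0) * (1 + 0 * 0))) :=
      ((tendsto_const_nhds.mul (tendsto_const_nhds.add (hh.mul hi))).add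
        (tendsto_const_nhds.mul hi)).mul (tendsto_const_nhds.add (hh'.mul hi))
    have t2 : Tendsto (fun x : ℝ => α * c * ((Real.log x : ℂ))⁻¹ *
        (1 + hm m x * ((Real.log x : ℂ))⁻¹) + β * c ^ 2 * ((Real.log x : ℂ))⁻¹ ^ 2) (𝓝[>] 0)
        (𝓝 (α * c * 0 * (1 + 0 * 0) + β * c ^ 2 * 0 ^ 2)) :=
      (((tendsto_const_nhds.mul hi).mul (tendsto_const_nhds.add (hh.mul hi)))).add
        (tendsto_const_nhds.mul (hi.pow 2))
    have t3 : (fun x : ℝ => (γ * (1 + hm m x * ((Real.log x : ℂ))⁻¹) +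
        δ * c * ((Real.log x : ℂ))⁻¹) * (1 + hm m' x * ((Real.log x : ℂ))⁻¹)) =ᶠ[𝓝[>] 0]
        (fun x : ℝ => α * c * ((Real.log x : ℂ))⁻¹ *
        (1 + hm m x * ((Real.log x : ℂ))⁻¹) + β * c ^ 2 * ((Real.log x : ℂ))⁻¹ ^ 2) := by
      filter_upwards [hrel] with x hx
      obtain ⟨h0, h1⟩ := hx
      generalize (Real.log x : ℂ) = ℓ at *
      generalize hm m x = h at *
      generalize hm m' x = h' at *
      field_simp at h1 ⊢
      linear_combination h1
    have := tendsto_nhds_unique (t1.congr' t3) t2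
    simpa using this
  subst hγ
  have hδ : δ = α := by
    have t1 : Tendsto (fun x : ℝ => δ * (1 + hm m' x * ((Real.log x : ℂ))⁻¹)) (𝓝[>] 0)
        (𝓝 (δ * (1 + 0 * 0))) :=
      tendsto_const_nhds.mul (tendsto_const_nhds.add (hh'.mul hi))
    have t2 : Tendsto (fun x : ℝ => α * (1 + hm m x * ((Real.log x : ℂ))⁻¹) +
        β * c * ((Real.log x : ℂ))⁻¹) (𝓝[>] 0) (𝓝 (α * (1 + 0 * 0) + β * c * 0)) :=
      (tendsto_const_nhds.mul (tendsto_const_nhds.add (hh.mul hi))).add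
        (tendsto_const_nhds.mul hi)
    have t3 : (fun x : ℝ => δ * (1 + hm m' x * ((Real.log x : ℂ))⁻¹)) =ᶠ[𝓝[>] 0]
        (fun x : ℝ => α * (1 + hm m x * ((Real.log x : ℂ))⁻¹) +
        β * c * ((Real.log x : ℂ))⁻¹) := by
      filter_upwards [hrel] with x hx
      obtain ⟨h0, h1⟩ := hx
      generalize (Real.log x : ℂ) = ℓ at *
      generalize hm m x = h at *
      generalize hm m' x = h' at *
      have h2 : (ℓ + h') / c * c = ℓ + h' := div_mul_cancel₀ _ hc0
      have h3 : (ℓ + h) / c * c = ℓ + h := div_mul_cancel₀ _ hc0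
      have h4 : ℓ * ℓ⁻¹ = 1 := mul_inv_cancel₀ h0
      linear_combination (c * h1 - δ * h2 + α * h3) * ℓ⁻¹ + (α - δ) * h4
    have := tendsto_nhds_unique (t1.congr' t3) t2
    simpa using this
  subst hδ
  have hβ : β = 0 := by
    have t1 : Tendsto (fun x : ℝ => δ * (hm m' x - hm m x)) (𝓝[>] 0) (𝓝 (δ * (0 - 0))) :=
      tendsto_const_nhds.mul (hh'.sub hh)
    have t3 : (fun x : ℝ => δ * (hm m' x - hm m x)) =ᶠ[𝓝[>] 0] (fun _ => β * c) := by
      filter_upwards [hrel] with x hx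
      obtain ⟨h0, h1⟩ := hx
      generalize (Real.log x : ℂ) = ℓ at *
      generalize hm m x = h at *
      generalize hm m' x = h' at *
      have h2 : (ℓ + h') / c * c = ℓ + h' := div_mul_cancel₀ _ hc0
      have h3 : (ℓ + h) / c * c = ℓ + h := div_mul_cancel₀ _ hc0
      linear_combination c * h1 - δ * h2 + δ * h3
    have := tendsto_nhds_unique (t1.congr' t3) tendsto_const_nhds
    rw [sub_zero, mul_zero] at this
    rcases mul_eq_zero.1 this.symm with h | h
    · exact h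
    · exact absurd h hc0
  subst hβ
  have hδ0 : δ ≠ 0 := by
    rintro rfl
    simp at hdet
  have hzz : zx (xm m' (x₀ : ℂ)) = zx (xm m (x₀ : ℂ)) := by
    have := hreal x₀ hx₀ (by linarith)
    rw [zero_mul, zero_add, add_zero] at this
    exact mul_left_cancel₀ hδ0 this
  have hre : 0 < (x₀ : ℂ).re := by simpa using hx₀
  have hn : ‖(x₀ : ℂ)‖ < ρ₂ := by
    rw [Complex.norm_real, Real.norm_of_nonneg hx₀.le]
    have := hm2.trans_le (min_le_right ρ₁ ρ₂)
    linarith
  have hJ : ∀ k : ℕ, Jc (zx (xm k (x₀ : ℂ))) = 1 / (x₀ : ℂ) + k := by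
    intro k
    have h1 := xm_re hre k
    have hne : xm k (x₀ : ℂ) ≠ 0 := by
      intro h
      rw [h, Complex.zero_re] at h1
      exact lt_irrefl _ h1
    rw [(hK _ hne ((xm_norm hre k).trans_lt hn)).2.1, xm]
    have h2 : (x₀ : ℂ) ≠ 0 := by exact_mod_cast hx₀.ne'
    rw [one_div_div, add_div, mul_div_cancel_right₀ _ h2]
  have h1 := hJ m
  have h2 := hJ m'
  rw [hzz, h1] at h2
  exact hmm (by exact_mod_cast add_left_cancel h2)

end Pool.Agent.Lib.MP_47914d_nt.BD
end

section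
/-!
# The modular Schanuel conjecture in bounded degree: `SL₂` satisfies the hypotheses of Theorem J
-/
set_option autoImplicit false

namespace Pool.Agent.Lib.MP_47914d_nt.BD

namespace SLMM

open Matrix
open MvPolynomial hiding X C
open Pool.Agent.Lib.MPf11a48.GL2
open Pool.Agent.Lib.MPf11a48.K3 (cx)
open Pool.Agent.Lib.MPf11a48.Tors (ClosedOver)

theorem mem_SL {g : GL (Fin 2) ℂ} : g ∈ SL ↔ g.1.det = 1 := Iff.rfl

/-- `det - 1` -/
noncomputable def dp (R : Type) [CommRing R] : MvPolynomial (Fin 2 × Fin 2) R :=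
  MvPolynomial.X (0, 0) * MvPolynomial.X (1, 1) - MvPolynomial.X (0, 1) * MvPolynomial.X (1, 0) - 1

theorem dp_van : dp ℂ ∈ van (SL : Set (GL (Fin 2) ℂ)) := by
  intro f hf
  have h : f.1.det = 1 := hf
  rw [Matrix.det_fin_two] at h
  simp only [dp, map_sub, map_mul, eval_X, map_one, en]
  linear_combination h

theorem closed : ClosedOver ⊥ (SL : Set (GL (Fin 2) ℂ)) := by
  refine ⟨{dp _}, ?_⟩
  ext g
  rw [SetLike.mem_coe, mem_SL, Set.mem_ofPred_eq, Matrix.det_fin_two]
  constructor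
  · rintro h p rfl
    simp only [dp, map_sub, map_mul, aeval_X, map_one]
    linear_combination h
  · intro h
    have h1 := h _ rfl
    simp only [dp, map_sub, map_mul, aeval_X, map_one] at h1
    linear_combination h1

/-- the entries of `U(a) L(b) U(c) L(d)` -/
def par {R : Type} [CommRing R] (x : Fin 4 → R) : Matrix (Fin 2) (Fin 2) R :=
  !![(1 + x 0 * x 1) * (1 + x 2 * x 3) + x 0 * x 3, (1 + x 0 * x 1) * x 2 + x 0;
    x 1 * (1 + x 2 * x 3) + x 3, x 1 * x 2 + 1]

theorem det_par {R : Type} [CommRing R] (x : Fin 4 → R) : (par x).det = 1 := by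
  rw [par, Matrix.det_fin_two_of]
  ring

theorem par_surj (M : Matrix (Fin 2) (Fin 2) ℂ) (h : M.det = 1) : ∃ x, par x = M := by
  rw [Matrix.det_fin_two] at h
  by_cases hc : M 1 0 = 0
  · rw [hc, mul_zero, sub_zero] at h
    have hd : M 1 1 ≠ 0 := right_ne_zero_of_mul_eq_one h
    refine ⟨![(M 0 0 - M 0 1 - 1) / (-M 1 1), -M 1 1, (M 1 1 - 1) / (-M 1 1), 1], ?_⟩
    refine ext2 ?_ ?_ ?_ ?_
    · simp only [par, Matrix.of_apply, Matrix.cons_val', Matrix.cons_val_zero, Matrix.cons_val_one,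
        Matrix.cons_val_fin_one, Matrix.cons_val]
      field_simp
      linear_combination (-1 : ℂ) * h
    · simp only [par, Matrix.of_apply, Matrix.cons_val', Matrix.cons_val_zero, Matrix.cons_val_one,
        Matrix.cons_val_fin_one, Matrix.cons_val]
      field_simp
      linear_combination (-1 : ℂ) * h
    · simp only [par, Matrix.of_apply, Matrix.cons_val', Matrix.cons_val_zero, Matrix.cons_val_one,
        Matrix.cons_val_fin_one, Matrix.cons_val]
      rw [hc]
      field_simp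
      ring
    · simp only [par, Matrix.of_apply, Matrix.cons_val', Matrix.cons_val_zero, Matrix.cons_val_one,
        Matrix.cons_val_fin_one, Matrix.cons_val]
      field_simp
      ring
  · refine ⟨![(M 0 0 - 1) / M 1 0, M 1 0, (M 1 1 - 1) / M 1 0, 0], ?_⟩
    refine ext2 ?_ ?_ ?_ ?_
    · simp only [par, Matrix.of_apply, Matrix.cons_val', Matrix.cons_val_zero, Matrix.cons_val_one,
        Matrix.cons_val_fin_one, Matrix.cons_val]
      field_simp
      ring
    · simp only [par, Matrix.of_apply, Matrix.cons_val', Matrix.cons_val_zero, Matrix.cons_val_one,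
        Matrix.cons_val_fin_one, Matrix.cons_val]
      field_simp
      linear_combination h
    · simp only [par, Matrix.of_apply, Matrix.cons_val', Matrix.cons_val_zero, Matrix.cons_val_one,
        Matrix.cons_val_fin_one, Matrix.cons_val]
      ring
    · simp only [par, Matrix.of_apply, Matrix.cons_val', Matrix.cons_val_zero, Matrix.cons_val_one,
        Matrix.cons_val_fin_one, Matrix.cons_val]
      field_simp
      ring

/-- the pull back of a polynomial under the parametrisation -/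
noncomputable def pb : MvPolynomial (Fin 2 × Fin 2) ℂ →ₐ[ℂ] MvPolynomial (Fin 4) ℂ :=
  aeval (en (par (MvPolynomial.X : Fin 4 → MvPolynomial (Fin 4) ℂ)))

theorem eval_pb (x : Fin 4 → ℂ) (p : MvPolynomial (Fin 2 × Fin 2) ℂ) :
    eval x (pb p) = eval (en (par x)) p := by
  have h : ∀ v, eval x (en (par (MvPolynomial.X : Fin 4 → MvPolynomial (Fin 4) ℂ)) v) =
      en (par x) v := by
    rintro ⟨i, j⟩
    fin_cases i <;> fin_cases j <;>
      simp only [en, par, Matrix.of_apply, Matrix.cons_val', Matrix.cons_val_zero,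
        Matrix.cons_val_one, Matrix.cons_val_fin_one, Fin.zero_eta, Fin.mk_one, map_add, map_mul,
        eval_X, map_one]
  induction p using MvPolynomial.induction_on with
  | C a => rw [pb, algHom_C, algebraMap_eq, eval_C, eval_C]
  | add p q hp hq => rw [map_add, map_add, map_add, hp, hq]
  | mul_X p v hp => rw [map_mul, map_mul, map_mul, hp, pb, aeval_X, eval_X, h]

theorem mem_van {p : MvPolynomial (Fin 2 × Fin 2) ℂ} :
    p ∈ van (SL : Set (GL (Fin 2) ℂ)) ↔ pb p = 0 := by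
  constructor
  · intro h
    refine MvPolynomial.funext fun x => ?_
    rw [eval_pb, map_zero]
    have hd : (par x).det ≠ 0 := by
      rw [det_par]
      exact one_ne_zero
    exact h (Matrix.GeneralLinearGroup.mkOfDetNeZero (par x) hd) (det_par x)
  · intro h f hf
    obtain ⟨x, hx⟩ := par_surj f.1 hf
    rw [← hx, ← eval_pb, h, map_zero]

theorem irred (p q : MvPolynomial (Fin 2 × Fin 2) ℂ)
    (h : p * q ∈ van (SL : Set (GL (Fin 2) ℂ))) :
    p ∈ van (SL : Set (GL (Fin 2) ℂ)) ∨ q ∈ van (SL : Set (GL (Fin 2) ℂ)) := by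
  rw [mem_van, map_mul] at h
  rw [mem_van, mem_van]
  exact mul_eq_zero.1 h

theorem tang_sub {R : Type} [CommRing R] (p q : MvPolynomial (Fin 2 × Fin 2) R)
    (x z : Matrix (Fin 2) (Fin 2) R) : tang (p - q) x z = tang p x z - tang q x z := by
  have h := tang_add (p - q) q x z
  rw [sub_add_cancel] at h
  rw [h, add_sub_cancel_right]

theorem trace_lie {M : Matrix (Fin 2) (Fin 2) ℂ} (h : M ∈ lie (SL : Set (GL (Fin 2) ℂ))) :
    M.trace = 0 := by
  have h1 := h 1 SL.one_mem _ dp_van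
  have h2 : (1 : MvPolynomial (Fin 2 × Fin 2) ℂ) = MvPolynomial.C 1 := by rw [map_one]
  rw [dp, h2, tang_sub, tang_sub, tang_mul, tang_mul, tang_C, tang_X, tang_X, tang_X, tang_X,
    Units.val_one, Matrix.mul_one] at h1
  simp only [eval_X, en, Matrix.one_apply_eq] at h1
  rw [Matrix.one_apply_ne (by decide), Matrix.one_apply_ne (by decide)] at h1
  rw [Matrix.trace_fin_two]
  linear_combination h1

/-- `1 + s N` for a matrix `N` with `N² = 0`, trace `0`, as an element of `SL` -/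
theorem uni_det (N : Matrix (Fin 2) (Fin 2) ℂ) (ht : N.trace = 0) (hd : N.det = 0) (s : ℂ) :
    (1 + s • N).det = 1 := by
  rw [Matrix.trace_fin_two] at ht
  rw [Matrix.det_fin_two] at hd
  rw [Matrix.det_fin_two]
  simp only [Matrix.add_apply, Matrix.smul_apply, smul_eq_mul, Matrix.one_apply_eq]
  rw [Matrix.one_apply_ne (by decide), Matrix.one_apply_ne (by decide)]
  linear_combination s * ht + s ^ 2 * hd

theorem br_step (h : Submodule ℂ (Matrix (Fin 2) (Fin 2) ℂ))
    (hA : Pool.Agent.Lib.MPf11a48.CG.Adst SL h) (N : Matrix (Fin 2) (Fin 2) ℂ)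
    (ht : N.trace = 0) (hd : N.det = 0) (hN : N * N = 0) {Y : Matrix (Fin 2) (Fin 2) ℂ}
    (hY : Y ∈ h) : N * Y - Y * N ∈ h := by
  have key : ∀ s : ℂ, (1 + s • N) * Y * (1 - s • N) ∈ h := by
    intro s
    have h1 : (1 + s • N) * (1 - s • N) = 1 := by
      rw [Matrix.add_mul, Matrix.mul_sub, Matrix.mul_sub, Matrix.one_mul, Matrix.one_mul,
        Matrix.mul_one, Matrix.smul_mul, Matrix.mul_smul, hN, smul_zero, smul_zero, sub_zero,
        sub_add_cancel]
    have h2 : (1 - s • N) * (1 + s • N) = 1 := by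
      rw [Matrix.sub_mul, Matrix.mul_add, Matrix.mul_add, Matrix.one_mul, Matrix.one_mul,
        Matrix.mul_one, Matrix.smul_mul, Matrix.mul_smul, hN, smul_zero, smul_zero, add_zero,
        add_sub_cancel_right]
    exact hA ⟨1 + s • N, 1 - s • N, h1, h2⟩ (uni_det N ht hd s) Y hY
  have h1 := h.sub_mem (key 1) (key (-1))
  have h2 := h.smul_mem (1 / 2) h1
  have h3 : (1 / 2 : ℂ) • ((1 + (1 : ℂ) • N) * Y * (1 - (1 : ℂ) • N) -
      (1 + (-1 : ℂ) • N) * Y * (1 - (-1 : ℂ) • N)) = N * Y - Y * N := by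
    have h4 : (1 + (1 : ℂ) • N) * Y * (1 - (1 : ℂ) • N) -
      (1 + (-1 : ℂ) • N) * Y * (1 - (-1 : ℂ) • N) = (2 : ℂ) • (N * Y - Y * N) := by
      rw [one_smul, neg_smul, one_smul, two_smul]
      noncomm_ring
    rw [h4, smul_smul]
    norm_num
  rwa [h3] at h2

theorem ss (h : Submodule ℂ (Matrix (Fin 2) (Fin 2) ℂ)) (hl : h ≤ lie (SL : Set (GL (Fin 2) ℂ)))
    (hA : Pool.Agent.Lib.MPf11a48.CG.Adst SL h) (hc : ∀ X ∈ h, ∀ Y ∈ h, X * Y = Y * X) :
    h = ⊥ := by
  rw [Submodule.eq_bot_iff]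
  intro X hX
  by_contra hX0
  have hE : ∀ Y ∈ h, mE ℂ * Y - Y * mE ℂ ∈ h := fun Y hY =>
    br_step h hA _ trace_mE (by simp [mE, Matrix.det_fin_two])
      (ext2 (by simp [mE, mul2]) (by simp [mE, mul2]) (by simp [mE, mul2]) (by simp [mE, mul2])) hY
  have hF : ∀ Y ∈ h, mF ℂ * Y - Y * mF ℂ ∈ h := fun Y hY =>
    br_step h hA _ trace_mF (by simp [mF, Matrix.det_fin_two])
      (ext2 (by simp [mF, mul2]) (by simp [mF, mul2]) (by simp [mF, mul2]) (by simp [mF, mul2])) hY
  have hH : ∀ Y ∈ h, mH ℂ * Y - Y * mH ℂ ∈ h := by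
    intro Y hY
    have h1 := h.sub_mem (hE _ (hF _ hY)) (hF _ (hE _ hY))
    have h2 : mE ℂ * (mF ℂ * Y - Y * mF ℂ) - (mF ℂ * Y - Y * mF ℂ) * mE ℂ -
        (mF ℂ * (mE ℂ * Y - Y * mE ℂ) - (mE ℂ * Y - Y * mE ℂ) * mF ℂ) =
        mH ℂ * Y - Y * mH ℂ := by
      rw [← bracket_EF]
      noncomm_ring
    rwa [h2] at h1
  have hbr : ∀ A B : Matrix (Fin 2) (Fin 2) ℂ, A.trace = 0 → B ∈ h → A * B - B * A ∈ h := by
    intro A B hA0 hB
    have h1 := h.add_mem (h.add_mem (h.smul_mem (A 0 0) (hH B hB)) (h.smul_mem (A 0 1) (hE B hB)))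
      (h.smul_mem (A 1 0) (hF B hB))
    have h2 : A 0 0 • (mH ℂ * B - B * mH ℂ) + A 0 1 • (mE ℂ * B - B * mE ℂ) +
        A 1 0 • (mF ℂ * B - B * mF ℂ) = A * B - B * A := by
      conv_rhs => rw [eq_comb hA0]
      rw [Matrix.add_mul, Matrix.add_mul, Matrix.mul_add, Matrix.mul_add]
      simp only [Matrix.smul_mul, Matrix.mul_smul, smul_sub]
      abel
    rwa [h2] at h1
  have hall : ∀ A : Matrix (Fin 2) (Fin 2) ℂ, A.trace = 0 → A ∈ h := fun A hA0 =>
    sl2_simple hbr hX hX0 (trace_lie (hl hX)) hA0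
  have h1 := hc _ (hall _ trace_mE) _ (hall _ trace_mF)
  have h2 := congrFun (congrFun h1 0) 0
  rw [mul2, mul2] at h2
  simp [mE, mF] at h2

/-- the polynomial `s ↦ p (f + s z)` -/
noncomputable def lin (f z : Matrix (Fin 2) (Fin 2) ℂ) :
    MvPolynomial (Fin 2 × Fin 2) ℂ →ₐ[ℂ] Polynomial ℂ :=
  aeval fun v => Polynomial.C (f v.1 v.2) + Polynomial.C (z v.1 v.2) * Polynomial.X

theorem eval_lin (f z : Matrix (Fin 2) (Fin 2) ℂ) (s : ℂ) (p : MvPolynomial (Fin 2 × Fin 2) ℂ) :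
    (lin f z p).eval s = eval (en (f + s • z)) p := by
  induction p using MvPolynomial.induction_on with
  | C a => rw [lin, algHom_C, ← Polynomial.C_eq_algebraMap, Polynomial.eval_C, eval_C]
  | add p q hp hq => rw [map_add, Polynomial.eval_add, map_add, hp, hq]
  | mul_X p v hp =>
    rw [map_mul, Polynomial.eval_mul, map_mul, hp, lin, aeval_X, eval_X]
    congr 1
    simp only [Polynomial.eval_add, Polynomial.eval_mul, Polynomial.eval_C, Polynomial.eval_X, en,
      Matrix.add_apply, Matrix.smul_apply, smul_eq_mul]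
    ring

theorem deriv_lin (f z : Matrix (Fin 2) (Fin 2) ℂ) (p : MvPolynomial (Fin 2 × Fin 2) ℂ) :
    (Polynomial.derivative (lin f z p)).eval 0 = tang p f z := by
  induction p using MvPolynomial.induction_on with
  | C a =>
    rw [lin, algHom_C, ← Polynomial.C_eq_algebraMap, Polynomial.derivative_C,
      Polynomial.eval_zero, tang_C]
  | add p q hp hq => rw [map_add, Polynomial.derivative_add, Polynomial.eval_add, hp, hq, tang_add]
  | mul_X p v hp =>
    have h0 : (lin f z p).eval 0 = eval (en f) p := by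
      rw [eval_lin, zero_smul, add_zero]
    rw [map_mul, Polynomial.derivative_mul, Polynomial.eval_add, Polynomial.eval_mul,
      Polynomial.eval_mul, hp, h0, tang_mul, tang_X, lin, aeval_X]
    simp only [Polynomial.derivative_add, Polynomial.derivative_C, Polynomial.derivative_mul,
      Polynomial.derivative_X, Polynomial.eval_add, Polynomial.eval_mul, Polynomial.eval_C,
      Polynomial.eval_X, eval_X, en]
    simp

theorem lie_mem : cx Ns ∈ lie (SL : Set (GL (Fin 2) ℂ)) := by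
  intro f hf p hp
  have hf1 : f.1.det = 1 := hf
  have ht : (cx Ns).trace = 0 := by simp [cx, Ns, Matrix.trace_fin_two]
  have hd : (cx Ns).det = 0 := by simp [cx, Ns, Matrix.det_fin_two]
  have h0 : lin f.1 (cx Ns * f.1) p = 0 := by
    refine Polynomial.funext fun s => ?_
    rw [eval_lin, Polynomial.eval_zero]
    have h1 : f.1 + s • (cx Ns * f.1) = (1 + s • cx Ns) * f.1 := by
      rw [Matrix.add_mul, Matrix.one_mul, Matrix.smul_mul]
    have h2 : ((1 + s • cx Ns) * f.1).det = 1 := by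
      rw [Matrix.det_mul, uni_det _ ht hd, hf1, one_mul]
    rw [h1]
    exact hp (Matrix.GeneralLinearGroup.mkOfDetNeZero ((1 + s • cx Ns) * f.1)
      (by rw [h2]; exact one_ne_zero)) h2
  rw [← deriv_lin, h0, Polynomial.derivative_zero, Polynomial.eval_zero]

theorem iso_eq (g : Matrix (Fin 2) (Fin 2) ℂ) : gᵀ * cx ps * g = g.det • cx ps := by
  have h00 : cx ps 0 0 = 0 := by simp [cx, ps]
  have h01 : cx ps 0 1 = 1 := by simp [cx, ps]
  have h10 : cx ps 1 0 = -1 := by simp [cx, ps]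
  have h11 : cx ps 1 1 = 0 := by simp [cx, ps]
  refine ext2 ?_ ?_ ?_ ?_ <;>
    simp only [mul2, Matrix.transpose_apply, Matrix.smul_apply, smul_eq_mul, Matrix.det_fin_two,
      h00, h01, h10, h11] <;> ring

end SLMM

open SLMM Matrix in
theorem specSLM : SpecSl where
  ss := ⟨closed, irred, ss⟩
  iso := by
    intro g hg
    rw [iso_eq, mem_SL.1 hg, one_smul]
  conj := by
    intro g
    have h : C0s.1.det * C0s⁻¹.1.det = 1 := by
      rw [← Matrix.det_mul, C0s.mul_inv, Matrix.det_one]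
    rw [mem_SL, mem_SL]
    have h1 : (C0s * g * C0s⁻¹).1.det = g.1.det := by
      rw [Units.val_mul, Units.val_mul, Matrix.det_mul, Matrix.det_mul]
      linear_combination g.1.det * h
    rw [h1]
  lie := lie_mem
  per := by
    rw [iso_eq, zpow_one]
    congr 1
    change (!![2 * (Real.pi : ℂ) * Complex.I, 0; 0, 1] : Matrix (Fin 2) (Fin 2) ℂ).det = _
    rw [Matrix.det_fin_two_of, mul_one, mul_zero, sub_zero]
  trS := by
    refine ⟨1, fun _ => 2 * Real.pi * Complex.I, ?_, ?_⟩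
    · intro i j
      change IsAlgebraic _ ((!![2 * (Real.pi : ℂ) * Complex.I, 0; 0, 1] :
        Matrix (Fin 2) (Fin 2) ℂ) i j)
      have h : IsAlgebraic (IntermediateField.adjoin ℚ
          (Set.range fun _ : Fin 1 => 2 * (Real.pi : ℂ) * Complex.I))
          (2 * (Real.pi : ℂ) * Complex.I) := by
        have h1 : 2 * (Real.pi : ℂ) * Complex.I ∈ IntermediateField.adjoin ℚ
            (Set.range fun _ : Fin 1 => 2 * (Real.pi : ℂ) * Complex.I) :=
          IntermediateField.subset_adjoin ℚ _ ⟨0, rfl⟩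
        exact isAlgebraic_algebraMap (⟨_, h1⟩ : IntermediateField.adjoin ℚ
          (Set.range fun _ : Fin 1 => 2 * (Real.pi : ℂ) * Complex.I))
      fin_cases i <;> fin_cases j
      · exact h
      · exact isAlgebraic_zero
      · exact isAlgebraic_zero
      · exact isAlgebraic_one
    · split_ifs <;> norm_num
  tor := by
    intro z z'
    have h : z.1.det * z⁻¹.1.det = 1 := by
      rw [← Matrix.det_mul, z.mul_inv, Matrix.det_one]
    rw [mem_SL, Units.val_mul, Matrix.det_mul]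
    constructor
    · intro h1
      linear_combination z.1.det * h1 - z'.1.det * h
    · intro h1
      rw [h1, h]

end Pool.Agent.Lib.MP_47914d_nt.BD
end

section
/-!
# The modular Schanuel conjecture with derivatives in bounded degree: assembly
-/
set_option autoImplicit false

namespace Pool.Agent.Lib.MP_47914d_nt.BD

theorem int_all : SpecInt := specInt specFac specLcm

theorem sys_all : SpecSys := specSys specHyp int_all

theorem num_all : SpecNum := specNUM specHyp int_all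

theorem lna_all : SpecLna := specLNA specRam specJ specLim num_all

theorem lnk_all : SpecLnk := specLNK specJ num_all lna_all

theorem lnx_all : SpecLnx := specLNX num_all lnk_all

theorem ind_all : SpecInd :=
  specIND specRam specMahler_all specField specExt specDer0 specStepC_all specRicc
    specNoRicc_all specGauge specTwist specAut num_all lnk_all specDic specAIN lnx_all

theorem frm_all : SpecFrm := specFrm int_all ind_all

theorem mon_all : SpecMon := specMon sys_all frm_all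

theorem dj_all : SpecDj := specDJ specJ num_all lnk_all

/-- The modular Schanuel conjecture with derivatives in bounded degree. -/
theorem statement2 : Statement2 :=
  specFIN2 Pool.Agent.Lib.MPf11a48.CG.statementJ (specInjFull specJ) sys_all specSLM num_all
    lnk_all mon_all dj_all (specTRJ specJ) specHOM2

end Pool.Agent.Lib.MP_47914d_nt.BD
end
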