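import Pool.Agent.Lib.MP_f11a48_ag.CG.StmtJ
import Pool.Agent.Lib.MP_f11a48_ag.GF.Est
import Pool.Agent.Lib.MP_47914d_nt.Defs4

/-!
# The modular Schanuel conjecture in bounded degree: definitions

The family of elliptic curves with `j`-invariant `t = 1 / x`, near `x = 0`. With
`F = ₂F₁(1/12, 5/12; 1; 1728 x) = E₄ ^ (1/4)` and `u = (1 - 1728 x) ^ (1 / 4)` the functions
`u F` and `u (F log x + G)` are the periods of the family
`y ^ 2 = 4 X ^ 3 - g X - g`, `g = 27 / (1 - 1728 x)`, up to a constant factor.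
-/

set_option autoImplicit false

namespace Pool.Agent.Lib.MP_47914d_nt.BD

open Polynomial Matrix
open scoped PowerSeries
open Pool.Agent.Lib.MPf11a48.GF (zq IsG pval peval)
open Pool.Agent.Lib.MPf11a48.GF.EstM (Sm)
open Pool.Agent.Lib.MPf11a48.CF (vm)
open Pool.Agent.Lib.MPf11a48.CG (trf pm trm FamT IsSS pevalC gY GoodP bd StatementJ TrS)
open Pool.Agent.Lib.MPf11a48.GL2 (lie)
open Pool.Agent.Lib.MPf11a48.K3 (cx)

/-! ### Power series -/

/-- The coefficients of `F = ₂F₁(1/12, 5/12; 1; 1728 x)`. -/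
noncomputable def aq (n : ℕ) : ℚ :=
  ∏ k ∈ Finset.range n, 12 * (12 * (k : ℚ) + 1) * (12 * k + 5) / (k + 1) ^ 2

/-- `h n = ∑_{k < n} (12 / (12 k + 1) + 12 / (12 k + 5) - 2 / (k + 1))` -/
noncomputable def hq (n : ℕ) : ℚ :=
  ∑ k ∈ Finset.range n, (12 / (12 * (k : ℚ) + 1) + 12 / (12 * k + 5) - 2 / (k + 1))

/-- The coefficients of `u = (1 - 1728 x) ^ (1 / 4)`. -/
noncomputable def uq (n : ℕ) : ℚ := ∏ k ∈ Finset.range n, 432 * (4 * (k : ℚ) - 1) / (k + 1)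

/-- `F` -/
noncomputable def Fs : ℚ⟦X⟧ := PowerSeries.mk aq

/-- `G`: the second solution is `F log x + G` -/
noncomputable def Gs : ℚ⟦X⟧ := PowerSeries.mk fun n => aq n * hq n

/-- `u = (1 - 1728 x) ^ (1 / 4)` -/
noncomputable def us : ℚ⟦X⟧ := PowerSeries.mk uq

/-- `x d/dx` -/
noncomputable def th (f : ℚ⟦X⟧) : ℚ⟦X⟧ := PowerSeries.X * PowerSeries.derivative ℚ f

/-- The matrix `Y`: the rows of `x ^ N Y(x)` are `u (F, x F')` and `u (f, x f')`,
`f = F log x + G`. -/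
noncomputable def Ys : Matrix (Fin 2) (Fin 2) ℚ⟦X⟧ :=
  !![us * Fs, us * th Fs; us * Gs, us * (th Gs + Fs)]

/-- `T` and `B`: the system `T y' = B y`. -/
noncomputable def Ts : ℤ[X] := X * (1 - 1728 * X)

noncomputable def Bs : Matrix (Fin 2) (Fin 2) ℤ[X] :=
  !![-(432 * X), 1 - 1728 * X; 60 * X, 432 * X]

/-- the monodromy logarithm -/
def Ns : Matrix (Fin 2) (Fin 2) ℚ := !![0, 0; 1, 0]

/-- the symplectic form -/
def ps : Matrix (Fin 2) (Fin 2) ℚ := !![0, 1; -1, 0]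

/-- the period matrix of the limit of the family -/
noncomputable def C0s : GL (Fin 2) ℂ :=
  Matrix.GeneralLinearGroup.mkOfDetNeZero !![2 * Real.pi * Complex.I, 0; 0, 1] (by
    rw [Matrix.det_fin_two_of, mul_one, mul_zero, sub_zero]
    exact Complex.two_pi_I_ne_zero)

/-- `SL₂(ℂ)` -/
def SL : Subgroup (GL (Fin 2) ℂ) where
  carrier := {g | g.1.det = 1}
  mul_mem' := by
    intro a b ha hb
    rw [Set.mem_ofPred_eq] at ha hb ⊢
    rw [Units.val_mul, Matrix.det_mul, ha, hb, mul_one]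
  one_mem' := by
    rw [Set.mem_ofPred_eq, Units.val_one, Matrix.det_one]
  inv_mem' := by
    intro a ha
    rw [Set.mem_ofPred_eq] at ha ⊢
    have h : (a.1 * a⁻¹.1).det = 1 := by
      rw [a.mul_inv, Matrix.det_one]
    rw [Matrix.det_mul, ha, one_mul] at h
    exact h

/-! ### Functions -/

/-- The values near `x = 0` of the power series `F`, `x F'`, `G`, `x G'`, `u`. -/
structure Num (ρ : ℝ) : Prop where
  pos : 0 < ρ
  le : 1728 * ρ ≤ 1 / 2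
  sm : ∀ x : ℂ, ‖x‖ < ρ → Sm Fs x ∧ Sm (th Fs) x ∧ Sm Gs x ∧ Sm (th Gs) x ∧ Sm us x
  F0 : ∀ x : ℂ, ‖x‖ < ρ → ∃ f' : ℂ, HasDerivAt (pval Fs) f' x ∧ x * f' = pval (th Fs) x
  F1 : ∀ x : ℂ, ‖x‖ < ρ → ∃ f' : ℂ, HasDerivAt (pval (th Fs)) f' x ∧
    (1 - 1728 * x) * (x * f') = 864 * x * pval (th Fs) x + 60 * x * pval Fs x
  G0 : ∀ x : ℂ, ‖x‖ < ρ → ∃ f' : ℂ, HasDerivAt (pval Gs) f' x ∧ x * f' = pval (th Gs) x
  G1 : ∀ x : ℂ, ‖x‖ < ρ → ∃ f' : ℂ, HasDerivAt (pval (th Gs)) f' x ∧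
    (1 - 1728 * x) * (x * f' + 2 * pval (th Fs) x) =
      864 * x * (pval (th Gs) x + pval Fs x) + 60 * x * pval Gs x
  U0 : ∀ x : ℂ, ‖x‖ < ρ → ∃ f' : ℂ, HasDerivAt (pval us) f' x ∧
    (1 - 1728 * x) * (x * f') = -(432 * x * pval us x)
  u4 : ∀ x : ℂ, ‖x‖ < ρ → pval us x ^ 4 = 1 - 1728 * x
  wr : ∀ x : ℂ, ‖x‖ < ρ → pval us x ^ 2 *
    (pval Fs x * (pval (th Gs) x + pval Fs x) - pval Gs x * pval (th Fs) x) = 1
  nz : ∀ x : ℂ, ‖x‖ < ρ → pval Fs x ≠ 0 ∧ pval us x ≠ 0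
  zero : pval Fs 0 = 1 ∧ pval (th Fs) 0 = 0 ∧ pval Gs 0 = 0 ∧ pval (th Gs) 0 = 0 ∧ pval us 0 = 1

/-- The point `z` of the upper half plane with `j(z) = 1 / x`:
`2 π i z = (F log x + G) / F`. -/
noncomputable def zx (x : ℂ) : ℂ :=
  (Complex.log x + pval Gs x / pval Fs x) / (2 * Real.pi * Complex.I)

/-- `x / (1 + m x)`: with `x = 1 / t` this is `1 / (t + m)` -/
noncomputable def xm (m : ℕ) (x : ℂ) : ℂ := x / (1 + m * x)

/-- The entries `(0, 0)`, `(0, 1)`, `(1, 0)` of a matrix. -/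
def e3 {R : Type} (M : Matrix (Fin 2) (Fin 2) R) : Fin 3 → R := ![M 0 0, M 0 1, M 1 0]

/-- The entries of the translate of `Y` under `t ↦ t + m`. -/
noncomputable def ent (m : ℕ) (x : ℂ) : Fin 3 → ℂ :=
  ![pval us (xm m x) * pval Fs (xm m x), pval us (xm m x) * pval (th Fs) (xm m x),
    pval us (xm m x) * pval Gs (xm m x) -
      Complex.log (1 + m * x) * (pval us (xm m x) * pval Fs (xm m x))]

/-! ### Algebra -/

/-- The situation in the germ field at a small real `x₀ > 0`: `D = d/dx`, `l = log x`,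
`z = z_x ∘ xm`, `p, q, r` the values of the (scaled) Eisenstein series at `z`, `A, A₁, C` the
entries of the translate of `Y`, divided by `u`. -/
structure Dat {F : Type} [Field F] [Algebra ℂ F] (D : Derivation ℂ F F) (x l z p q r A A₁ C u : F)
    (m : ℕ) : Prop where
  w : IsW D z p q r 0
  ai : AlgebraicIndependent ℂ ![z, p, q, r]
  y : (1 + m * x) * (q ^ 3 - r ^ 2) = 1728 * q ^ 3 * x
  A4 : algebraMap ℂ F ((Real.pi * Complex.I / 6) ^ 2) * A ^ 4 = q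
  A1 : A₁ = x * (1 + m * x) * D A
  C1 : C = A * (algebraMap ℂ F (2 * Real.pi * Complex.I) * z - l)
  u4 : u ^ 4 * (1 + m * x) = 1 + m * x - 1728 * x

end Pool.Agent.Lib.MP_47914d_nt.BD
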