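import Pool.Agent.Lib.MP_47914d_nt.BD.Defs
import Pool.Agent.Lib.MP_47914d_nt.Ricc

/-!
# The modular Schanuel conjecture in bounded degree: specifications

Everything is in namespace `Pool.Agent.Lib.MP_47914d_nt.BD`; module NAME is the file `BD/NAME.lean` with the
theorem `specNAME (hypotheses : other Specs) : SpecNAME`, own lemmas in namespace
`Pool.Agent.Lib.MP_47914d_nt.BD.NAMEM`. Available without hypotheses (namespace
`Pool.Agent.Lib.MP_47914d_nt`): `specJ` (Core/JBasic), `specRam` (Ram), `specExt`, `specDer0`, `specDerAI`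
(Ext), `specStab`, `specGour` (Lie), `stab2` (Alg2), `specField` (Germ), `specMahler_all` (All2),
`specAut`, `specStepC_all`, `specRicc`, `specNoRicc_all`, `specGauge`, `specTwist` (All4), `link_alg`
(LinkAlg), `specInjFull specJ` (InjFull); in `Pool.Agent.Lib.MPf11a48`: `GF.specEval` (GF/Eval),
`CG.specTrf` (CG/Trf), `CG.specPnm` (CG/Pnm).

Notation in the proofs: `κ = π i / 6`; `P, Q, R` are `Pc, Qc, Rc` (`Q = κ² E₄`, `R = κ³ E₆`);
`κ = lim P`, `κ² = lim Q`, `κ³ = lim R` for `Im z → ∞`.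
-/

set_option autoImplicit false

namespace Pool.Agent.Lib.MP_47914d_nt.BD

open Polynomial Matrix Filter Topology
open scoped PowerSeries
open Pool.Agent.Lib.MPf11a48.GF (zq IsG pval peval)
open Pool.Agent.Lib.MPf11a48.GF.EstM (Sm)
open Pool.Agent.Lib.MPf11a48.CF (vm)
open Pool.Agent.Lib.MPf11a48.CG (trf pm trm FamT IsSS pevalC gY GoodP bd StatementJ TrS)
open Pool.Agent.Lib.MPf11a48.GL2 (lie)
open Pool.Agent.Lib.MPf11a48.K3 (cx)

/-- The theorem: the modular Schanuel conjecture in bounded degree for points `z 1, ..., z n` with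
large rational `j`-invariants of the form `j (z i) = b / a + m i`: they satisfy no nonzero polynomial
equation of degree `≤ D` over a number field of degree `≤ δ`. -/
def Statement : Prop :=
  ∀ D δ k : ℕ, ∃ C : ℕ, ∀ a b : ℤ, a ≠ 0 → (C : ℤ) * |a| ^ C ≤ b →
    ∃ E : Finset ℕ, E.card ≤ 2 ∧ ∀ (n : ℕ) (m : Fin n → ℕ) (z : Fin n → ℂ),
      Function.Injective m → (∀ i, m i < k ∧ m i ∉ E) →
      (∀ i, 0 < (z i).im ∧ Jc (z i) = (b : ℂ) / a + m i) →
      ∀ K : IntermediateField ℚ ℂ, FiniteDimensional ℚ K → Module.finrank ℚ K ≤ δ →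
        ∀ P : MvPolynomial (Fin n) K, P ≠ 0 → P.totalDegree ≤ D → MvPolynomial.aeval z P ≠ 0

/-! ## Part A: power series -/

/-- HYP (100 lines): the formal differential equations.
PROOF: `coeff n (th f) = n * coeff n f`. `odeF`: coefficient of `X^(n+1)`:
`(n+1)² a(n+1) - 1728 n² a(n) = 864 n a(n) + 60 a(n)`, i.e. `(n+1)² a(n+1) = 12 (12n+1) (12n+5) a(n)`.
`odeG`: with `g(n) = a(n) h(n)`: coefficient of `X^(n+1)`:
`(n+1)² g(n+1) - 12 (12n+1) (12n+5) g(n) = -2 (n+1) a(n+1) + (3456 n + 864) a(n)`; use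
`h(n+1) = h(n) + 12/(12n+1) + 12/(12n+5) - 2/(n+1)` and `144 ((12n+1) + (12n+5)) = 3456 n + 864`.
`odeU`: `(n+1) u(n+1) = 432 (4n-1) u(n)`.
`u4`: `v = us^4` and `v = 1 - 1728 X` satisfy `(1 - 1728 X) th v = -1728 X v` and have constant
coefficient `1`; such a `v` is unique (coefficients: `(n+1) v(n+1) = 1728 (n-1) v(n)`).
`wr`: let `W` be the left side. By `odeF`, `odeG`:
`(1 - 1728 X) th (Fs (th Gs + Fs) - Gs th Fs) = 864 X (Fs (th Gs + Fs) - Gs th Fs)`, and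
`(1 - 1728 X) th (us²) = -864 X us²`, hence `(1 - 1728 X) th W = 0`, `th W = 0`, `W` is its constant
coefficient `1`. (`th` is a derivation.) -/
structure SpecHyp : Prop where
  odeF : (1 - 1728 * PowerSeries.X) * th (th Fs) =
    864 * PowerSeries.X * th Fs + 60 * PowerSeries.X * Fs
  odeG : (1 - 1728 * PowerSeries.X) * (th (th Gs) + 2 * th Fs) =
    864 * PowerSeries.X * (th Gs + Fs) + 60 * PowerSeries.X * Gs
  odeU : (1 - 1728 * PowerSeries.X) * th us = -(432 * PowerSeries.X * us)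
  u4 : us ^ 4 = 1 - 1728 * PowerSeries.X
  wr : us ^ 2 * (Fs * (th Gs + Fs) - Gs * th Fs) = 1

/-- FAC (60 lines): `n! ∣ 12^n ∏_{k<n} (12 k + a)`.
PROOF: write `n! = s Q` with `Q` prime to `6` and `s = 2^i 3^j`, `i, j ≤ n` (Legendre:
`v_p(n!) ≤ n`; or `Nat.factorization_factorial_...`/`sub_one_mul_padicValNat_factorial`), so
`s ∣ 12^n`. There is an integer `M` with `12 M ≡ a (mod Q)`, hence
`∏ (12 k + a) ≡ 12^n ∏ (k + M) (mod Q)`, and `n! ∣ ∏_{k<n} (k + M)`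
(`Int`: `Nat.factorial_coe_dvd_prod` or `ascPochhammer`; take `M ≥ 1` natural:
`Nat.factorial_dvd_ascFactorial`). So `Q ∣ ∏ (12 k + a)`, and `s Q ∣ 12^n ∏ (12 k + a)`. -/
def SpecFac : Prop :=
  ∀ (a : ℤ) (n : ℕ), (n.factorial : ℤ) ∣ 12 ^ n * ∏ k ∈ Finset.range n, (12 * (k : ℤ) + a)

/-- LCM (30 lines): Chebyshev's bound for the least common multiple.
PROOF: Mathlib: `Chebyshev.lcmUpto`, `Chebyshev.psi_eq_log_lcmUpto`,
`Chebyshev.psi_le_const_mul_self`. -/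
def SpecLcm : Prop :=
  ∃ C : ℕ, ∀ n : ℕ, ∃ q : ℕ, 0 < q ∧ q ≤ C ^ (n + 1) ∧ ∀ k, 1 ≤ k → k ≤ 12 * n → k ∣ q

/-- INT (120 lines, from FAC, LCM): the entries of `Y` are G-functions.
PROOF: `12^n a(n) = (12^n ∏ (12k+1) / n!) (12^n ∏ (12k+5) / n!)` is an integer,
`u(n) = 144^n ∏ (12k-3) / n!` is an integer, `q h(n)` is an integer with `q` from LCM (all
denominators are `≤ 12 n`). Bounds: `|a(n)| ≤ 1728^n`, `|u(n)| ≤ 1728^n`, `|h(n)| ≤ 17 n ≤ 17 * 2^n`;
`th` multiplies the coefficients by `n ≤ 2^n`. The family of five series is G (common denominator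
`12^n q`). Products and sums: `isG_mul`, `isG_words` (GF/Sym.lean), `isG_sum` (CG/Trq.lean), `isG_fin`
(CF/Mono.lean), or directly. -/
structure SpecInt : Prop where
  five : IsG (![Fs, th Fs, Gs, th Gs, us] : Fin 5 → ℚ⟦X⟧)
  Y : IsG fun v : Fin 2 × Fin 2 => Ys v.1 v.2

/-- SYS (60 lines, from HYP, INT): everything in `FamT` for `Y` except `mon`, `tor`; the determinant.
PROOF: `sol` is `T th (Y i j) = X ∑ B j k Y i k - T (N Y) i j`: for `i = 0`:
`X (1 - 1728 X) th (us Fs) = X (-432 X us Fs + (1 - 1728 X) us th Fs)` by `odeU`;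
`X (1 - 1728 X) th (us th Fs) = X (60 X us Fs + 432 X us th Fs)` by `odeU`, `odeF`; for `i = 1` the same
with `odeG`, and the terms `- T us Fs`, `- T us th Fs` of `- T (N Y)`. `pol`: `Yᵀ ψ Y = det Y ψ`, `D = 1`,
`det Y = 1` by `wr`. -/
structure SpecSys : Prop where
  ne : Ts ≠ 0
  sol : ∀ i j, ((X * zq Ts : ℚ[X]) : ℚ⟦X⟧) * PowerSeries.derivative ℚ (Ys i j) =
    ∑ k, ((X * zq (Bs j k) : ℚ[X]) : ℚ⟦X⟧) * Ys i k -
      ((zq Ts : ℚ[X]) : ℚ⟦X⟧) * (Ns.map (PowerSeries.C : ℚ →+* ℚ⟦X⟧) * Ys) i j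
  g : IsG fun v : Fin 2 × Fin 2 => Ys v.1 v.2
  pol : ∃ D : ℚ[X], D ≠ 0 ∧ ∀ i j, ∃ q : ℚ[X],
    (D : ℚ⟦X⟧) * (Ysᵀ * ps.map (PowerSeries.C : ℚ →+* ℚ⟦X⟧) * Ys) i j = (q : ℚ⟦X⟧)
  det : Ys.det = 1

/-! ## Part B: the group -/

/-- SLM (200 lines): `SL₂` satisfies the hypotheses of Theorem J.
PROOF: `ss.closed`: `det - 1` (as a polynomial over `⊥`). `ss.irred`: the map
`φ(a,b,c,d) = U(a) L(b) U(c) L(d)` (`U`, `L` upper, lower unipotent) is surjective onto `SL₂(ℂ)`: if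
`γ ≠ 0` then `[α β; γ δ] = U((α-1)/γ) L(γ) U((δ-1)/γ)`, if `γ = 0` apply this to `g L(-1)`. So `p ∈ van SL`
iff `φ^* p = 0` in `MvPolynomial (Fin 4) ℂ` (`MvPolynomial.funext`), a domain. `ss.ss`: the elements
of `lie SL` have trace `0` (tangent at `1` of `det - 1`). If `h` is `Ad`-stable then
`U(1) X U(-1) - U(-1) X U(1) = 2 [E, X] ∈ h`, same for `F`, so `h` is stable under `[H, .]`,
`H = [E, F]`; if `X ∈ h`, `X ≠ 0` then `h` contains all traceless matrices (`sl2_simple`,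
helper92/Sl2.lean), which do not commute. `iso`: `gᵀ ψ g = det g ψ`. `conj`: `det`. `lie`: for
`p ∈ van SL`, `f ∈ SL`: `s ↦ p((1 + s N) f)` is `0` since `1 + s N ∈ SL`; take the derivative at
`s = 0` (`tang`). `per`: `C₀ᵀ ψ C₀ = det C₀ ψ = 2 π i ψ`. `trS`: `r = 1`, `θ = 2 π i`. `tor`: `r = 1`, `p = det`. -/
structure SpecSl : Prop where
  ss : IsSS SL
  iso : ∀ g ∈ SL, g.1ᵀ * cx ps * g.1 = cx ps
  conj : ∀ g : GL (Fin 2) ℂ, g ∈ SL ↔ C0s * g * C0s⁻¹ ∈ SL
  lie : cx Ns ∈ lie (SL : Set (GL (Fin 2) ℂ))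
  per : C0s.1ᵀ * cx ps * C0s.1 = (2 * Real.pi * Complex.I) ^ (1 : ℤ) • cx ps
  trS : TrS C0s.1 Ns 2
  tor : ∀ z z' : GL (Fin 2) ℂ, z' * z⁻¹ ∈ SL ↔ z'.1.det = z.1.det

/-! ## Part C: functions -/

/-- NUM (150 lines, from HYP, INT): the values of the power series.
PROOF: for `f` with `|coeff n f| ≤ C^(n+1)` and `2 C ‖x‖ < 1` the series converge absolutely
(`specEval`, GF/Eval.lean: sums, products, polynomials), `pval f` is differentiable with derivative
`pval f'` (e.g. `FormalMultilinearSeries` / `hasDerivAt_tsum_of_isPreconnected` /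
`HasFPowerSeriesOnBall`), and `x * pval f' x = pval (th f) x`. The rest is evaluation of HYP at `x`.
`nz`: `pval us x ≠ 0` by `u4`, `pval Fs x → 1` for `x → 0` (continuity). -/
def SpecNum : Prop := ∃ ρ : ℝ, Num ρ

/-- LIM (100 lines): limits at `i ∞`.
PROOF: Mathlib: `E₄`, `E₆` tend to the constant coefficient `1` of the `q`-expansion
(`ModularFormClass.qExpansion`, `JInt.lean` has the expansions with `E4z`, `E6z`). For `P`: the
`q`-expansion of `E2` in Mathlib, or: `P = (Q'/4 + R)/Q` and `Q'(z) → 0` by Cauchy's estimate on the disc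
of radius `1` for `Q - κ²`. `J`: from `SpecJ.growth`. -/
structure SpecLim : Prop where
  P : Tendsto Pc (comap Complex.im atTop) (𝓝 (Real.pi * Complex.I / 6))
  Q : Tendsto Qc (comap Complex.im atTop) (𝓝 ((Real.pi * Complex.I / 6) ^ 2))
  R : Tendsto Rc (comap Complex.im atTop) (𝓝 ((Real.pi * Complex.I / 6) ^ 3))
  U : Tendsto (fun z => Jc z * Complex.exp (2 * Real.pi * Complex.I * z))
    (comap Complex.im atTop) (𝓝 1)
  x : Tendsto (fun z => (Jc z)⁻¹) (comap Complex.im atTop) (𝓝 0)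

/-- LNA (200 lines, from RAM, LIM, NUM): the period functions in terms of `z`.
PROOF: let `Im z > Y`, `Y` large, `x = 1/J(z)`, `U = J e^(2πiz)` near `1`, `Q, R ≠ 0`, `‖x‖ < ρ`.
(1) `J' = -12 (R/Q) J` (differentiate `jinv`), so `x' = 12 (R/Q) x`; also
`1 - 1728 x = R²/Q³`. For `f` with `x f'(x) = g(x)`: `d/dz f(x) = 12 (R/Q) g(x)`.
(2) `f₀ = pval Fs x`, `g₀ = pval (th Fs) x`, `h₀ = 12 (R/Q) g₀ - (P - R/Q) f₀ = f₀' - (P - R/Q) f₀`.
By `F1`: `g₀' = 12 (R/Q) (864 x g₀ + 60 x f₀)/(1 - 1728 x) = ((Q³-R²)/(QR)) (6 g₀ + (5/12) f₀)`, and with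
Ramanujan's equations `h₀' = (P - R/Q) h₀`. As `Q'/Q = 4 (P - R/Q)`, `(h₀⁴/Q)' = 0`: on vertical rays
`h₀⁴/Q` is constant, its limit at `i ∞` is `0` (`g₀ → 0`, `f₀ → 1`, `P - R/Q → κ - κ = 0`), so `h₀ = 0`:
`f₀' = (P - R/Q) f₀`. Then `(f₀⁴/Q)' = 0` and the limit is `1/κ²`: `Q = κ² f₀⁴`.
(3) Let `v = (2πiz - log U) + G(x)/F(x)`. `d/dz (2πiz - log U) = -J'/J = 12 R/Q`. So
`v' = 12 (R/Q) (1 + (θG F - G θF)/F²) = 12 (R/Q) (F (θG + F) - G θF)/F² = 12 (R/Q)/(u² F²)` (`wr`).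
`(u² F²)² = (1 - 1728 x) Q/κ² = (R/(κ Q))²`, so `u² F² = ± R/(κ Q)`; the sign is `+` near `i ∞` since
`u² F² κ Q/R → 1` and it is `± 1` (take `Y` so large that it is within distance `1` of `1`). So
`v' = 12 κ = 2 π i`; `v - 2πiz = -log U + G/F` is constant on vertical rays with limit `0`. -/
def SpecLna : Prop :=
  ∃ Y : ℝ, 1 ≤ Y ∧ ∀ z : ℂ, Y < z.im → Jc z ≠ 0 ∧
    Qc z = (Real.pi * Complex.I / 6) ^ 2 * pval Fs (Jc z)⁻¹ ^ 4 ∧
    pval Gs (Jc z)⁻¹ =
      Complex.log (Jc z * Complex.exp (2 * Real.pi * Complex.I * z)) * pval Fs (Jc z)⁻¹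

/-- LNK (100 lines, from SpecJ, LIM, NUM, LNA): the uniformisation.
PROOF: `J` is bounded on `1/2 ≤ Im z ≤ Y` (period `1`, compactness), so if `‖x‖` is small there is by
`SpecJ.surj` a `w` with `J(w) = 1/x` and `Im w > Y`. Let `U = J(w) e^(2πiw)`.
`exp(2πiw - log U) = 1/J(w) = x = exp(log x)`, so `log x = 2πiw - log U + 2πik` for an integer `k`.
Replace `w` by `w + k` (same `J`, `U`): `log x = 2πiw - log U`, and by LNA `G(x)/F(x) = log U`, so
`zx x = w`. -/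
def SpecLnk : Prop :=
  ∃ ρ : ℝ, 0 < ρ ∧ ∀ x : ℂ, x ≠ 0 → ‖x‖ < ρ → 0 < (zx x).im ∧ Jc (zx x) = 1 / x ∧
    Qc (zx x) = (Real.pi * Complex.I / 6) ^ 2 * pval Fs x ^ 4

/-! ## Part D: algebraic independence -/

/-- DIC (150 lines): the dichotomy. Compare `alg2` in Alg2.lean.
PROOF: let `U' ⊆ F^(3n+1)` be the space of all `(u, λ)` such that there is `δ` with `δ x = 0`,
`δ l = λ`, `IsW δ .. (u i)` for all `i`. It is stable under `D` (`[D, δ] x = 0`,
`[D, δ] l = D λ - δ(1/x) = D λ`, `isW_lie`), so by `stab2` (with `M = {D}`) it is the `F`-span of its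
constant vectors `H'`. As in `alg2` (`Uspace`, `Hspace`, `single_surj`, `Hspace_br`, GOUR) we have the
second alternative or `Hspace = ⊤`, `Uspace = ⊤`. In the latter case the projection of `U'` to
`F^(3n)` is everything (`adjust`), so the projection `H' → ℂ^(3n)` is onto (a linear form over `ℂ`
vanishing on the image would vanish on the `F`-span). If `(u, λ), (v, μ) ∈ H'` then
`(br u v, 0) ∈ H'` (commutator, `δ μ = 0`), and `ℂ^(3n)` is spanned by brackets (`sl₂` is perfect: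
`br e₀ e₁ = e₀`, `br e₀ e₂ = 2 e₁`, `br e₁ e₂ = e₂`). So `(u, 0) ∈ U'` for all `u`. -/
def SpecDic : Prop :=
  ∀ (F : Type) [Field F] [Algebra ℂ F] (D : Derivation ℂ F F) (x l : F) (n : ℕ)
    (z p q r : Fin n → F),
    (∀ f, D f = 0 → ∃ c : ℂ, f = algebraMap ℂ F c) → D x = 1 → x * D l = 1 →
    (∀ i, IsW D (z i) (p i) (q i) (r i) 0) →
    (∀ i, AlgebraicIndependent ℂ ![z i, p i, q i, r i]) →
    (∀ w : Fin n → Fin 3 → F, ∃ δ : Derivation ℂ F F, δ x = 0 ∧ δ l = 0 ∧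
      ∀ i, IsW δ (z i) (p i) (q i) (r i) (w i)) ∨
    ∃ i k, i ≠ k ∧ ∃ φ : (Fin 3 → ℂ) ≃ₗ[ℂ] (Fin 3 → ℂ),
      (∀ u v, φ (br u v) = br (φ u) (φ v)) ∧
      ∀ u ∈ Uspace z p q r, ∀ l, u (k, l) =
        ∑ m, algebraMap ℂ F (φ (Pi.single m 1) l) * u (i, m)

/-- AIN (150 lines): algebraic independence.
PROOF: `SpecDerAI` with `t = x`: for given values `c` we need `δ` with `δ x = 0` and the values `c` on
`u A, u A₁, u C`. Let `δ` be the derivation for `w`, with `δ x = 0`, `δ l = 0`. `y = (1 + m x)/x` is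
`1728 q³/(q³ - r²)` and `δ y = 0`, so by `delta_y` `δ z = - om0 w z`; hence `δ q = 2 (om1 w z) q`,
`δ r = 3 (om1 w z) r`, `δ p = (om1 w z) p + w 2`. `δ u = 0` (`u⁴` is a rational function of `x`),
`δ A = (om1 w z) A / 2` (from `A4`). Formula for `A₁`: applying `D` to `y`, `D y = -1/x²`,
`D y (q³ - r²) = -20736 q² r D z`, `q³ - r² = 1728 q³ x/(1 + m x)`: `D z = q/(12 r x (1 + m x))`;
`D q = 4 (p q - r) D z` and `A4` give `D A = A (p q - r) D z/q`, so `A₁ = A (p q - r)/(12 r)`. Hence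
`δ A₁ = (om1 w z) A₁/2 + A q (w 2)/(12 r)` and `δ C = (om1 w z) C/2 - 2πi A (om0 w z)`. So `w 2`,
`om1 w z`, `om0 w z` can be chosen such that these have given values, and
`w 1 = om1 w z - 2 w 2 z`, `w 0 = om0 w z - w 1 z - w 2 z²`. (`A, q, r, u, x ≠ 0`, `1 + m x ≠ 0`.) -/
def SpecAin : Prop :=
  ∀ (F : Type) [Field F] [Algebra ℂ F] (D : Derivation ℂ F F) (x l : F) (n : ℕ) (m : Fin n → ℕ)
    (z p q r A A₁ C u : Fin n → F), D x = 1 →
    (∀ i, Dat D x l (z i) (p i) (q i) (r i) (A i) (A₁ i) (C i) (u i) (m i)) →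
    (∀ w : Fin n → Fin 3 → F, ∃ δ : Derivation ℂ F F, δ x = 0 ∧ δ l = 0 ∧
      ∀ i, IsW δ (z i) (p i) (q i) (r i) (w i)) →
    AlgebraicIndependent ℂ (fun o : Option (Fin n × Fin 3) =>
      o.elim x fun v => (![u v.1 * A v.1, u v.1 * A₁ v.1, u v.1 * C v.1] : Fin 3 → F) v.2)

/-- LNX (120 lines, from NUM, LNK): no Möbius relation between two translates.
PROOF: on the disc `V = ball x₀ x₀` (convex, in `Re x > 0`) the functions `zx (xm m x)` are analytic
(`‖xm m x‖` small; `xm m x` is in the slit plane since `1/(xm m x) = 1/x + m` has positive real part)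
and `2πi zx (xm m x) = log x + h_m(x)`, `h_m(x) = -log(1 + m x) + (G/F)(xm m x)`, `h_m(x) → 0` for `x → 0`
(`log (x/(1 + m x)) = log x - log (1 + m x)` for `Re x > 0`; check that both arguments of `1/x + m` and
`1/x` are in `(-π/2, π/2)`, or prove it for real `x > 0` only, which is enough for the limit). By the
identity theorem (`AnalyticOnNhd.eqOn_of_preconnected_of_eventuallyEq`) the relation holds for all real
`x` in `(0, x₀)`. Let `L = log x → -∞`: dividing by `L²`: `γ = 0`; then `α δ = 1` and dividing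
`δ z' = α z + β` by `L`: `δ = α`; so `z' - z = β/δ`, and `z' - z = (h_(m') - h_m)/(2πi) → 0`: `β = 0`. So
`zx (xm m x) = zx (xm m' x)` near `x₀`, and `J` of both sides (`LNK`): `1/x + m = 1/x + m'`. -/
def SpecLnx : Prop :=
  ∃ ρ : ℝ, 0 < ρ ∧ ∀ (m m' : ℕ), m ≠ m' → ∀ x₀ : ℝ, 0 < x₀ → (m + m' + 2) * x₀ < ρ →
    ∀ α β γ δ : ℂ, α * δ - β * γ = 1 → ¬ ∀ᶠ x in 𝓝 (x₀ : ℂ),
      (γ * zx (xm m x) + δ) * zx (xm m' x) = α * zx (xm m x) + β

/-- IND (300 lines, from RAM, SpecJ, MAHLER, FIELD, `link_alg` and its hypotheses, NUM, LNK, DIC, AIN,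
LNX): the entries of the translates of `Y` are algebraically independent over `ℂ(x)`.
PROOF: let `x₀ > 0` be small (depending on the `m i`), `F` a germ field at `x₀` (`SpecField`),
`D = d/dx`, `z i = T (zx ∘ xm (m i))`, `p i = T (Pc ∘ ..)` etc., as in the proof of `specALW` (ALW.lean:
`hDp, hDq, hDr`, algebraic independence of `z, p, q, r` from MAHLER and `push_forward`, `zx ∘ xm` is not
constant since `J` of it is `1/x + m`), `l = T log`, `A i = T (pval Fs ∘ xm (m i))`,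
`A₁ i = T (pval (th Fs) ∘ xm (m i))`, `u i = T (pval us ∘ xm (m i))`,
`C i = T (pval Gs (xm x) - log (1 + m x) pval Fs (xm x))`. `Dat`: `y` from `jinv` and `J = 1/x + m`; `A4`
from LNK; `A1`: `d/dx F(xm x) = F'(xm x)/(1 + m x)²`, `xm F'(xm) = (th F)(xm)`; `C1`: definition of
`zx`, `log (xm m x) = log x - log (1 + m x)` near `x₀`; `u4`: `Num.u4` at `xm m x`. By DIC and AIN the
claim follows (`GermField.aeval_eq_zero_iff`) unless there is a link, and then `link_alg` (with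
`M = {D}`, `y i = (1 + m i x)/x`) gives a Möbius relation which contradicts LNX. -/
def SpecInd : Prop :=
  ∀ (n : ℕ) (m : Fin n → ℕ), Function.Injective m →
    ∀ P : MvPolynomial (Option (Fin n × Fin 3)) ℂ,
      (∃ ρ : ℝ, 0 < ρ ∧ ∀ x : ℂ, x ≠ 0 → ‖x‖ < ρ →
        MvPolynomial.eval (fun o : Option (Fin n × Fin 3) =>
          o.elim x fun v => ent (m v.1) x v.2) P = 0) → P = 0

/-! ## Part E: the monodromy condition -/

/-- FRM (150 lines, from INT, IND): formal algebraic independence.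
PROOF: for small complex `x ≠ 0` we have `vm (trm m N Y) x = exp (- log (1 + m x) N) * vm Y (xm m x)`
(`specTrf`, `specPnm` and `TrfM.pval_trf` (complex points!), `ValM.vm_mul` in CG/Val.lean; convergence:
`EstM.Sm`, `IsG`), `exp (- l N) = 1 - l N`, so `e3 (vm (trm m N Y) x) = ent m x`. If `peval .. Q = 0` then
the value at `x` is `0` (as `RelM.pval_peval`, CF/Rel.lean, but for complex `x`), i.e.
`eval (x, ent ..) Q' = 0`, where `Q'` is the image of `Q` under the injective map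
`MvPolynomial σ ℚ[X] → MvPolynomial (Option σ) ℂ` (`MvPolynomial.optionEquivRight`, or
`finSuccEquiv`-like, and `map`). By IND `Q' = 0`, `Q = 0`. -/
def SpecFrm : Prop :=
  ∀ (n : ℕ) (m : Fin n → ℕ), Function.Injective m →
    ∀ Q : MvPolynomial (Fin n × Fin 3) ℚ[X],
      peval (fun v => e3 (trm (m v.1) Ns Ys) v.2) Q = 0 → Q = 0

/-- MON (200 lines, from SYS, FRM): the condition `mon`.
PROOF: let `V a = trm (m a) N Y`; `det V a = 1` (`det (pm m N) = 1`: the matrix is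
`[1 0; * 1]`; `trf` is a ring homomorphism), `V a 0 0` has constant coefficient `1`, `V a 1 0` has
constant coefficient `0` and is `≠ 0` (FRM). Let `F` be a polynomial with `F(V) = 0`. For large `e` there
is a polynomial `Q` over `ℚ[X]` in the variables `(a, 0), (a, 1), (a, 2)` such that for all `2 × 2`
matrices `W a` over a commutative `ℚ[X]`-algebra with `det W a = 1`:
`(∏ a, W a 0 0) ^ e * F(W) = Q(e3 (W a))` (replace `W a 1 1` by `(1 + W a 0 1 W a 1 0)/W a 0 0`;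
induction on `F`). So `Q(e3 (V a)) = 0`, `Q = 0` by FRM, and for `W a = g a V a` over `ℂ⟦X⟧`,
`det W a = 1`, `W a 0 0 = g 0 0 V 0 0 + g 0 1 V 1 0 ≠ 0` (constant coefficient `g 0 0`; if this is `0` then
`g 0 1 ≠ 0`), we get `F(W) = 0`. -/
def SpecMon : Prop :=
  ∀ (r : ℕ) (m : Fin r → ℕ), Function.Injective m →
    ∀ F : MvPolynomial (Fin r × Fin 2 × Fin 2) ℚ[X],
      peval (fun p => trm (m p.1) Ns Ys p.2.1 p.2.2) F = 0 →
      ∀ g : Fin r → GL (Fin 2) ℂ, (∀ a, g a ∈ SL) →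
        pevalC (fun p => gY (g p.1).1 (trm (m p.1) Ns Ys) p.2.1 p.2.2) F = 0

/-! ## Part F: the theorem -/

/-- HOM (120 lines): from relations between the points `z i` to relations between period matrices.
PROOF: let `X i` be matrices, `U i = α X 1 0 + β X 0 0`, `V i = γ X 1 0 + δ X 0 0` (`A i = [α β; γ δ]`) and
`Q(X) = ∑_e coeff_e P ∏ (U i)^(e i) (V i)^(D - e i)`, of degree `≤ n D`;
`Q(X) = ∏ (V i)^D P(U i/V i)` if `V i ≠ 0`. `Q(c) = 0` (`c = blockDiagonal M`). For `ζ : Fin n → ℂ`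
choose `g i ∈ SL₂(ℂ)` such that the first column of `g i M i` is the vector `(X00, X10)` with
`A i (X10, X00) = (ζ i, 1)` (`SL₂(ℂ)` is transitive on nonzero vectors). By the hypothesis `Q(g c) = 0`,
i.e. `P(ζ) = 0` for all `ζ`, so `P = 0`. -/
def SpecHom : Prop :=
  ∀ (n D : ℕ) (K : IntermediateField ℚ ℂ) (P : MvPolynomial (Fin n) K) (M : Fin n → GL (Fin 2) ℂ)
    (A : Fin n → Matrix (Fin 2) (Fin 2) ℤ) (z : Fin n → ℂ), P.totalDegree ≤ D →
    (∀ i, (A i).det = 1) → (∀ i, (A i 1 0 : ℂ) * (M i).1 1 0 + (A i 1 1 : ℂ) * (M i).1 0 0 ≠ 0) →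
    (∀ i, z i * ((A i 1 0 : ℂ) * (M i).1 1 0 + (A i 1 1 : ℂ) * (M i).1 0 0) =
      (A i 0 0 : ℂ) * (M i).1 1 0 + (A i 0 1 : ℂ) * (M i).1 0 0) →
    MvPolynomial.aeval z P = 0 →
    (∀ Q : MvPolynomial ((Fin 2 × Fin n) × (Fin 2 × Fin n)) K, Q.totalDegree ≤ n * D →
      MvPolynomial.aeval (fun v : (Fin 2 × Fin n) × (Fin 2 × Fin n) =>
        blockDiagonal (fun i => (M i).1) v.1 v.2) Q = 0 →
      ∀ g : Fin n → GL (Fin 2) ℂ, (∀ i, g i ∈ SL) →
        MvPolynomial.aeval (fun v : (Fin 2 × Fin n) × (Fin 2 × Fin n) =>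
          blockDiagonal (fun i => (g i * M i).1) v.1 v.2) Q = 0) → P = 0

/-- FIN: the theorem (from everything and `StatementJ`; helper39). -/
def SpecFin : Prop :=
  StatementJ → SpecInjFull → SpecSys → SpecSl → SpecNum → SpecLnk → SpecMon → SpecHom → Statement

end Pool.Agent.Lib.MP_47914d_nt.BD
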